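import Mathlib
import Pool.Agent.K9h23.Lac.Trans

/-!
The first step of the solution of the frozen problem `a + ξ p`: an explicit vector `φ` with
`a·φ = 1` and `|p·φ| ≤ q < 1`.
-/

set_option autoImplicit false

open Complex Set

namespace Pool.Agent.K9h23.Hom

open Pool.Agent.K9h23.Lac (nsq nsq_nonneg nsq_c nn nn_nonneg nn_sq nn_add_le le_nsq nsq_smul' bd
  bd_le_nn comp_le_nn nsq_conj)

variable {N : ℕ}

/-- `e = conj a / |a|²` -/
noncomputable def ee (a : Fin N → ℂ) (j : Fin N) : ℂ := starRingEnd ℂ (a j) / (nsq a : ℂ)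

/-- the component of `p` along `a` -/
noncomputable def mu (a p : Fin N → ℂ) : ℂ := ∑ j, p j * ee a j

/-- the component of `p` orthogonal to `a` -/
noncomputable def qq (a p : Fin N → ℂ) (j : Fin N) : ℂ := p j - mu a p * a j

/-- the vector `φ` -/
noncomputable def phi (τ : ℝ) (a p : Fin N → ℂ) (j : Fin N) : ℂ :=
  ee a j - mu a p * starRingEnd ℂ (qq a p j) * ((τ : ℂ) + (nsq (qq a p) : ℂ))⁻¹

theorem a_ee {a : Fin N → ℂ} (ha : nsq a ≠ 0) : ∑ j, a j * ee a j = 1 := by
  have h : (nsq a : ℂ) ≠ 0 := by exact_mod_cast ha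
  unfold ee
  have : ∀ j, a j * (starRingEnd ℂ (a j) / (nsq a : ℂ)) = a j * starRingEnd ℂ (a j) / nsq a :=
    fun j => by ring
  simp_rw [this]
  rw [← Finset.sum_div, ← nsq_c, div_self h]

theorem conj_a_p {a : Fin N → ℂ} (ha : nsq a ≠ 0) (p : Fin N → ℂ) :
    ∑ j, p j * starRingEnd ℂ (a j) = mu a p * nsq a := by
  have h : (nsq a : ℂ) ≠ 0 := by exact_mod_cast ha
  unfold mu ee
  rw [Finset.sum_mul]
  refine Finset.sum_congr rfl fun j _ => ?_
  field_simp

theorem a_qq {a : Fin N → ℂ} (ha : nsq a ≠ 0) (p : Fin N → ℂ) :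
    ∑ j, a j * starRingEnd ℂ (qq a p j) = 0 := by
  have h1 : ∑ j, qq a p j * starRingEnd ℂ (a j) = 0 := by
    unfold qq
    have : ∀ j, (p j - mu a p * a j) * starRingEnd ℂ (a j) =
        p j * starRingEnd ℂ (a j) - mu a p * (a j * starRingEnd ℂ (a j)) := fun j => by ring
    simp_rw [this]
    rw [Finset.sum_sub_distrib, ← Finset.mul_sum, ← nsq_c, conj_a_p ha, sub_self]
  have h2 := congrArg (starRingEnd ℂ) h1
  rw [map_sum, map_zero] at h2
  rw [← h2]
  refine Finset.sum_congr rfl fun j _ => ?_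
  rw [map_mul, Complex.conj_conj, mul_comm]

theorem p_qq {a : Fin N → ℂ} (ha : nsq a ≠ 0) (p : Fin N → ℂ) :
    ∑ j, p j * starRingEnd ℂ (qq a p j) = nsq (qq a p) := by
  rw [nsq_c]
  have h1 : ∀ j, p j * starRingEnd ℂ (qq a p j) = qq a p j * starRingEnd ℂ (qq a p j) +
      mu a p * (a j * starRingEnd ℂ (qq a p j)) := fun j => by
    unfold qq; ring
  simp_rw [h1]
  rw [Finset.sum_add_distrib, ← Finset.mul_sum, a_qq ha, mul_zero, add_zero]

theorem a_phi {a : Fin N → ℂ} (ha : nsq a ≠ 0) (τ : ℝ) (p : Fin N → ℂ) :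
    ∑ j, a j * phi τ a p j = 1 := by
  unfold phi
  have h1 : ∀ j, a j * (ee a j - mu a p * starRingEnd ℂ (qq a p j) *
      ((τ : ℂ) + (nsq (qq a p) : ℂ))⁻¹) = a j * ee a j -
      mu a p * ((τ : ℂ) + (nsq (qq a p) : ℂ))⁻¹ * (a j * starRingEnd ℂ (qq a p j)) :=
    fun j => by ring
  simp_rw [h1]
  rw [Finset.sum_sub_distrib, ← Finset.mul_sum, a_qq ha, a_ee ha, mul_zero, sub_zero]

theorem p_phi {a : Fin N → ℂ} (ha : nsq a ≠ 0) {τ : ℝ} (hτ : 0 < τ) (p : Fin N → ℂ) :
    ∑ j, p j * phi τ a p j = mu a p * ((τ / (τ + nsq (qq a p)) : ℝ) : ℂ) := by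
  unfold phi
  have h0 : ((τ : ℂ) + (nsq (qq a p) : ℂ)) ≠ 0 := by
    have : τ + nsq (qq a p) ≠ 0 := by have := nsq_nonneg (qq a p); positivity
    exact_mod_cast this
  have h1 : ∀ j, p j * (ee a j - mu a p * starRingEnd ℂ (qq a p j) *
      ((τ : ℂ) + (nsq (qq a p) : ℂ))⁻¹) = p j * ee a j -
      mu a p * ((τ : ℂ) + (nsq (qq a p) : ℂ))⁻¹ * (p j * starRingEnd ℂ (qq a p j)) :=
    fun j => by ring
  simp_rw [h1]
  rw [Finset.sum_sub_distrib, ← Finset.mul_sum, p_qq ha]
  change mu a p - _ = _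
  push_cast
  field_simp
  ring

theorem mu_smul (a p : Fin N → ℂ) (c : ℂ) : mu a (fun j => c * p j) = c * mu a p := by
  unfold mu
  rw [Finset.mul_sum]
  exact Finset.sum_congr rfl fun j _ => by ring

theorem qq_smul (a p : Fin N → ℂ) (c : ℂ) : qq a (fun j => c * p j) = fun j => c * qq a p j := by
  funext j
  unfold qq
  rw [mu_smul]
  ring

/-- invariance -/
theorem phi_smul (τ : ℝ) (a p : Fin N → ℂ) {c : ℂ} (hc : ‖c‖ = 1) :
    phi τ a (fun j => c * p j) = phi τ a p := by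
  funext j
  unfold phi
  rw [mu_smul, qq_smul, nsq_smul', hc]
  have h1 : c * starRingEnd ℂ c = 1 := by
    rw [Complex.mul_conj, Complex.normSq_eq_norm_sq, hc]
    simp
  rw [map_mul, one_pow, one_mul]
  congr 1
  linear_combination (mu a p * starRingEnd ℂ (qq a p j) * ((τ : ℂ) + (nsq (qq a p) : ℂ))⁻¹) * h1

theorem nn_smul (c : ℂ) (u : Fin N → ℂ) : nn (fun j => c * u j) = ‖c‖ * nn u := by
  unfold nn
  rw [nsq_smul', Real.sqrt_mul (by positivity), Real.sqrt_sq (norm_nonneg _)]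

/-- **The contraction.** -/
theorem phi_contr {δ A : ℝ} (hδ : 0 < δ) (hA : δ ≤ A) {a p : Fin N → ℂ} (ha : nn a ≤ A)
    (hp : nn p ≤ A) (hgood : ∀ ξ : ℂ, ‖ξ‖ ≤ 1 → δ ≤ nn (fun j => a j + ξ * p j)) :
    ‖∑ j, p j * phi (δ ^ 3 / (8 * A)) a p j‖ ≤ 1 - δ / (2 * A) := by
  have hA0 : 0 < A := by linarith
  set τ : ℝ := δ ^ 3 / (8 * A) with hτdef
  have hτ : 0 < τ := by positivity
  have hna : δ ≤ nn a := by
    have h := hgood 0 (by simp)
    simpa using h
  have hna0 : 0 < nn a := by linarith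
  have hnsa : nsq a ≠ 0 := by
    rw [← nn_sq]; positivity
  rw [p_phi hnsa hτ, norm_mul, Complex.norm_real]
  set q := qq a p with hq
  have hq0 := nsq_nonneg q
  have hfr : 0 ≤ τ / (τ + nsq q) := by positivity
  rw [Real.norm_of_nonneg hfr]
  have hfr1 : τ / (τ + nsq q) ≤ 1 := by
    rw [div_le_one (by positivity)]; linarith
  have hmu : ‖mu a p‖ ≤ A / δ := by
    have h1 : ‖mu a p‖ ≤ nn p * nn (ee a) := bd_le_nn p (ee a)
    have h2 : nn (ee a) = 1 / nn a := by
      have h3 : ee a = fun j => ((nsq a : ℂ))⁻¹ * starRingEnd ℂ (a j) := by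
        funext j
        unfold ee
        ring
      rw [h3, nn_smul]
      have h4 : nn (fun j => starRingEnd ℂ (a j)) = nn a := by
        unfold nn
        rw [nsq_conj]
      rw [h4, norm_inv, Complex.norm_real, Real.norm_of_nonneg (nsq_nonneg _), ← nn_sq]
      field_simp
    rw [h2] at h1
    refine h1.trans ?_
    rw [mul_one_div]
    exact div_le_div₀ hA0.le hp hδ hna
  rcases le_or_gt ‖mu a p‖ (1 - δ / (2 * A)) with hc | hc
  · calc ‖mu a p‖ * (τ / (τ + nsq q)) ≤ ‖mu a p‖ * 1 :=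
          mul_le_mul_of_nonneg_left hfr1 (norm_nonneg _)
      _ ≤ _ := by rw [mul_one]; exact hc
  · have hδA : δ / (2 * A) ≤ 1 / 2 := by
      rw [div_le_div_iff₀ (by positivity) (by norm_num)]
      linarith
    have hmu0 : 0 < ‖mu a p‖ := by linarith
    have hmune : mu a p ≠ 0 := norm_pos_iff.1 hmu0
    have hpq : ∀ ξ : ℂ, (fun j => a j + ξ * p j) =
        fun j => (1 + ξ * mu a p) * a j + ξ * q j := by
      intro ξ
      funext j
      rw [hq]
      unfold qq
      ring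
    have hnq : δ / 2 ≤ nn q := by
      rcases le_or_gt 1 ‖mu a p‖ with h1 | h1
      · have h2 : ‖-(mu a p)⁻¹‖ ≤ 1 := by
          rw [norm_neg, norm_inv]
          exact inv_le_one_of_one_le₀ h1
        have h3 := hgood _ h2
        rw [hpq] at h3
        have h4 : (fun j => (1 + -(mu a p)⁻¹ * mu a p) * a j + -(mu a p)⁻¹ * q j) =
            fun j => -(mu a p)⁻¹ * q j := by
          funext j
          have : 1 + -(mu a p)⁻¹ * mu a p = 0 := by field_simp; ring
          rw [this]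
          ring
        rw [h4, nn_smul] at h3
        have h5 := nn_nonneg q
        nlinarith
      · set ξ : ℂ := -(starRingEnd ℂ (mu a p)) / ‖mu a p‖ with hξ
        have hn0 : (‖mu a p‖ : ℂ) ≠ 0 := by exact_mod_cast hmu0.ne'
        have h2 : ‖ξ‖ = 1 := by
          rw [hξ, norm_div, norm_neg, RCLike.norm_conj, Complex.norm_real,
            Real.norm_of_nonneg hmu0.le, div_self hmu0.ne']
        have h3 := hgood ξ h2.le
        rw [hpq] at h3
        have h4 : 1 + ξ * mu a p = ((1 - ‖mu a p‖ : ℝ) : ℂ) := by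
          have h5 : starRingEnd ℂ (mu a p) * mu a p = (‖mu a p‖ : ℂ) ^ 2 := by
            rw [mul_comm, Complex.mul_conj, Complex.normSq_eq_norm_sq]
            push_cast
            rfl
          rw [hξ]
          push_cast
          field_simp
          linear_combination -h5
        have h6 := nn_add_le (fun j => (1 + ξ * mu a p) * a j) (fun j => ξ * q j)
        rw [nn_smul, nn_smul, h2, one_mul, h4, Complex.norm_real,
          Real.norm_of_nonneg (by linarith)] at h6
        have h7 : (1 - ‖mu a p‖) * nn a ≤ δ / 2 := by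
          have h8 : (1 - ‖mu a p‖) * nn a ≤ δ / (2 * A) * A :=
            mul_le_mul (by linarith) ha (nn_nonneg _) (by positivity)
          have h9 : δ / (2 * A) * A = δ / 2 := by field_simp
          linarith
        rw [h4] at h3
        linarith
    have hnq2 : δ ^ 2 / 4 ≤ nsq q := by
      rw [← nn_sq]
      nlinarith [nn_nonneg q]
    have h1 : τ / (τ + nsq q) ≤ τ / (δ ^ 2 / 4) := by
      apply div_le_div_of_nonneg_left hτ.le (by positivity)
      linarith
    have h2 : ‖mu a p‖ * (τ / (τ + nsq q)) ≤ A / δ * (τ / (δ ^ 2 / 4)) :=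
      mul_le_mul hmu h1 hfr (by positivity)
    have h3 : A / δ * (τ / (δ ^ 2 / 4)) = 1 / 2 := by
      rw [hτdef]
      field_simp
      norm_num
    linarith

end Pool.Agent.K9h23.Hom
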