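import Mathlib
import Pool.Agent.K9h23.Hom.Phi

/-!
Bounded Lipschitz functions; the bounds for `φ`.
-/

set_option autoImplicit false

open Complex Set

namespace Pool.Agent.K9h23.Hom

open Pool.Agent.K9h23.Lac (nsq nsq_nonneg nsq_c nn nn_nonneg nn_sq nn_add_le le_nsq nsq_smul' bd
  bd_le_nn comp_le_nn nsq_conj)

section BL

variable {X : Type*} [PseudoMetricSpace X] {T : Set X}

/-- bounded Lipschitz functions on a set -/
def BL (T : Set X) (u : X → ℂ) : Prop :=
  ∃ M : ℝ, 0 ≤ M ∧ (∀ x ∈ T, ‖u x‖ ≤ M) ∧ ∀ x ∈ T, ∀ y ∈ T, ‖u x - u y‖ ≤ M * dist x y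

theorem BL.const (c : ℂ) : BL T (fun _ => c) :=
  ⟨‖c‖, norm_nonneg _, fun _ _ => le_rfl, fun x _ y _ => by
    rw [sub_self, norm_zero]; positivity⟩

theorem BL.add {u v : X → ℂ} (hu : BL T u) (hv : BL T v) : BL T (fun x => u x + v x) := by
  obtain ⟨M, hM, h1, h2⟩ := hu
  obtain ⟨M', hM', h1', h2'⟩ := hv
  refine ⟨M + M', by positivity, fun x hx => (norm_add_le _ _).trans
    (add_le_add (h1 x hx) (h1' x hx)), fun x hx y hy => ?_⟩
  have e : u x + v x - (u y + v y) = (u x - u y) + (v x - v y) := by ring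
  rw [e, add_mul]
  exact (norm_add_le _ _).trans (add_le_add (h2 x hx y hy) (h2' x hx y hy))

theorem BL.neg {u : X → ℂ} (hu : BL T u) : BL T (fun x => -u x) := by
  obtain ⟨M, hM, h1, h2⟩ := hu
  refine ⟨M, hM, fun x hx => by rw [norm_neg]; exact h1 x hx, fun x hx y hy => ?_⟩
  have e : -u x - -u y = -(u x - u y) := by ring
  rw [e, norm_neg]
  exact h2 x hx y hy

theorem BL.sub {u v : X → ℂ} (hu : BL T u) (hv : BL T v) : BL T (fun x => u x - v x) := by
  have := hu.add hv.neg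
  simpa only [← sub_eq_add_neg] using this

theorem BL.mul {u v : X → ℂ} (hu : BL T u) (hv : BL T v) : BL T (fun x => u x * v x) := by
  obtain ⟨M, hM, h1, h2⟩ := hu
  obtain ⟨M', hM', h1', h2'⟩ := hv
  refine ⟨2 * (M * M'), by positivity, fun x hx => ?_, fun x hx y hy => ?_⟩
  · rw [norm_mul]
    have := mul_le_mul (h1 x hx) (h1' x hx) (norm_nonneg _) hM
    have h3 : 0 ≤ M * M' := by positivity
    linarith
  · have e : u x * v x - u y * v y = (u x - u y) * v x + u y * (v x - v y) := by ring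
    rw [e]
    refine (norm_add_le _ _).trans ?_
    rw [norm_mul, norm_mul]
    have a1 := mul_le_mul (h2 x hx y hy) (h1' x hx) (norm_nonneg _) (by positivity)
    have a2 := mul_le_mul (h1 y hy) (h2' x hx y hy) (norm_nonneg _) hM
    calc _ ≤ M * dist x y * M' + M * (M' * dist x y) := add_le_add a1 a2
      _ = _ := by ring

theorem BL.conj {u : X → ℂ} (hu : BL T u) : BL T (fun x => starRingEnd ℂ (u x)) := by
  obtain ⟨M, hM, h1, h2⟩ := hu
  refine ⟨M, hM, fun x hx => by rw [RCLike.norm_conj]; exact h1 x hx, fun x hx y hy => ?_⟩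
  rw [← map_sub, RCLike.norm_conj]
  exact h2 x hx y hy

theorem BL.inv {u : X → ℂ} (hu : BL T u) {c : ℝ} (hc : 0 < c) (hb : ∀ x ∈ T, c ≤ ‖u x‖) :
    BL T (fun x => (u x)⁻¹) := by
  obtain ⟨M, hM, h1, h2⟩ := hu
  refine ⟨1 / c + M / c ^ 2, by positivity, fun x hx => ?_, fun x hx y hy => ?_⟩
  · rw [norm_inv, inv_eq_one_div]
    have := one_div_le_one_div_of_le hc (hb x hx)
    have h3 : 0 ≤ M / c ^ 2 := by positivity
    linarith
  · have hx0 : u x ≠ 0 := norm_pos_iff.1 (hc.trans_le (hb x hx))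
    have hy0 : u y ≠ 0 := norm_pos_iff.1 (hc.trans_le (hb y hy))
    have e : (u x)⁻¹ - (u y)⁻¹ = -(u x - u y) / (u x * u y) := by
      field_simp
      ring
    rw [e, norm_div, norm_neg, norm_mul]
    have h3 : c ^ 2 ≤ ‖u x‖ * ‖u y‖ := by
      rw [sq]
      exact mul_le_mul (hb x hx) (hb y hy) hc.le (norm_nonneg _)
    have h4 : ‖u x - u y‖ / (‖u x‖ * ‖u y‖) ≤ M * dist x y / c ^ 2 :=
      div_le_div₀ (by positivity) (h2 x hx y hy) (by positivity) h3
    refine h4.trans ?_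
    have h5 : 0 ≤ 1 / c * dist x y := by positivity
    calc M * dist x y / c ^ 2 = M / c ^ 2 * dist x y := by ring
      _ ≤ _ := by rw [add_mul]; linarith

theorem BL.sum {ι : Type*} (S : Finset ι) {u : ι → X → ℂ} (h : ∀ i ∈ S, BL T (u i)) :
    BL T (fun x => ∑ i ∈ S, u i x) := by
  classical
  induction S using Finset.induction_on with
  | empty => simpa using BL.const 0
  | insert i S hi ih =>
    simp only [Finset.sum_insert hi]
    exact (h i (Finset.mem_insert_self _ _)).add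
      (ih fun j hj => h j (Finset.mem_insert_of_mem hj))

theorem BL.congr {u v : X → ℂ} (hu : BL T u) (h : ∀ x, u x = v x) : BL T v := by
  have : u = v := funext h
  rwa [← this]

theorem BL.unif {ι : Type*} [Fintype ι] {u : ι → X → ℂ} (h : ∀ i, BL T (u i)) :
    ∃ M : ℝ, 0 ≤ M ∧ ∀ i, (∀ x ∈ T, ‖u i x‖ ≤ M) ∧
      ∀ x ∈ T, ∀ y ∈ T, ‖u i x - u i y‖ ≤ M * dist x y := by
  choose M hM h1 h2 using h
  have hle : ∀ i, M i ≤ ∑ i, M i := fun i =>
    Finset.single_le_sum (f := M) (fun i _ => hM i) (Finset.mem_univ i)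
  refine ⟨∑ i, M i, Finset.sum_nonneg fun i _ => hM i, fun i => ⟨fun x hx =>
    (h1 i x hx).trans (hle i), fun x hx y hy => (h2 i x hx y hy).trans ?_⟩⟩
  exact mul_le_mul_of_nonneg_right (hle i) dist_nonneg

end BL

variable {N : ℕ}

/-- the set of pairs -/
def TT (N : ℕ) (δ A : ℝ) : Set ((Fin N → ℂ) × (Fin N → ℂ)) :=
  {x | δ ≤ nn x.1 ∧ nn x.1 ≤ A ∧ nn x.2 ≤ A}

theorem BL_fst {δ A : ℝ} (hA : 1 ≤ A) (j : Fin N) : BL (TT N δ A) (fun x => x.1 j) := by
  refine ⟨A, by linarith, fun x hx => (comp_le_nn x.1 j).trans hx.2.1, fun x _ y _ => ?_⟩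
  have h1 : ‖x.1 j - y.1 j‖ ≤ dist x y := by
    rw [← Pi.sub_apply]
    refine (norm_le_pi_norm _ j).trans ?_
    rw [← dist_eq_norm]
    exact le_max_left _ _
  nlinarith [dist_nonneg (x := x) (y := y)]

theorem BL_snd {δ A : ℝ} (hA : 1 ≤ A) (j : Fin N) : BL (TT N δ A) (fun x => x.2 j) := by
  refine ⟨A, by linarith, fun x hx => (comp_le_nn x.2 j).trans hx.2.2, fun x _ y _ => ?_⟩
  have h1 : ‖x.2 j - y.2 j‖ ≤ dist x y := by
    rw [← Pi.sub_apply]
    refine (norm_le_pi_norm _ j).trans ?_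
    rw [← dist_eq_norm]
    exact le_max_right _ _
  nlinarith [dist_nonneg (x := x) (y := y)]

theorem BL_nsq {T : Set ((Fin N → ℂ) × (Fin N → ℂ))} {u : Fin N → (Fin N → ℂ) × (Fin N → ℂ) → ℂ}
    (h : ∀ j, BL T (u j)) : BL T (fun x => (nsq (fun j => u j x) : ℂ)) :=
  (BL.sum Finset.univ fun j _ => (h j).mul (h j).conj).congr fun x =>
    (nsq_c (fun j => u j x)).symm

theorem BL_ee {δ A : ℝ} (hδ : 0 < δ) (hA : 1 ≤ A) (j : Fin N) :
    BL (TT N δ A) (fun x => ee x.1 j) := by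
  have h1 : BL (TT N δ A) (fun x => (nsq x.1 : ℂ)) := BL_nsq (BL_fst hA)
  have h2 := (BL_fst (δ := δ) hA j).conj.mul (h1.inv (c := δ ^ 2) (by positivity) fun x hx => by
    rw [Complex.norm_real, Real.norm_of_nonneg (nsq_nonneg _), ← nn_sq]
    exact pow_le_pow_left₀ hδ.le hx.1 2)
  exact h2.congr fun x => by unfold ee; rw [div_eq_mul_inv]

theorem BL_mu {δ A : ℝ} (hδ : 0 < δ) (hA : 1 ≤ A) : BL (TT N δ A) (fun x => mu x.1 x.2) :=
  BL.sum Finset.univ fun j _ => (BL_snd hA j).mul (BL_ee hδ hA j)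

theorem BL_qq {δ A : ℝ} (hδ : 0 < δ) (hA : 1 ≤ A) (j : Fin N) :
    BL (TT N δ A) (fun x => qq x.1 x.2 j) :=
  (BL_snd hA j).sub ((BL_mu hδ hA).mul (BL_fst hA j))

theorem BL_phi {δ A τ : ℝ} (hδ : 0 < δ) (hA : 1 ≤ A) (hτ : 0 < τ) (j : Fin N) :
    BL (TT N δ A) (fun x => phi τ x.1 x.2 j) := by
  have h1 : BL (TT N δ A) (fun x => (τ : ℂ) + (nsq (qq x.1 x.2) : ℂ)) :=
    (BL.const (τ : ℂ)).add (BL_nsq (BL_qq hδ hA))
  have h2 := h1.inv hτ fun x _ => by
    have e : (τ : ℂ) + (nsq (qq x.1 x.2) : ℂ) = ((τ + nsq (qq x.1 x.2) : ℝ) : ℂ) := by push_cast; rfl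
    have h0 := nsq_nonneg (qq x.1 x.2)
    rw [e, Complex.norm_real, Real.norm_of_nonneg (by positivity)]
    linarith
  exact (BL_ee hδ hA j).sub (((BL_mu hδ hA).mul (BL_qq hδ hA j).conj).mul h2)

theorem meas_nsq {α : Type*} [MeasurableSpace α] {u : Fin N → α → ℂ} (h : ∀ j, Measurable (u j)) :
    Measurable (fun x => (nsq (fun j => u j x) : ℂ)) := by
  have : (fun x => (nsq (fun j => u j x) : ℂ)) =
      fun x => ∑ j, u j x * starRingEnd ℂ (u j x) := by
    funext x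
    exact nsq_c _
  rw [this]
  exact Finset.measurable_fun_sum _ fun j _ =>
    (h j).mul (Complex.continuous_conj.measurable.comp (h j))

theorem meas_ee {α : Type*} [MeasurableSpace α] {u : α → Fin N → ℂ}
    (hu : ∀ j, Measurable (fun x => u x j)) (j : Fin N) : Measurable (fun x => ee (u x) j) := by
  unfold ee
  exact (Complex.continuous_conj.measurable.comp (hu j)).div (meas_nsq hu)

theorem meas_mu {α : Type*} [MeasurableSpace α] {u v : α → Fin N → ℂ}
    (hu : ∀ j, Measurable (fun x => u x j)) (hv : ∀ j, Measurable (fun x => v x j)) :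
    Measurable (fun x => mu (u x) (v x)) := by
  unfold mu
  exact Finset.measurable_fun_sum _ fun j _ => (hv j).mul (meas_ee hu j)

theorem meas_phi {α : Type*} [MeasurableSpace α] {u v : α → Fin N → ℂ} (τ : ℝ)
    (hu : ∀ j, Measurable (fun x => u x j)) (hv : ∀ j, Measurable (fun x => v x j)) (j : Fin N) :
    Measurable (fun x => phi τ (u x) (v x) j) := by
  have h1 := meas_mu hu hv
  have h2 : ∀ j, Measurable (fun x => qq (u x) (v x) j) := fun j => by
    unfold qq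
    exact (hv j).sub (h1.mul (hu j))
  unfold phi
  refine (meas_ee hu j).sub ((h1.mul (Complex.continuous_conj.measurable.comp (h2 j))).mul ?_)
  exact (measurable_const.add (meas_nsq h2)).inv

end Pool.Agent.K9h23.Hom
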