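import Mathlib

/-!
The Fock projection on `ℂ^m`, acting on functions with the growth `e^{s(|z|²-1)/2}`.
-/

set_option autoImplicit false

open MeasureTheory Set Complex
open scoped Real InnerProductSpace

namespace Pool.Agent.K9h23.Hom

/-- the space `ℂ^m` with the euclidean norm -/
abbrev E (m : ℕ) := EuclideanSpace ℂ (Fin m)

variable {m : ℕ}

/-- the weight -/
noncomputable def om (s : ℝ) (z : E m) : ℝ := Real.exp (s * (‖z‖ ^ 2 - 1) / 2)

theorem om_pos (s : ℝ) (z : E m) : 0 < om s z := Real.exp_pos _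

theorem om_add (s t : ℝ) (z : E m) : om (s + t) z = om s z * om t z := by
  unfold om
  rw [← Real.exp_add]
  ring_nf

theorem om_cont (s : ℝ) : Continuous (fun z : E m => om s z) := by
  unfold om
  fun_prop

theorem finrank_E : Module.finrank ℝ (E m) = 2 * m := by
  rw [finrank_real_of_complex, finrank_euclideanSpace, Fintype.card_fin]

/-- the Gaussian integral -/
theorem gauss {c : ℝ} (hc : 0 < c) : ∫ x : E m, Real.exp (-c * ‖x‖ ^ 2) = (π / c) ^ m := by
  rw [GaussianFourier.integral_rexp_neg_mul_sq_norm hc, finrank_E]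
  have : ((2 * m : ℕ) : ℝ) / 2 = (m : ℝ) := by push_cast; ring
  rw [this, Real.rpow_natCast]

theorem gauss_int {c : ℝ} (hc : 0 < c) : Integrable (fun x : E m => Real.exp (-c * ‖x‖ ^ 2)) := by
  have h := GaussianFourier.integrable_cexp_neg_mul_sq_norm_add (V := E m)
    (b := (c : ℂ)) (by simpa using hc) 0 0
  have h2 := h.norm
  refine h2.congr (Filter.Eventually.of_forall fun x => ?_)
  beta_reduce
  rw [Complex.norm_exp]
  congr 1
  have : (-(c : ℂ) * (‖x‖ : ℂ) ^ 2 + 0 * ((inner ℝ (0 : E m) x : ℝ) : ℂ)) =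
      ((-c * ‖x‖ ^ 2 : ℝ) : ℂ) := by
    push_cast
    ring
  rw [this, Complex.ofReal_re]

/-- rotation -/
noncomputable def rot (θ : ℝ) : E m ≃ₗᵢ[ℝ] E m where
  toFun := fun x => cexp (θ * I) • x
  invFun := fun x => cexp (-(θ * I)) • x
  map_add' := fun x y => smul_add _ _ _
  map_smul' := fun c x => by
    rw [RingHom.id_apply, smul_comm]
  left_inv := fun x => by
    beta_reduce
    rw [smul_smul, ← Complex.exp_add, neg_add_cancel, Complex.exp_zero, one_smul]
  right_inv := fun x => by
    beta_reduce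
    rw [smul_smul, ← Complex.exp_add, add_neg_cancel, Complex.exp_zero, one_smul]
  norm_map' := fun x => by
    change ‖cexp (θ * I) • x‖ = ‖x‖
    rw [norm_smul, Complex.norm_exp_ofReal_mul_I, one_mul]

theorem rot_apply (θ : ℝ) (x : E m) : rot θ x = cexp (θ * I) • x := rfl

theorem rot_int (θ : ℝ) (f : E m → ℂ) : ∫ x, f (cexp (θ * I) • x) = ∫ x, f x := by
  have := (rot (m := m) θ).measurePreserving.integral_comp
    (rot (m := m) θ).toHomeomorph.measurableEmbedding f
  exact this

/-- **Mean value property** for the Gaussian measure. -/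
theorem mean {s : ℝ} {u : E m → ℂ} (hu : Differentiable ℂ u)
    (hi : Integrable (fun x : E m => (Real.exp (-s * ‖x‖ ^ 2) : ℂ) * u x)) :
    ∫ x : E m, (Real.exp (-s * ‖x‖ ^ 2) : ℂ) * u x =
      (∫ x : E m, (Real.exp (-s * ‖x‖ ^ 2) : ℂ)) * u 0 := by
  set g : E m → ℂ := fun x => (Real.exp (-s * ‖x‖ ^ 2) : ℂ) with hg
  have hgc : Continuous g := by rw [hg]; fun_prop
  have hrot : ∀ (θ : ℝ) (x : E m), g (cexp (θ * I) • x) = g x := by
    intro θ x
    rw [hg]
    simp only [norm_smul, Complex.norm_exp_ofReal_mul_I, one_mul]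
  set F : ℝ → E m → ℂ := fun θ x => g x * u (cexp (θ * I) • x) with hF
  have hFc : Continuous (Function.uncurry F) := by
    rw [hF]
    have h1 : Continuous (fun p : ℝ × E m => cexp (p.1 * I) • p.2) := by fun_prop
    exact (hgc.comp continuous_snd).mul (hu.continuous.comp h1)
  have hFθ : ∀ θ : ℝ, F θ = fun x => (fun y => g y * u y) (cexp (θ * I) • x) := by
    intro θ
    funext x
    rw [hF]
    simp only [hrot]
  have h1 : ∀ θ : ℝ, ∫ x, F θ x = ∫ x, g x * u x := by
    intro θ
    rw [hFθ θ]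
    exact rot_int θ (fun y => g y * u y)
  set μ : Measure ℝ := volume.restrict (Ioc 0 (2 * π)) with hμ
  have hint : Integrable (Function.uncurry F) (μ.prod volume) := by
    rw [integrable_prod_iff hFc.aestronglyMeasurable]
    constructor
    · refine Filter.Eventually.of_forall fun θ => ?_
      have h2 : Integrable (fun x => (fun y => g y * u y) (rot (m := m) θ x)) :=
        ((rot (m := m) θ).measurePreserving.integrable_comp_emb
          (rot (m := m) θ).toHomeomorph.measurableEmbedding).2 hi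
      change Integrable (F θ) volume
      rw [hFθ θ]
      exact h2
    · have h3 : (fun θ : ℝ => ∫ y, ‖Function.uncurry F (θ, y)‖) = fun _ => ∫ y, ‖g y * u y‖ := by
        funext θ
        change ∫ y, ‖F θ y‖ = _
        rw [hFθ θ]
        have h4 := (rot (m := m) θ).measurePreserving.integral_comp
          (rot (m := m) θ).toHomeomorph.measurableEmbedding (fun y => ‖g y * u y‖)
        exact h4
      rw [h3]
      exact integrable_const _
  have hswap := integral_integral_swap hint
  have h5 : ∫ θ, (∫ x, F θ x) ∂μ = (2 * π : ℝ) • ∫ x, g x * u x := by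
    simp_rw [h1]
    rw [integral_const, hμ]
    congr 1
    simp [Measure.real, Real.pi_pos.le]
  have h6 : ∀ x : E m, ∫ θ, F θ x ∂μ = (2 * π : ℝ) • (g x * u 0) := by
    intro x
    have h7 : Differentiable ℂ (fun ζ : ℂ => u (ζ • x)) :=
      hu.comp (differentiable_id.smul_const x)
    have h8 := h7.diffContOnCl (s := Metric.ball (0:ℂ) |1|) |>.circleAverage
    rw [Real.circleAverage_def] at h8
    have h9 : ∫ θ in (0:ℝ)..2 * π, u (cexp (θ * I) • x) = (2 * π : ℝ) • u 0 := by
      have h10 : ∫ θ in (0:ℝ)..2 * π, u (circleMap 0 1 θ • x) = (2 * π : ℝ) • u 0 := by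
        have h11 : u ((0:ℂ) • x) = u 0 := by rw [zero_smul]
        rw [h11] at h8
        rw [← h8, smul_smul, mul_inv_cancel₀ (by positivity), one_smul]
      rw [← h10]
      refine intervalIntegral.integral_congr fun θ _ => ?_
      simp [circleMap]
    rw [hμ, hF]
    simp only
    rw [← intervalIntegral.integral_of_le (by positivity), intervalIntegral.integral_const_mul, h9]
    simp only [Complex.real_smul]
    ring
  rw [h5] at hswap
  simp_rw [h6] at hswap
  rw [integral_smul] at hswap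
  have h12 := smul_right_injective ℂ (show (2 * π : ℝ) ≠ 0 by positivity) hswap
  rw [h12]
  exact integral_mul_const _ _

/-- the kernel -/
noncomputable def ker (s : ℝ) (z w : E m) : ℂ := cexp (s * inner ℂ w z - s * (‖w‖ : ℂ) ^ 2)

theorem ker_norm (s : ℝ) (z w : E m) :
    ‖ker s z w‖ = Real.exp (s * (inner ℂ w z).re - s * ‖w‖ ^ 2) := by
  unfold ker
  rw [Complex.norm_exp]
  congr 1
  rw [Complex.sub_re, Complex.re_ofReal_mul]
  congr 1
  have : (s : ℂ) * (‖w‖ : ℂ) ^ 2 = ((s * ‖w‖ ^ 2 : ℝ) : ℂ) := by push_cast; ring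
  rw [this, Complex.ofReal_re]

theorem ker_om (s : ℝ) (z w : E m) :
    ‖ker s z w‖ * om s w = om s z * Real.exp (-(s / 2) * ‖w - z‖ ^ 2) := by
  rw [ker_norm]
  unfold om
  rw [← Real.exp_add, ← Real.exp_add]
  congr 1
  have h := norm_sub_sq (𝕜 := ℂ) w z
  rw [h]
  change _ = s * (‖z‖ ^ 2 - 1) / 2 + -(s / 2) * (‖w‖ ^ 2 - 2 * (inner ℂ w z).re + ‖z‖ ^ 2)
  ring

theorem ker_cont (s : ℝ) (z : E m) : Continuous (fun w : E m => ker s z w) := by
  unfold ker
  fun_prop

/-- the Fock projection -/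
noncomputable def PiO (s : ℝ) (G : E m → ℂ) (z : E m) : ℂ :=
  (((s / π) ^ m : ℝ) : ℂ) * ∫ w, ker s z w * G w

/-- admissible functions -/
structure Ad (s b : ℝ) (G : E m → ℂ) : Prop where
  meas : Measurable G
  bd : ∀ w, ‖G w‖ ≤ b * om s w

theorem gauss_shift_int {c : ℝ} (hc : 0 < c) (z : E m) :
    Integrable (fun w : E m => Real.exp (-c * ‖w - z‖ ^ 2)) :=
  (gauss_int hc).comp_sub_right z

theorem gauss_shift {c : ℝ} (hc : 0 < c) (z : E m) :
    ∫ w : E m, Real.exp (-c * ‖w - z‖ ^ 2) = (π / c) ^ m := by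
  rw [← gauss hc]
  exact integral_sub_right_eq_self (fun x : E m => Real.exp (-c * ‖x‖ ^ 2)) z

theorem Ad.int {s b : ℝ} (hs : 0 < s) {G : E m → ℂ} (h : Ad s b G) (z : E m) :
    Integrable (fun w => ker s z w * G w) := by
  refine Integrable.mono' (((gauss_shift_int (half_pos hs) z).const_mul (b * om s z)))
    ((ker_cont s z).measurable.mul h.meas).aestronglyMeasurable
    (Filter.Eventually.of_forall fun w => ?_)
  rw [norm_mul]
  calc ‖ker s z w‖ * ‖G w‖ ≤ ‖ker s z w‖ * (b * om s w) :=
        mul_le_mul_of_nonneg_left (h.bd w) (norm_nonneg _)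
    _ = b * (‖ker s z w‖ * om s w) := by ring
    _ = b * om s z * Real.exp (-(s / 2) * ‖w - z‖ ^ 2) := by rw [ker_om]; ring

theorem Ad.nonneg {s b : ℝ} {G : E m → ℂ} (h : Ad s b G) : 0 ≤ b := by
  have h1 := (norm_nonneg _).trans (h.bd 0)
  exact nonneg_of_mul_nonneg_left h1 (om_pos s 0)

theorem Ad.add {s b b' : ℝ} {G G' : E m → ℂ} (h : Ad s b G) (h' : Ad s b' G') :
    Ad s (b + b') (fun w => G w + G' w) :=
  ⟨h.meas.add h'.meas, fun w => (norm_add_le _ _).trans (by
    rw [add_mul]; exact add_le_add (h.bd w) (h'.bd w))⟩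

theorem Ad.neg {s b : ℝ} {G : E m → ℂ} (h : Ad s b G) : Ad s b (fun w => -G w) :=
  ⟨h.meas.neg, fun w => by rw [norm_neg]; exact h.bd w⟩

theorem Ad.mono {s b b' : ℝ} {G : E m → ℂ} (h : Ad s b G) (hb : b ≤ b') : Ad s b' G :=
  ⟨h.meas, fun w => (h.bd w).trans (mul_le_mul_of_nonneg_right hb (om_pos s w).le)⟩

theorem Ad.mul {s t b b' : ℝ} {G G' : E m → ℂ} (h : Ad s b G) (h' : Ad t b' G') :
    Ad (s + t) (b * b') (fun w => G w * G' w) :=
  ⟨h.meas.mul h'.meas, fun w => by
    rw [norm_mul, om_add]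
    calc ‖G w‖ * ‖G' w‖ ≤ (b * om s w) * (b' * om t w) :=
          mul_le_mul (h.bd w) (h'.bd w) (norm_nonneg _)
            (mul_nonneg h.nonneg (om_pos s w).le)
      _ = b * b' * (om s w * om t w) := by ring⟩

theorem Ad.bmul {s b B : ℝ} {G u : E m → ℂ} (h : Ad s b G) (hu : Measurable u)
    (hB : ∀ w, ‖u w‖ ≤ B) : Ad s (B * b) (fun w => u w * G w) :=
  ⟨hu.mul h.meas, fun w => by
    rw [norm_mul, mul_assoc]
    exact mul_le_mul (hB w) (h.bd w) (norm_nonneg _) ((norm_nonneg _).trans (hB w))⟩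

theorem Ad.sum {ι : Type*} {s b : ℝ} (T : Finset ι) {G : ι → E m → ℂ}
    (h : ∀ i ∈ T, Ad s b (G i)) : Ad s (T.card * b) (fun w => ∑ i ∈ T, G i w) := by
  classical
  induction T using Finset.induction_on with
  | empty => exact ⟨by simp, fun w => by simp⟩
  | insert i T hi ih =>
    have h1 := (h i (Finset.mem_insert_self _ _)).add
      (ih fun j hj => h j (Finset.mem_insert_of_mem hj))
    simp only [Finset.sum_insert hi]
    refine h1.mono (le_of_eq ?_)
    rw [Finset.card_insert_of_notMem hi]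
    push_cast
    ring

theorem PiO_add {s b b' : ℝ} (hs : 0 < s) {G G' : E m → ℂ} (h : Ad s b G) (h' : Ad s b' G')
    (z : E m) : PiO s (fun w => G w + G' w) z = PiO s G z + PiO s G' z := by
  unfold PiO
  rw [← mul_add, ← integral_add (h.int hs z) (h'.int hs z)]
  simp only [mul_add]

theorem PiO_mul (s : ℝ) (c : ℂ) (G : E m → ℂ) (z : E m) :
    PiO s (fun w => c * G w) z = c * PiO s G z := by
  unfold PiO
  have : ∀ w, ker s z w * (c * G w) = c * (ker s z w * G w) := fun w => by ring
  simp_rw [this]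
  rw [integral_const_mul]
  ring

theorem PiO_sub {s b b' : ℝ} (hs : 0 < s) {G G' : E m → ℂ} (h : Ad s b G) (h' : Ad s b' G')
    (z : E m) : PiO s (fun w => G w - G' w) z = PiO s G z - PiO s G' z := by
  unfold PiO
  rw [← mul_sub, ← integral_sub (h.int hs z) (h'.int hs z)]
  simp only [mul_sub]

theorem PiO_sum {ι : Type*} {s b : ℝ} (hs : 0 < s) (T : Finset ι) {G : ι → E m → ℂ}
    (h : ∀ i ∈ T, Ad s b (G i)) (z : E m) :
    PiO s (fun w => ∑ i ∈ T, G i w) z = ∑ i ∈ T, PiO s (G i) z := by
  unfold PiO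
  rw [← Finset.mul_sum, ← integral_finsetSum T (fun i hi => (h i hi).int hs z)]
  simp only [Finset.mul_sum]

/-- **The bound** for the Fock projection. -/
theorem PiO_bound {s a b : ℝ} (hs : 0 < s) (hb : 0 ≤ b) {G : E m → ℂ} {z : E m}
    (h : ∀ w, ‖G w‖ ≤ (a + b * ‖w - z‖) * om s w) :
    ‖PiO s G z‖ ≤ om s z * (2 ^ m * a + 4 ^ m * b / Real.sqrt s) := by
  unfold PiO
  have hsq : 0 < Real.sqrt s := Real.sqrt_pos.2 hs
  have hss : Real.sqrt s ^ 2 = s := Real.sq_sqrt hs.le
  rw [norm_mul, Complex.norm_real, Real.norm_of_nonneg (by positivity)]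
  have h1 : ‖∫ w, ker s z w * G w‖ ≤ ∫ w, om s z * (a * Real.exp (-(s / 2) * ‖w - z‖ ^ 2) +
      b / Real.sqrt s * Real.exp (-(s / 4) * ‖w - z‖ ^ 2)) := by
    refine norm_integral_le_of_norm_le ?_ (Filter.Eventually.of_forall fun w => ?_)
    · exact (((gauss_shift_int (half_pos hs) z).const_mul a).add
        ((gauss_shift_int (show 0 < s / 4 by positivity) z).const_mul (b / Real.sqrt s))).const_mul
          (om s z)
    · rw [norm_mul]
      calc ‖ker s z w‖ * ‖G w‖ ≤ ‖ker s z w‖ * ((a + b * ‖w - z‖) * om s w) :=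
            mul_le_mul_of_nonneg_left (h w) (norm_nonneg _)
        _ = (a + b * ‖w - z‖) * (‖ker s z w‖ * om s w) := by ring
        _ = om s z * (a * Real.exp (-(s / 2) * ‖w - z‖ ^ 2) +
            b * (‖w - z‖ * Real.exp (-(s / 2) * ‖w - z‖ ^ 2))) := by rw [ker_om]; ring
        _ ≤ _ := by
            refine mul_le_mul_of_nonneg_left (add_le_add le_rfl ?_) (om_pos s z).le
            set t := ‖w - z‖ with ht
            have ht0 : 0 ≤ t := norm_nonneg _
            have h2 : Real.sqrt s * t ≤ Real.exp (s / 4 * t ^ 2) := by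
              have h3 := Real.add_one_le_exp (s / 4 * t ^ 2)
              nlinarith [sq_nonneg (Real.sqrt s * t / 2 - 1)]
            have h4 : Real.exp (-(s / 2) * t ^ 2) =
                Real.exp (-(s / 4) * t ^ 2) / Real.exp (s / 4 * t ^ 2) := by
              rw [← Real.exp_sub]; ring_nf
            have h5 := Real.exp_pos (s / 4 * t ^ 2)
            have h6 := Real.exp_pos (-(s / 4) * t ^ 2)
            rw [div_mul_eq_mul_div, mul_div_assoc]
            refine mul_le_mul_of_nonneg_left ?_ hb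
            rw [h4, le_div_iff₀ hsq, mul_div_assoc', div_mul_eq_mul_div, div_le_iff₀ h5]
            nlinarith
  have h2 : ∫ w, om s z * (a * Real.exp (-(s / 2) * ‖w - z‖ ^ 2) +
      b / Real.sqrt s * Real.exp (-(s / 4) * ‖w - z‖ ^ 2)) =
      om s z * (a * (π / (s / 2)) ^ m + b / Real.sqrt s * (π / (s / 4)) ^ m) := by
    rw [integral_const_mul, integral_add ((gauss_shift_int (half_pos hs) z).const_mul a)
      ((gauss_shift_int (show 0 < s / 4 by positivity) z).const_mul (b / Real.sqrt s)),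
      integral_const_mul, integral_const_mul, gauss_shift (half_pos hs),
      gauss_shift (show 0 < s / 4 by positivity)]
  rw [h2] at h1
  calc (s / π) ^ m * ‖∫ w, ker s z w * G w‖ ≤ (s / π) ^ m *
        (om s z * (a * (π / (s / 2)) ^ m + b / Real.sqrt s * (π / (s / 4)) ^ m)) :=
        mul_le_mul_of_nonneg_left h1 (by positivity)
    _ = om s z * (a * ((s / π) * (π / (s / 2))) ^ m +
        b / Real.sqrt s * ((s / π) * (π / (s / 4))) ^ m) := by
        rw [mul_pow, mul_pow]; ring
    _ = om s z * (2 ^ m * a + 4 ^ m * b / Real.sqrt s) := by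
        have e1 : (s / π) * (π / (s / 2)) = 2 := by field_simp
        have e2 : (s / π) * (π / (s / 4)) = 4 := by field_simp
        rw [e1, e2]
        ring

theorem PiO_Ad_bound {s b : ℝ} (hs : 0 < s) {G : E m → ℂ} (h : Ad s b G) (z : E m) :
    ‖PiO s G z‖ ≤ 2 ^ m * b * om s z := by
  have h1 := PiO_bound (a := b) (b := 0) (z := z) hs le_rfl (fun w => by
    rw [zero_mul, add_zero]; exact h.bd w)
  calc ‖PiO s G z‖ ≤ _ := h1
    _ = 2 ^ m * b * om s z := by ring

/-- **The reproducing property.** -/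
theorem PiO_repr {s b : ℝ} (hs : 0 < s) {R : E m → ℂ} (hR : Differentiable ℂ R)
    (h : Ad s b R) (z : E m) : PiO s R z = R z := by
  unfold PiO
  have h1 : ∫ w, ker s z w * R w = ∫ x, ker s z (z + x) * R (z + x) :=
    (integral_add_left_eq_self (fun w => ker s z w * R w) z).symm
  have h2 : ∀ x : E m, ker s z (z + x) * R (z + x) = (Real.exp (-s * ‖x‖ ^ 2) : ℂ) *
      (cexp (-(s * inner ℂ z x)) * R (z + x)) := by
    intro x
    unfold ker
    have h3 : (s : ℂ) * inner ℂ (z + x) z - s * (‖z + x‖ : ℂ) ^ 2 =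
        ((-s * ‖x‖ ^ 2 : ℝ) : ℂ) + -(s * inner ℂ z x) := by
      have h4 : ((‖z + x‖ : ℂ)) ^ 2 = inner ℂ (z + x) (z + x) :=
        (inner_self_eq_norm_sq_to_K (𝕜 := ℂ) (z + x)).symm
      have h5 : ((‖x‖ : ℂ)) ^ 2 = inner ℂ x x :=
        (inner_self_eq_norm_sq_to_K (𝕜 := ℂ) x).symm
      push_cast
      rw [h4, h5, inner_add_left, inner_add_left, inner_add_right, inner_add_right]
      ring
    rw [h3, Complex.exp_add, ← Complex.ofReal_exp]
    ring
  have hd : Differentiable ℂ (fun x : E m => cexp (-(s * inner ℂ z x)) * R (z + x)) := by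
    have h3 : Differentiable ℂ (fun x : E m => inner ℂ z x) := (innerSL ℂ z).differentiable
    have h4 : Differentiable ℂ (fun x : E m => R (z + x)) :=
      hR.comp (differentiable_id.const_add z)
    exact ((h3.const_mul (s : ℂ)).neg.cexp).mul h4
  have hi : Integrable (fun x : E m => (Real.exp (-s * ‖x‖ ^ 2) : ℂ) *
      (cexp (-(s * inner ℂ z x)) * R (z + x))) := by
    have h3 := (h.int hs z).comp_add_left z
    refine h3.congr (Filter.Eventually.of_forall fun x => ?_)
    exact h2 x
  rw [h1]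
  simp_rw [h2]
  rw [mean hd hi]
  have h6 : ∫ x : E m, (Real.exp (-s * ‖x‖ ^ 2) : ℂ) = (((π / s) ^ m : ℝ) : ℂ) := by
    rw [integral_complex_ofReal, gauss hs]
  rw [h6]
  simp only [inner_zero_right, mul_zero, neg_zero, Complex.exp_zero, one_mul, add_zero]
  rw [← mul_assoc, ← Complex.ofReal_mul, ← mul_pow]
  have e1 : (s / π) * (π / s) = 1 := by field_simp
  rw [e1, one_pow, Complex.ofReal_one, one_mul]

/-- `PiO s G` is entire. -/
theorem PiO_diff {s b : ℝ} (hs : 0 < s) {G : E m → ℂ} (h : Ad s b G) :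
    Differentiable ℂ (PiO s G) := by
  intro z0
  have hb := h.nonneg
  set F' : E m → E m → E m →L[ℂ] ℂ := fun z w => ((s : ℂ) * (ker s z w * G w)) • innerSL ℂ w
    with hF'
  set C0 : ℝ := s * (Real.exp (s * ((‖z0‖ + 1) ^ 2) / 2) * b) with hC0
  have key : HasFDerivAt (fun z => ∫ w, ker s z w * G w) (∫ w, F' z0 w) z0 := by
    refine hasFDerivAt_integral_of_dominated_of_fderiv_le (s := Metric.ball z0 1)
      (bound := fun w => C0 * Real.exp (s / 2) * ((1 + ‖z0‖) *
        Real.exp (-(s / 4) * ‖w - z0‖ ^ 2) + (8 / s + 1) * Real.exp (-(s / 8) * ‖w - z0‖ ^ 2)))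
      (Metric.ball_mem_nhds z0 one_pos) (Filter.Eventually.of_forall fun z => ?_) (h.int hs z0)
      ?_ (Filter.Eventually.of_forall fun w z hz => ?_) ?_
      (Filter.Eventually.of_forall fun w z _ => ?_)
    · exact ((ker_cont s z).measurable.mul h.meas).aestronglyMeasurable
    · rw [hF']
      have h1 : Continuous (fun w : E m => innerSL ℂ w) := (innerSL ℂ).continuous
      exact ((((ker_cont s z0).measurable.mul h.meas).const_mul (s : ℂ)).aestronglyMeasurable).smul
        h1.aestronglyMeasurable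
    · rw [hF']
      simp only
      rw [norm_smul, innerSL_apply_norm, norm_mul, norm_mul, Complex.norm_real,
        Real.norm_of_nonneg hs.le]
      set t := ‖w - z0‖ with ht
      have ht0 : 0 ≤ t := norm_nonneg _
      have hz1 : ‖z - z0‖ < 1 := by rwa [← dist_eq_norm]
      have hw : ‖w‖ ≤ t + ‖z0‖ := by
        have := norm_add_le (w - z0) z0
        rwa [sub_add_cancel] at this
      have hzn : ‖z‖ ≤ ‖z0‖ + 1 := by
        have := norm_add_le (z - z0) z0
        rw [sub_add_cancel] at this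
        linarith
      have hwz : t ≤ ‖w - z‖ + 1 := by
        have : w - z0 = (w - z) + (z - z0) := by abel
        rw [ht, this]
        refine (norm_add_le _ _).trans ?_
        linarith
      have h2 : t ^ 2 / 2 - 1 ≤ ‖w - z‖ ^ 2 := by
        nlinarith [norm_nonneg (w - z), sq_nonneg (‖w - z‖ - 1)]
      have h3 : ‖ker s z w‖ * ‖G w‖ ≤ Real.exp (s * ((‖z0‖ + 1) ^ 2) / 2) * b *
          (Real.exp (s / 2) * Real.exp (-(s / 4) * t ^ 2)) := by
        calc ‖ker s z w‖ * ‖G w‖ ≤ ‖ker s z w‖ * (b * om s w) :=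
              mul_le_mul_of_nonneg_left (h.bd w) (norm_nonneg _)
          _ = b * (‖ker s z w‖ * om s w) := by ring
          _ = om s z * b * Real.exp (-(s / 2) * ‖w - z‖ ^ 2) := by rw [ker_om]; ring
          _ ≤ _ := by
              refine mul_le_mul (mul_le_mul_of_nonneg_right ?_ hb) ?_ (Real.exp_pos _).le
                (by positivity)
              · unfold om
                apply Real.exp_le_exp.2
                have : ‖z‖ ^ 2 ≤ (‖z0‖ + 1) ^ 2 := pow_le_pow_left₀ (norm_nonneg _) hzn 2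
                nlinarith
              · rw [← Real.exp_add]
                apply Real.exp_le_exp.2
                nlinarith
      have h4 : t * Real.exp (-(s / 4) * t ^ 2) ≤ (8 / s + 1) * Real.exp (-(s / 8) * t ^ 2) := by
        have e1 : Real.exp (-(s / 4) * t ^ 2) =
            Real.exp (-(s / 8) * t ^ 2) / Real.exp (s / 8 * t ^ 2) := by
          rw [← Real.exp_sub]; ring_nf
        rw [e1, mul_div_assoc', div_le_iff₀ (Real.exp_pos _)]
        have h5 := Real.add_one_le_exp (s / 8 * t ^ 2)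
        have h6 : t ≤ (8 / s + 1) * Real.exp (s / 8 * t ^ 2) := by
          have h7 : t ≤ 1 + t ^ 2 := by nlinarith [sq_nonneg (t - 1)]
          have h8 : (8 / s + 1) * (s / 8 * t ^ 2 + 1) = t ^ 2 + 8 / s + s / 8 * t ^ 2 + 1 := by
            field_simp
            ring
          have h9 : 0 ≤ 8 / s := by positivity
          have h10 : 0 ≤ s / 8 * t ^ 2 := by positivity
          nlinarith
        have := Real.exp_pos (-(s / 8) * t ^ 2)
        nlinarith
      calc s * (‖ker s z w‖ * ‖G w‖) * ‖w‖ ≤ s * (Real.exp (s * ((‖z0‖ + 1) ^ 2) / 2) * b *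
          (Real.exp (s / 2) * Real.exp (-(s / 4) * t ^ 2))) * (t + ‖z0‖) := by
            refine mul_le_mul (mul_le_mul_of_nonneg_left h3 hs.le) hw (norm_nonneg _) (by positivity)
        _ = C0 * Real.exp (s / 2) * (‖z0‖ * Real.exp (-(s / 4) * t ^ 2) +
            t * Real.exp (-(s / 4) * t ^ 2)) := by rw [hC0]; ring
        _ ≤ _ := by
            refine mul_le_mul_of_nonneg_left (add_le_add ?_ h4) (by positivity)
            exact mul_le_mul_of_nonneg_right (by linarith) (Real.exp_pos _).le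
    · exact (((gauss_shift_int (show 0 < s / 4 by positivity) z0).const_mul (1 + ‖z0‖)).add
        ((gauss_shift_int (show 0 < s / 8 by positivity) z0).const_mul (8 / s + 1))).const_mul
          (C0 * Real.exp (s / 2))
    · rw [hF']
      simp only
      have h1 : HasFDerivAt (fun z : E m => (inner ℂ w z : ℂ)) (innerSL ℂ w) z :=
        (innerSL ℂ w).hasFDerivAt
      have h2 : HasFDerivAt (fun z : E m => (s : ℂ) * inner ℂ w z - s * (‖w‖ : ℂ) ^ 2)
          ((s : ℂ) • innerSL ℂ w) z := (h1.const_mul (s : ℂ)).sub_const _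
      have h3 : HasFDerivAt (fun z : E m => ker s z w) (ker s z w • ((s : ℂ) • innerSL ℂ w)) z :=
        h2.cexp
      have h4 := h3.mul_const (G w)
      refine h4.congr_fderiv ?_
      ext v
      simp only [smul_apply, smul_eq_mul]
      ring
  exact (key.const_mul _).differentiableAt

end Pool.Agent.K9h23.Hom
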