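import Mathlib
import Pool.Agent.K9h23.Hom.Fock

/-!
One stage of the construction: solving the corona problem for `F + P` with `F` slow and `P` fast.
-/

set_option autoImplicit false

open MeasureTheory Set Complex
open scoped Real

namespace Pool.Agent.K9h23.Hom

variable {m N : ℕ}

/-- the data of one stage -/
structure Stg (A B q Λ L lam : ℝ) (F Fh P ψ e eh : E m → Fin N → ℂ) : Prop where
  hL : 1 ≤ L
  hlam : 0 ≤ lam
  Pd : ∀ j, Differentiable ℂ (fun z => P z j)
  Pb : ∀ z j, ‖P z j‖ ≤ A * om L z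
  Fb : ∀ z j, ‖z‖ ≤ 1 → ‖F z j‖ ≤ A
  ψm : ∀ j, Measurable (fun w => ψ w j)
  ψb : ∀ w j, ‖ψ w j‖ ≤ B
  em : ∀ j, Measurable (fun w => eh w j)
  eb : ∀ w j, ‖eh w j‖ ≤ B
  eB : ∀ z j, ‖z‖ ≤ 1 → ‖e z j‖ ≤ B
  Fm : ∀ j, Measurable (fun w => Fh w j)
  Fhb : ∀ w j, ‖Fh w j‖ ≤ A
  Fψ : ∀ w, ∑ j, Fh w j * ψ w j = 1
  Fe : ∀ z, ‖z‖ ≤ 1 → ∑ j, F z j * e z j = 1
  Pψ : ∀ z, ‖∑ j, P z j * ψ z j‖ ≤ q * om L z
  PL : ∀ z w j, ‖P z j‖ * ‖ψ w j - ψ z j‖ ≤ Λ * Real.sqrt L * ‖w - z‖ * om L z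
  FL : ∀ z w j, ‖z‖ ≤ 1 → ‖F z j - Fh w j‖ ≤ lam * (2 * ‖w - z‖ + (1 - ‖z‖))
  eL : ∀ z w j, ‖z‖ ≤ 1 → ‖eh w j - e z j‖ ≤ Λ * lam * (2 * ‖w - z‖ + (1 - ‖z‖))

theorem om_le_one {s : ℝ} (hs : 0 ≤ s) {z : E m} (hz : ‖z‖ ≤ 1) : om s z ≤ 1 := by
  unfold om
  apply Real.exp_le_one_iff.2
  have : ‖z‖ ^ 2 ≤ 1 := pow_le_one₀ (norm_nonneg _) hz
  nlinarith

theorem om_dist {s : ℝ} (hs : 1 ≤ s) {z : E m} (hz : ‖z‖ ≤ 1) :
    om s z * (1 - ‖z‖) ≤ 1 / Real.sqrt s := by
  have hs0 : 0 < s := by linarith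
  set x := 1 - ‖z‖ with hx
  have hx0 : 0 ≤ x := by rw [hx]; linarith
  have h1 : om s z ≤ Real.exp (-(s * x / 2)) := by
    unfold om
    apply Real.exp_le_exp.2
    have hn := norm_nonneg z
    have : ‖z‖ ^ 2 - 1 ≤ -x := by rw [hx]; nlinarith
    nlinarith
  have h2 : s * x / 2 * Real.exp (-(s * x / 2)) ≤ 1 / 2 := by
    set y := s * x / 2 with hy
    have hy0 : 0 ≤ y := by positivity
    rw [Real.exp_neg, ← div_eq_mul_inv, div_le_iff₀ (Real.exp_pos _)]
    have h3 := Real.quadratic_le_exp_of_nonneg hy0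
    nlinarith [sq_nonneg (y - 1)]
  have h3 : om s z * x ≤ 1 / s := by
    rw [le_div_iff₀ hs0]
    have h4 : om s z * x ≤ Real.exp (-(s * x / 2)) * x := mul_le_mul_of_nonneg_right h1 hx0
    nlinarith
  refine h3.trans ?_
  apply one_div_le_one_div_of_le (Real.sqrt_pos.2 hs0)
  rw [Real.sqrt_le_left (by linarith)]
  nlinarith

/-- the bound of the Fock projection on the closed ball -/
theorem PiO_ball {s c b : ℝ} (hs : 1 ≤ s) (hc : 0 ≤ c) (hb : 0 ≤ b) {G : E m → ℂ} {z : E m}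
    (hz : ‖z‖ ≤ 1) (h : ∀ w, ‖G w‖ ≤ c * (2 * ‖w - z‖ + (1 - ‖z‖)) * (b * om s w)) :
    ‖PiO s G z‖ ≤ 3 * 4 ^ m * c * b / Real.sqrt s := by
  have hs0 : 0 < s := by linarith
  have hsq : 0 < Real.sqrt s := Real.sqrt_pos.2 hs0
  have h1 := PiO_bound (a := c * b * (1 - ‖z‖)) (b := 2 * (c * b)) (z := z) (G := G) hs0
    (by positivity) (fun w => (h w).trans (le_of_eq (by ring)))
  refine h1.trans ?_
  have h2 := om_dist hs hz
  have h3 : om s z ≤ 1 := om_le_one hs0.le hz
  have h4 : (2:ℝ) ^ m ≤ 4 ^ m := pow_le_pow_left₀ (by norm_num) (by norm_num) m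
  have hcb : 0 ≤ c * b := mul_nonneg hc hb
  calc om s z * (2 ^ m * (c * b * (1 - ‖z‖)) + 4 ^ m * (2 * (c * b)) / Real.sqrt s)
      = 2 ^ m * (c * b) * (om s z * (1 - ‖z‖)) +
        om s z * (4 ^ m * (2 * (c * b)) / Real.sqrt s) := by ring
    _ ≤ 4 ^ m * (c * b) * (1 / Real.sqrt s) + 1 * (4 ^ m * (2 * (c * b)) / Real.sqrt s) := by
        refine add_le_add ?_ (mul_le_mul_of_nonneg_right h3 (by positivity))
        refine mul_le_mul (mul_le_mul_of_nonneg_right h4 hcb) h2 ?_ (by positivity)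
        exact mul_nonneg (om_pos s z).le (by linarith)
    _ = 3 * 4 ^ m * c * b / Real.sqrt s := by ring

variable {A B q Λ L lam : ℝ} {F Fh P ψ e eh : E m → Fin N → ℂ}

/-- one step of the recursion -/
theorem Stg.cstep (S : Stg A B q Λ L lam F Fh P ψ e eh) (hB : 0 ≤ B) (hΛ : 0 ≤ Λ) {k b : ℝ}
    (hk : 1 ≤ k) {R : E m → ℂ} (hR : Differentiable ℂ R) (hAd : Ad (k * L) b R) :
    ∃ W : Fin N → E m → ℂ, (∀ j, Differentiable ℂ (W j)) ∧
      (∀ j z, ‖z‖ ≤ 1 → ‖W j z‖ ≤ 2 ^ m * B * b) ∧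
      Ad ((k + 1) * L) ((q + N * 4 ^ m * Λ / Real.sqrt k) * b) (fun z => -∑ j, P z j * W j z) ∧
      ∀ z, ‖z‖ ≤ 1 → ‖∑ j, F z j * W j z - R z‖ ≤
        3 * 4 ^ m * (N * lam * B) * b / Real.sqrt (k * L) := by
  have hL := S.hL
  have hL0 : 0 < L := by linarith
  have hk0 : 0 < k := by linarith
  have hs : 1 ≤ k * L := by nlinarith
  have hs0 : 0 < k * L := by linarith
  have hb := hAd.nonneg
  set s := k * L with hsdef
  have hG : ∀ j, Ad s (B * b) (fun w => ψ w j * R w) := fun j => hAd.bmul (S.ψm j) fun w => S.ψb w j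
  set W : Fin N → E m → ℂ := fun j => PiO s (fun w => ψ w j * R w) with hW
  have hWd : ∀ j, Differentiable ℂ (W j) := fun j => PiO_diff hs0 (hG j)
  have hWb : ∀ j z, ‖W j z‖ ≤ 2 ^ m * (B * b) * om s z := fun j z => PiO_Ad_bound hs0 (hG j) z
  refine ⟨W, hWd, fun j z hz => ?_, ⟨?_, fun z => ?_⟩, fun z hz => ?_⟩
  · refine (hWb j z).trans ?_
    have h1 := om_le_one hs0.le hz
    calc 2 ^ m * (B * b) * om s z ≤ 2 ^ m * (B * b) * 1 :=
          mul_le_mul_of_nonneg_left h1 (by positivity)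
      _ = 2 ^ m * B * b := by ring
  · have h1 : Continuous (fun z => -∑ j, P z j * W j z) := by
      refine (continuous_finsetSum _ fun j _ => ?_).neg
      exact (S.Pd j).continuous.mul (hWd j).continuous
    exact h1.measurable
  · -- the contraction
    have h1 : ∀ j, P z j * W j z = P z j * ψ z j * R z +
        PiO s (fun w => P z j * ((ψ w j - ψ z j) * R w)) z := by
      intro j
      have h2 : (fun w => P z j * ((ψ w j - ψ z j) * R w)) =
          fun w => P z j * (ψ w j * R w - ψ z j * R w) := by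
        funext w; ring
      have h3 : Ad s (‖ψ z j‖ * b) (fun w => ψ z j * R w) :=
        hAd.bmul measurable_const fun _ => le_rfl
      rw [h2, PiO_mul, PiO_sub hs0 (hG j) h3, PiO_mul, PiO_repr hs0 hR hAd]
      rw [hW]
      ring
    have h2 : ∀ j, ‖PiO s (fun w => P z j * ((ψ w j - ψ z j) * R w)) z‖ ≤
        4 ^ m * Λ / Real.sqrt k * b * om (s + L) z := by
      intro j
      have h3 := PiO_bound (s := s) (a := 0) (b := Λ * Real.sqrt L * om L z * b) (z := z)
        (G := fun w => P z j * ((ψ w j - ψ z j) * R w)) hs0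
        (mul_nonneg (mul_nonneg (mul_nonneg hΛ (Real.sqrt_nonneg _)) (om_pos L z).le) hb)
        (fun w => by
          rw [norm_mul, norm_mul]
          calc ‖P z j‖ * (‖ψ w j - ψ z j‖ * ‖R w‖) = ‖P z j‖ * ‖ψ w j - ψ z j‖ * ‖R w‖ := by ring
            _ ≤ (Λ * Real.sqrt L * ‖w - z‖ * om L z) * (b * om s w) :=
                mul_le_mul (S.PL z w j) (hAd.bd w) (norm_nonneg _)
                  (mul_nonneg (mul_nonneg (mul_nonneg hΛ (Real.sqrt_nonneg _)) (norm_nonneg _))
                    (om_pos L z).le)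
            _ = _ := by ring)
      refine h3.trans (le_of_eq ?_)
      have h4 : Real.sqrt s = Real.sqrt k * Real.sqrt L := by
        rw [hsdef, Real.sqrt_mul hk0.le]
      have h5 : 0 < Real.sqrt L := Real.sqrt_pos.2 hL0
      have h6 : 0 < Real.sqrt k := Real.sqrt_pos.2 hk0
      rw [h4, om_add]
      field_simp
      ring
    rw [norm_neg]
    have h3 : ∑ j, P z j * W j z = (∑ j, P z j * ψ z j) * R z +
        ∑ j, PiO s (fun w => P z j * ((ψ w j - ψ z j) * R w)) z := by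
      rw [Finset.sum_mul, ← Finset.sum_add_distrib]
      exact Finset.sum_congr rfl fun j _ => h1 j
    rw [h3]
    have h4 : ‖∑ j, PiO s (fun w => P z j * ((ψ w j - ψ z j) * R w)) z‖ ≤
        N * (4 ^ m * Λ / Real.sqrt k * b * om (s + L) z) := by
      refine (norm_sum_le _ _).trans ?_
      refine (Finset.sum_le_card_nsmul _ _ _ fun j _ => h2 j).trans (le_of_eq ?_)
      rw [nsmul_eq_mul, Finset.card_univ, Fintype.card_fin]
    have h5 : ‖(∑ j, P z j * ψ z j) * R z‖ ≤ q * b * om (s + L) z := by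
      rw [norm_mul, om_add]
      calc ‖∑ j, P z j * ψ z j‖ * ‖R z‖ ≤ (q * om L z) * (b * om s z) :=
            mul_le_mul (S.Pψ z) (hAd.bd z) (norm_nonneg _) ((norm_nonneg _).trans (S.Pψ z))
        _ = q * b * (om s z * om L z) := by ring
    have h6 : (k + 1) * L = s + L := by rw [hsdef]; ring
    rw [h6]
    refine (norm_add_le _ _).trans ((add_le_add h5 h4).trans (le_of_eq ?_))
    ring
  · -- the error
    have h1 : ∑ j, F z j * W j z - R z =
        PiO s (fun w => ∑ j, (F z j - Fh w j) * (ψ w j * R w)) z := by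
      have h2 : ∀ j, Ad s (A * (B * b)) (fun w => F z j * (ψ w j * R w)) := fun j =>
        (hG j).bmul measurable_const fun _ => S.Fb z j hz
      have h3 : ∀ j, Ad s (A * (B * b)) (fun w => Fh w j * (ψ w j * R w)) := fun j =>
        (hG j).bmul (S.Fm j) fun w => S.Fhb w j
      have h4 : (fun w => ∑ j, (F z j - Fh w j) * (ψ w j * R w)) =
          fun w => (∑ j, F z j * (ψ w j * R w)) - ∑ j, Fh w j * (ψ w j * R w) := by
        funext w
        rw [← Finset.sum_sub_distrib]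
        exact Finset.sum_congr rfl fun j _ => by ring
      rw [h4, PiO_sub hs0 (Ad.sum Finset.univ fun j _ => h2 j)
        (Ad.sum Finset.univ fun j _ => h3 j), PiO_sum hs0 Finset.univ fun j _ => h2 j]
      have h5 : (fun w => ∑ j, Fh w j * (ψ w j * R w)) = R := by
        funext w
        have : ∑ j, Fh w j * (ψ w j * R w) = (∑ j, Fh w j * ψ w j) * R w := by
          rw [Finset.sum_mul]
          exact Finset.sum_congr rfl fun j _ => by ring
        rw [this, S.Fψ w, one_mul]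
      rw [h5, PiO_repr hs0 hR hAd]
      congr 1
      refine Finset.sum_congr rfl fun j _ => ?_
      rw [PiO_mul]
    rw [h1]
    have hNlB : 0 ≤ (N:ℝ) * lam * B := mul_nonneg (mul_nonneg (Nat.cast_nonneg _) S.hlam) hB
    refine PiO_ball hs hNlB hb hz fun w => ?_
    refine (norm_sum_le _ _).trans ?_
    have h2 : ∀ j ∈ Finset.univ, ‖(F z j - Fh w j) * (ψ w j * R w)‖ ≤
        lam * (2 * ‖w - z‖ + (1 - ‖z‖)) * (B * (b * om s w)) := by
      intro j _
      rw [norm_mul, norm_mul]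
      have h3 := S.FL z w j hz
      exact mul_le_mul h3 (mul_le_mul (S.ψb w j) (hAd.bd w) (norm_nonneg _) hB)
        (mul_nonneg (norm_nonneg _) (norm_nonneg _)) ((norm_nonneg _).trans h3)
    refine (Finset.sum_le_card_nsmul _ _ _ h2).trans (le_of_eq ?_)
    rw [nsmul_eq_mul, Finset.card_univ, Fintype.card_fin]
    ring

/-- the iterated step -/
theorem Stg.iter (S : Stg A B q Λ L lam F Fh P ψ e eh) (hB : 0 ≤ B) (hΛ : 0 ≤ Λ) (hq : 0 ≤ q)
    {q1 : ℝ} {K : ℕ} (hK : 1 ≤ K)
    (hKq : q + N * 4 ^ m * Λ / Real.sqrt K ≤ q1) {b : ℝ} {R0 : E m → ℂ}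
    (hR : Differentiable ℂ R0) (hAd : Ad (K * L) b R0) (J : ℕ) :
    ∃ (V : Fin N → E m → ℂ) (R : E m → ℂ), (∀ j, Differentiable ℂ (V j)) ∧ Differentiable ℂ R ∧
      Ad (((K + J : ℕ) : ℝ) * L) (q1 ^ J * b) R ∧
      (∀ j z, ‖z‖ ≤ 1 → ‖V j z‖ ≤ 2 ^ m * B * b * ∑ i ∈ Finset.range J, q1 ^ i) ∧
      ∀ z, ‖z‖ ≤ 1 → ‖∑ j, (F z j + P z j) * V j z - (R0 z - R z)‖ ≤
        3 * 4 ^ m * (N * lam * B) * b / Real.sqrt L * ∑ i ∈ Finset.range J, q1 ^ i := by
  have hL := S.hL
  have hL0 : 0 < L := by linarith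
  have hb := hAd.nonneg
  have hq10 : 0 ≤ q1 := by
    have : 0 ≤ N * 4 ^ m * Λ / Real.sqrt K := by positivity
    linarith
  induction J with
  | zero =>
    refine ⟨fun _ _ => 0, R0, fun _ => differentiable_const _, hR, ?_, fun j z _ => ?_,
      fun z _ => ?_⟩
    · simpa using hAd
    · simp
    · simp
  | succ J ih =>
    obtain ⟨V, R, hV, hRd, hRA, hVb, hVe⟩ := ih
    have hk1 : (1:ℝ) ≤ ((K + J : ℕ) : ℝ) := by exact_mod_cast (by omega : 1 ≤ K + J)
    obtain ⟨W, hWd, hWb, hWA, hWe⟩ := S.cstep hB hΛ hk1 hRd hRA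
    have hqJ : 0 ≤ q1 ^ J * b := mul_nonneg (pow_nonneg hq10 J) hb
    refine ⟨fun j z => V j z + W j z, fun z => -∑ j, P z j * W j z, fun j => (hV j).add (hWd j),
      ?_, ?_, fun j z hz => ?_, fun z hz => ?_⟩
    · refine (Differentiable.fun_sum fun j _ => ?_).neg
      exact (S.Pd j).mul (hWd j)
    · have h1 : ((K + (J + 1) : ℕ) : ℝ) = ((K + J : ℕ) : ℝ) + 1 := by push_cast; ring
      rw [h1]
      refine hWA.mono ?_
      have h2 : q + N * 4 ^ m * Λ / Real.sqrt ((K + J : ℕ) : ℝ) ≤ q1 := by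
        refine le_trans ?_ hKq
        refine add_le_add le_rfl ?_
        have hK0 : (0:ℝ) < K := by exact_mod_cast hK
        refine div_le_div_of_nonneg_left (by positivity) (Real.sqrt_pos.2 hK0) ?_
        apply Real.sqrt_le_sqrt
        push_cast
        have : (0:ℝ) ≤ J := Nat.cast_nonneg _
        linarith
      calc (q + N * 4 ^ m * Λ / Real.sqrt ((K + J : ℕ) : ℝ)) * (q1 ^ J * b) ≤
            q1 * (q1 ^ J * b) := mul_le_mul_of_nonneg_right h2 hqJ
        _ = q1 ^ (J + 1) * b := by ring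
    · refine (norm_add_le _ _).trans ((add_le_add (hVb j z hz) (hWb j z hz)).trans
        (le_of_eq ?_))
      rw [Finset.sum_range_succ]
      ring
    · have e1 : ∑ j, (F z j + P z j) * (V j z + W j z) - (R0 z - -∑ j, P z j * W j z) =
          (∑ j, (F z j + P z j) * V j z - (R0 z - R z)) + (∑ j, F z j * W j z - R z) := by
        have : ∑ j, (F z j + P z j) * (V j z + W j z) = ∑ j, (F z j + P z j) * V j z +
            (∑ j, F z j * W j z + ∑ j, P z j * W j z) := by
          rw [← Finset.sum_add_distrib, ← Finset.sum_add_distrib]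
          exact Finset.sum_congr rfl fun j _ => by ring
        rw [this]
        ring
      rw [e1]
      refine (norm_add_le _ _).trans ?_
      rw [Finset.sum_range_succ, mul_add]
      refine add_le_add (hVe z hz) ((hWe z hz).trans ?_)
      have hsq : 0 < Real.sqrt L := Real.sqrt_pos.2 hL0
      have h3 : Real.sqrt L ≤ Real.sqrt (((K + J : ℕ) : ℝ) * L) := by
        apply Real.sqrt_le_sqrt
        nlinarith
      have h4 : 0 ≤ 3 * 4 ^ m * (N * lam * B) := by
        have := S.hlam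
        positivity
      calc 3 * 4 ^ m * (N * lam * B) * (q1 ^ J * b) / Real.sqrt (((K + J : ℕ) : ℝ) * L) ≤
            3 * 4 ^ m * (N * lam * B) * (q1 ^ J * b) / Real.sqrt L :=
            div_le_div_of_nonneg_left (mul_nonneg h4 hqJ) hsq h3
        _ = 3 * 4 ^ m * (N * lam * B) * b / Real.sqrt L * q1 ^ J := by ring

theorem geom_le {q : ℝ} (h0 : 0 ≤ q) (h1 : q < 1) (J : ℕ) :
    ∑ i ∈ Finset.range J, q ^ i ≤ 1 / (1 - q) := by
  rw [one_div, ← tsum_geometric_of_lt_one h0 h1]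
  exact (summable_geometric_of_lt_one h0 h1).sum_le_tsum _ fun i _ => pow_nonneg h0 i

theorem pow_sum_le {S : ℝ} (hS : 1 ≤ S) (K : ℕ) :
    ∑ k ∈ Finset.range K, S ^ k ≤ K * S ^ K := by
  have : ∀ k ∈ Finset.range K, S ^ k ≤ S ^ K := fun k hk =>
    pow_le_pow_right₀ hS (Finset.mem_range.1 hk).le
  refine (Finset.sum_le_card_nsmul _ _ _ this).trans (le_of_eq ?_)
  rw [nsmul_eq_mul, Finset.card_range]

/-- **One stage.** -/
theorem stage (m N : ℕ) {A B q Λ : ℝ} (hA : 1 ≤ A) (hB : 1 ≤ B) (hΛ : 0 ≤ Λ) (hq : 0 ≤ q)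
    (hq1 : q < 1) : ∃ C : ℝ, 1 ≤ C ∧ ∀ (L lam : ℝ) (F Fh P ψ e eh : E m → Fin N → ℂ),
    Stg A B q Λ L lam F Fh P ψ e eh → ∀ ε : ℝ, 0 < ε →
    ∃ M : Fin N → Fin N → E m → ℂ, (∀ i j, Differentiable ℂ (M i j)) ∧
      ∀ z, ‖z‖ ≤ 1 → ∀ i, (∀ j, ‖M i j z‖ ≤ C * (‖P z i‖ + lam / Real.sqrt L)) ∧
        ‖∑ j, M i j z * (F z j + P z j) - P z i‖ ≤ C * (lam / Real.sqrt L) + ε := by
  classical
  set q1 : ℝ := (1 + q) / 2 with hq1def
  have hq1' : q1 < 1 := by rw [hq1def]; linarith
  have hq10 : 0 ≤ q1 := by rw [hq1def]; linarith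
  -- the threshold
  obtain ⟨K, hK, hKq⟩ : ∃ K : ℕ, 1 ≤ K ∧ q + N * 4 ^ m * Λ / Real.sqrt K ≤ q1 := by
    set T : ℝ := N * 4 ^ m * Λ / ((1 - q) / 2) with hT
    have hT0 : 0 ≤ T := by
      have : 0 < (1 - q) / 2 := by linarith
      positivity
    obtain ⟨K, hK⟩ := exists_nat_ge (T ^ 2)
    refine ⟨K + 1, by omega, ?_⟩
    have h1 : T ≤ Real.sqrt ((K + 1 : ℕ) : ℝ) := by
      apply Real.le_sqrt_of_sq_le
      push_cast
      linarith
    have hs0 : 0 < Real.sqrt ((K + 1 : ℕ) : ℝ) := Real.sqrt_pos.2 (by positivity)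
    have h2 : N * 4 ^ m * Λ / Real.sqrt ((K + 1 : ℕ) : ℝ) ≤ (1 - q) / 2 := by
      rw [div_le_iff₀ hs0]
      have h3 : 0 < (1 - q) / 2 := by linarith
      have h4 : N * 4 ^ m * Λ = T * ((1 - q) / 2) := by
        rw [hT, div_mul_cancel₀ _ h3.ne']
      rw [h4]
      nlinarith
    rw [hq1def]
    linarith
  set S0 : ℝ := N * 2 ^ m * A * B + 1 with hS0
  have hS01 : 1 ≤ S0 := by
    have : 0 ≤ N * 2 ^ m * A * B := by positivity
    linarith
  set b : ℝ := S0 ^ K with hb
  have hb1 : 1 ≤ b := one_le_pow₀ hS01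
  set G0 : ℝ := K * S0 ^ K with hG0
  have hG00 : 0 ≤ G0 := by positivity
  set V0 : ℝ := 2 ^ m * B * b * (1 / (1 - q1)) with hV0
  have hV00 : 0 ≤ V0 := by
    have : 0 < 1 - q1 := by linarith
    positivity
  set c1 : ℝ := 3 * 4 ^ m * Λ * A with hc1
  have hc10 : 0 ≤ c1 := by positivity
  set c2 : ℝ := 3 * 4 ^ m * (N * B) * b * (1 / (1 - q1)) with hc2
  have hc20 : 0 ≤ c2 := by
    have : 0 < 1 - q1 := by linarith
    positivity
  set C : ℝ := 1 + (B * G0 + V0) + c1 * G0 + (3 * N * A * c1) * G0 + A * c2 with hC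
  have hC1 : 1 ≤ C := by
    rw [hC]
    have h1 : 0 ≤ B * G0 := by positivity
    have h2 : 0 ≤ c1 * G0 := by positivity
    have h3 : 0 ≤ (3 * N * A * c1) * G0 := by positivity
    have h4 : 0 ≤ A * c2 := by positivity
    linarith
  refine ⟨C, hC1, fun L lam F Fh P ψ e eh S ε hε => ?_⟩
  have hL := S.hL
  have hL0 : 0 < L := by linarith
  have hlam := S.hlam
  have hsq : 0 < Real.sqrt L := Real.sqrt_pos.2 hL0
  set η : ℝ := lam / Real.sqrt L with hη
  have hη0 : 0 ≤ η := by positivity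
  -- the holomorphic approximations of `e_j P_i`
  have hPA : ∀ i, Ad L A (fun w => P w i) := fun i =>
    ⟨(S.Pd i).continuous.measurable, fun w => S.Pb w i⟩
  have hAA : ∀ i j, Ad L (B * A) (fun w => eh w j * P w i) := fun i j =>
    (hPA i).bmul (S.em j) fun w => S.eb w j
  set A' : Fin N → Fin N → E m → ℂ := fun i j => PiO L (fun w => eh w j * P w i) with hA'
  have hA'd : ∀ i j, Differentiable ℂ (A' i j) := fun i j => PiO_diff hL0 (hAA i j)
  have hA'b : ∀ i j z, ‖A' i j z‖ ≤ 2 ^ m * (B * A) * om L z := fun i j z =>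
    PiO_Ad_bound hL0 (hAA i j) z
  have hA'e : ∀ i j z, ‖z‖ ≤ 1 → ‖A' i j z - e z j * P z i‖ ≤ c1 * η := by
    intro i j z hz
    have h1 : A' i j z - e z j * P z i = PiO L (fun w => (eh w j - e z j) * P w i) z := by
      have h2 : (fun w => (eh w j - e z j) * P w i) = fun w => eh w j * P w i - e z j * P w i := by
        funext w; ring
      have h3 : Ad L (‖e z j‖ * A) (fun w => e z j * P w i) :=
        (hPA i).bmul measurable_const fun _ => le_rfl
      rw [h2, PiO_sub hL0 (hAA i j) h3, PiO_mul, PiO_repr hL0 (S.Pd i) (hPA i)]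
    rw [h1]
    refine (PiO_ball (c := Λ * lam) (b := A) hL (mul_nonneg hΛ hlam) (by linarith) hz
      fun w => ?_).trans (le_of_eq ?_)
    · rw [norm_mul]
      have h3 := S.eL z w j hz
      exact mul_le_mul h3 (S.Pb w i) (norm_nonneg _) ((norm_nonneg _).trans h3)
    · rw [hc1, hη]
      ring
  -- the function `σ`
  set σ : E m → ℂ := fun z => -∑ j, A' j j z with hσ
  have hσd : Differentiable ℂ σ := (Differentiable.fun_sum fun j _ => hA'd j j).neg
  have hσA : Ad L S0 σ := by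
    refine ⟨hσd.continuous.measurable, fun z => ?_⟩
    rw [hσ]
    simp only
    rw [norm_neg]
    refine (norm_sum_le _ _).trans ?_
    refine (Finset.sum_le_card_nsmul _ _ _ fun j _ => hA'b j j z).trans ?_
    rw [nsmul_eq_mul, Finset.card_univ, Fintype.card_fin, hS0]
    have := om_pos L z
    nlinarith
  have hσb : ∀ z, ‖z‖ ≤ 1 → ‖σ z‖ ≤ S0 := by
    intro z hz
    refine (hσA.bd z).trans ?_
    have := om_le_one hL0.le hz
    nlinarith
  have hσK : Differentiable ℂ (fun z => σ z ^ K) := hσd.pow K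
  have hσKA : Ad (K * L) b (fun z => σ z ^ K) := by
    refine ⟨hσK.continuous.measurable, fun z => ?_⟩
    rw [norm_pow]
    refine (pow_le_pow_left₀ (norm_nonneg _) (hσA.bd z) K).trans (le_of_eq ?_)
    rw [mul_pow, hb]
    congr 1
    unfold om
    rw [← Real.exp_nat_mul]
    ring_nf
  -- the iteration
  obtain ⟨J, hJ⟩ := exists_pow_lt_of_lt_one (show 0 < ε / (A * b) by positivity) hq1'
  obtain ⟨V, R, hVd, hRd, hRA, hVb, hVe⟩ := S.iter (by linarith) hΛ hq hK hKq hσK hσKA J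
  have hgeo := geom_le hq10 hq1' J
  have hVb' : ∀ j z, ‖z‖ ≤ 1 → ‖V j z‖ ≤ V0 := fun j z hz => by
    refine (hVb j z hz).trans ?_
    rw [hV0]
    exact mul_le_mul_of_nonneg_left hgeo (by positivity)
  have hVe' : ∀ z, ‖z‖ ≤ 1 → ‖∑ j, (F z j + P z j) * V j z - σ z ^ K‖ ≤ c2 * η + ε / A := by
    intro z hz
    have h1 := hVe z hz
    have h2 : ‖R z‖ ≤ ε / A := by
      have h3 := hRA.bd z
      have h4 : om (((K + J : ℕ) : ℝ) * L) z ≤ 1 := om_le_one (by positivity) hz
      have h5 : 0 ≤ q1 ^ J * b := mul_nonneg (pow_nonneg hq10 J) (by linarith)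
      have h6 : q1 ^ J * b ≤ ε / A := by
        have h7 : q1 ^ J * b ≤ ε / (A * b) * b := mul_le_mul_of_nonneg_right hJ.le (by linarith)
        refine h7.trans (le_of_eq ?_)
        field_simp
      nlinarith
    have h8 : 3 * 4 ^ m * (N * lam * B) * b / Real.sqrt L * ∑ i ∈ Finset.range J, q1 ^ i ≤
        c2 * η := by
      have h9 : c2 * η = 3 * 4 ^ m * (N * lam * B) * b / Real.sqrt L * (1 / (1 - q1)) := by
        rw [hc2, hη]
        ring
      rw [h9]
      exact mul_le_mul_of_nonneg_left hgeo (by positivity)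
    have e1 : ∑ j, (F z j + P z j) * V j z - σ z ^ K =
        (∑ j, (F z j + P z j) * V j z - (σ z ^ K - R z)) - R z := by ring
    rw [e1]
    refine (norm_sub_le _ _).trans ?_
    exact add_le_add (h1.trans h8) h2
  -- the matrix
  set g : E m → ℂ := fun z => ∑ k ∈ Finset.range K, σ z ^ k with hg
  have hgb : ∀ z, ‖z‖ ≤ 1 → ‖g z‖ ≤ G0 := by
    intro z hz
    rw [hg]
    refine (norm_sum_le _ _).trans ?_
    refine (Finset.sum_le_sum fun k _ => ?_).trans (pow_sum_le hS01 K)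
    rw [norm_pow]
    exact pow_le_pow_left₀ (norm_nonneg _) (hσb z hz) k
  refine ⟨fun i j z => A' i j z * g z + P z i * V j z, fun i j => ?_, fun z hz i => ⟨fun j => ?_, ?_⟩⟩
  · exact ((hA'd i j).mul (Differentiable.fun_sum fun k _ => hσd.pow k)).add
      ((S.Pd i).mul (hVd j))
  · have h1 : ‖A' i j z‖ ≤ B * ‖P z i‖ + c1 * η := by
      have e1 : A' i j z = e z j * P z i + (A' i j z - e z j * P z i) := by ring
      rw [e1]
      refine (norm_add_le _ _).trans (add_le_add ?_ (hA'e i j z hz))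
      rw [norm_mul]
      exact mul_le_mul_of_nonneg_right (S.eB z j hz) (norm_nonneg _)
    have hP0 := norm_nonneg (P z i)
    refine (norm_add_le _ _).trans ?_
    rw [norm_mul, norm_mul]
    calc ‖A' i j z‖ * ‖g z‖ + ‖P z i‖ * ‖V j z‖ ≤ (B * ‖P z i‖ + c1 * η) * G0 + ‖P z i‖ * V0 :=
          add_le_add (mul_le_mul h1 (hgb z hz) (norm_nonneg _) (by positivity))
            (mul_le_mul_of_nonneg_left (hVb' j z hz) hP0)
      _ = (B * G0 + V0) * ‖P z i‖ + (c1 * G0) * η := by ring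
      _ ≤ C * ‖P z i‖ + C * η := by
          refine add_le_add (mul_le_mul_of_nonneg_right ?_ hP0)
            (mul_le_mul_of_nonneg_right ?_ hη0)
          · rw [hC]
            have h2 : 0 ≤ c1 * G0 := by positivity
            have h3 : 0 ≤ (3 * N * A * c1) * G0 := by positivity
            have h4 : 0 ≤ A * c2 := by positivity
            linarith
          · rw [hC]
            have h1 : 0 ≤ B * G0 := by positivity
            have h3 : 0 ≤ (3 * N * A * c1) * G0 := by positivity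
            have h4 : 0 ≤ A * c2 := by positivity
            linarith
      _ = C * (‖P z i‖ + η) := by ring
  · -- the equation
    set T : ℂ := ∑ j, A' i j z * (F z j + P z j) - P z i * (1 - σ z) with hT
    have hPz : ∀ j, ‖P z j‖ ≤ A := fun j => by
      have h1 := S.Pb z j
      have h2 := om_le_one hL0.le hz
      nlinarith
    have hTb : ‖T‖ ≤ 3 * N * A * c1 * η := by
      have e1 : T = ∑ j, (A' i j z - e z j * P z i) * F z j +
          (∑ j, (A' i j z - e z j * P z i) * P z j +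
            ∑ j, P z i * -(A' j j z - e z j * P z j)) := by
        have h1 : ∑ j, (A' i j z - e z j * P z i) * F z j = ∑ j, A' i j z * F z j - P z i := by
          have h2 : ∑ j, (A' i j z - e z j * P z i) * F z j =
              ∑ j, A' i j z * F z j - P z i * ∑ j, F z j * e z j := by
            rw [Finset.mul_sum, ← Finset.sum_sub_distrib]
            exact Finset.sum_congr rfl fun j _ => by ring
          rw [h2, S.Fe z hz, mul_one]
        have h3 : ∑ j, (A' i j z - e z j * P z i) * P z j +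
            ∑ j, P z i * -(A' j j z - e z j * P z j) = ∑ j, A' i j z * P z j + P z i * σ z := by
          rw [hσ]
          simp only
          rw [mul_neg, Finset.mul_sum, ← Finset.sum_add_distrib, ← sub_eq_add_neg,
            ← Finset.sum_sub_distrib]
          exact Finset.sum_congr rfl fun j _ => by ring
        rw [h1, h3, hT]
        have h4 : ∑ j, A' i j z * (F z j + P z j) = ∑ j, A' i j z * F z j +
            ∑ j, A' i j z * P z j := by
          rw [← Finset.sum_add_distrib]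
          exact Finset.sum_congr rfl fun j _ => by ring
        rw [h4]
        ring
      have hc1η : 0 ≤ c1 * η := by positivity
      have b1 : ‖∑ j, (A' i j z - e z j * P z i) * F z j‖ ≤ N * (c1 * η * A) := by
        refine (norm_sum_le _ _).trans ?_
        refine (Finset.sum_le_card_nsmul _ _ (c1 * η * A) fun j _ => ?_).trans (le_of_eq ?_)
        · rw [norm_mul]
          exact mul_le_mul (hA'e i j z hz) (S.Fb z j hz) (norm_nonneg _) hc1η
        · rw [nsmul_eq_mul, Finset.card_univ, Fintype.card_fin]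
      have b2 : ‖∑ j, (A' i j z - e z j * P z i) * P z j‖ ≤ N * (c1 * η * A) := by
        refine (norm_sum_le _ _).trans ?_
        refine (Finset.sum_le_card_nsmul _ _ (c1 * η * A) fun j _ => ?_).trans (le_of_eq ?_)
        · rw [norm_mul]
          exact mul_le_mul (hA'e i j z hz) (hPz j) (norm_nonneg _) hc1η
        · rw [nsmul_eq_mul, Finset.card_univ, Fintype.card_fin]
      have b3 : ‖∑ j, P z i * -(A' j j z - e z j * P z j)‖ ≤ N * (c1 * η * A) := by
        refine (norm_sum_le _ _).trans ?_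
        refine (Finset.sum_le_card_nsmul _ _ (c1 * η * A) fun j _ => ?_).trans (le_of_eq ?_)
        · rw [norm_mul, norm_neg, mul_comm]
          exact mul_le_mul (hA'e j j z hz) (hPz i) (norm_nonneg _) hc1η
        · rw [nsmul_eq_mul, Finset.card_univ, Fintype.card_fin]
      rw [e1]
      refine (norm_add_le _ _).trans ?_
      have := norm_add_le (∑ j, (A' i j z - e z j * P z i) * P z j)
        (∑ j, P z i * -(A' j j z - e z j * P z j))
      have e2 : 3 * N * A * c1 * η = N * (c1 * η * A) + (N * (c1 * η * A) + N * (c1 * η * A)) := by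
        ring
      rw [e2]
      linarith
    have hgeo2 : (1 - σ z) * g z = 1 - σ z ^ K := by
      rw [hg]
      exact mul_neg_geom_sum (σ z) K
    have e1 : ∑ j, (A' i j z * g z + P z i * V j z) * (F z j + P z j) - P z i =
        T * g z + P z i * (∑ j, (F z j + P z j) * V j z - σ z ^ K) := by
      have h1 : ∑ j, (A' i j z * g z + P z i * V j z) * (F z j + P z j) =
          (∑ j, A' i j z * (F z j + P z j)) * g z + P z i * ∑ j, (F z j + P z j) * V j z := by
        rw [Finset.sum_mul, Finset.mul_sum, ← Finset.sum_add_distrib]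
        exact Finset.sum_congr rfl fun j _ => by ring
      rw [h1, hT]
      linear_combination (P z i) * hgeo2
    rw [e1]
    refine (norm_add_le _ _).trans ?_
    rw [norm_mul, norm_mul]
    have b1 : ‖T‖ * ‖g z‖ ≤ 3 * N * A * c1 * η * G0 :=
      mul_le_mul hTb (hgb z hz) (norm_nonneg _) (by positivity)
    have b2 : ‖P z i‖ * ‖∑ j, (F z j + P z j) * V j z - σ z ^ K‖ ≤ A * (c2 * η + ε / A) :=
      mul_le_mul (hPz i) (hVe' z hz) (norm_nonneg _) (by linarith)
    have e2 : A * (c2 * η + ε / A) = A * c2 * η + ε := by field_simp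
    rw [e2] at b2
    have h5 : 3 * N * A * c1 * η * G0 + A * c2 * η ≤ C * η := by
      have h6 : 3 * N * A * c1 * η * G0 + A * c2 * η = (3 * N * A * c1 * G0 + A * c2) * η := by
        ring
      rw [h6]
      refine mul_le_mul_of_nonneg_right ?_ hη0
      rw [hC]
      have h1 : 0 ≤ B * G0 := by positivity
      have h2 : 0 ≤ c1 * G0 := by positivity
      linarith
    linarith

end Pool.Agent.K9h23.Hom
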