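import Mathlib
import Pool.Agent.K9h23.Hom.Stage
import Pool.Agent.K9h23.Hom.BL

/-!
Homogeneous functions: growth, Lipschitz estimates, transversal estimates.
-/

set_option autoImplicit false

open Complex Set Metric

namespace Pool.Agent.K9h23.Hom

open Pool.Agent.K9h23.Lac (nsq nsq_nonneg nsq_c nn nn_nonneg nn_sq nn_add_le le_nsq nsq_smul' bd
  bd_le_nn comp_le_nn nsq_conj)

variable {m N : ℕ}

/-- homogeneous entire functions of degree `l`, bounded by `M` on the closed unit ball -/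
structure Ho (l : ℕ) (M : ℝ) (u : E m → ℂ) : Prop where
  d : Differentiable ℂ u
  h : ∀ (c : ℂ) (z : E m), u (c • z) = c ^ l * u z
  b : ∀ z : E m, ‖z‖ ≤ 1 → ‖u z‖ ≤ M

/-- the radial projection -/
noncomputable def nrm (w : E m) : E m := ((‖w‖ : ℂ))⁻¹ • w

theorem nrm_zero : nrm (0 : E m) = 0 := by unfold nrm; simp

theorem nrm_norm {w : E m} (hw : w ≠ 0) : ‖nrm w‖ = 1 := by
  unfold nrm
  rw [norm_smul, norm_inv, Complex.norm_real, norm_norm, inv_mul_cancel₀ (norm_ne_zero_iff.2 hw)]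

theorem nrm_le (w : E m) : ‖nrm w‖ ≤ 1 := by
  by_cases hw : w = 0
  · rw [hw, nrm_zero, norm_zero]; exact zero_le_one
  · exact (nrm_norm hw).le

theorem smul_nrm (w : E m) : (‖w‖ : ℂ) • nrm w = w := by
  by_cases hw : w = 0
  · rw [hw, nrm_zero, smul_zero]
  · unfold nrm
    have : (‖w‖ : ℂ) ≠ 0 := by exact_mod_cast norm_ne_zero_iff.2 hw
    rw [smul_smul, mul_inv_cancel₀ this, one_smul]

theorem nrm_meas : Measurable (fun w : E m => nrm w) := by
  unfold nrm
  exact (Complex.measurable_ofReal.comp measurable_norm).inv.smul measurable_id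

theorem dist_nrm (z w : E m) (hz : ‖z‖ ≤ 1) : ‖z - nrm w‖ ≤ 2 * ‖w - z‖ + (1 - ‖z‖) := by
  by_cases hw : w = 0
  · rw [hw, nrm_zero, sub_zero, zero_sub, norm_neg]
    linarith [norm_nonneg z]
  · have h1 : ‖w - nrm w‖ ≤ |‖w‖ - 1| := by
      have : w - nrm w = ((‖w‖ - 1 : ℝ) : ℂ) • nrm w := by
        push_cast
        rw [sub_smul, smul_nrm, one_smul]
      rw [this, norm_smul, nrm_norm hw, mul_one, Complex.norm_real, Real.norm_eq_abs]
    have h2 : |‖w‖ - 1| ≤ ‖w - z‖ + (1 - ‖z‖) := by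
      have h3 : |‖w‖ - ‖z‖| ≤ ‖w - z‖ := abs_norm_sub_norm_le w z
      have h4 : ‖w‖ - 1 = (‖w‖ - ‖z‖) + (‖z‖ - 1) := by ring
      rw [h4]
      refine (abs_add_le _ _).trans ?_
      rw [abs_of_nonpos (show ‖z‖ - 1 ≤ 0 by linarith)]
      linarith
    have h5 : z - nrm w = (z - w) + (w - nrm w) := by abel
    rw [h5]
    refine (norm_add_le _ _).trans ?_
    rw [norm_sub_rev z w]
    linarith

theorem nrm_sub {z w : E m} (hz : z ≠ 0) (hw : w ≠ 0) : ‖nrm w - nrm z‖ ≤ 2 * ‖w - z‖ / ‖z‖ := by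
  have hz0 : 0 < ‖z‖ := norm_pos_iff.2 hz
  rw [le_div_iff₀ hz0]
  have h1 : ((‖z‖ : ℝ) : ℂ) • (nrm w - nrm z) = (w - z) + ((‖z‖ - ‖w‖ : ℝ) : ℂ) • nrm w := by
    push_cast
    rw [smul_sub, smul_nrm, sub_smul, smul_nrm]
    abel
  have h2 : ‖nrm w - nrm z‖ * ‖z‖ = ‖((‖z‖ : ℝ) : ℂ) • (nrm w - nrm z)‖ := by
    rw [norm_smul, Complex.norm_real, norm_norm, mul_comm]
  rw [h2, h1]
  refine (norm_add_le _ _).trans ?_
  rw [norm_smul, nrm_norm hw, mul_one, Complex.norm_real, Real.norm_eq_abs]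
  have h3 : |‖z‖ - ‖w‖| ≤ ‖w - z‖ := by
    rw [norm_sub_rev]
    exact abs_norm_sub_norm_le z w
  linarith

theorem Ho.le {l : ℕ} {M : ℝ} {u : E m → ℂ} (hu : Ho l M u) (z : E m) : ‖u z‖ ≤ M * ‖z‖ ^ l := by
  have h1 := hu.h (‖z‖ : ℂ) (nrm z)
  rw [smul_nrm] at h1
  rw [h1, norm_mul, norm_pow, Complex.norm_real, norm_norm, mul_comm]
  exact mul_le_mul_of_nonneg_right (hu.b _ (nrm_le z)) (by positivity)

theorem pow_le_om (k : ℕ) (z : E m) : ‖z‖ ^ k ≤ om k z := by
  have h1 : ‖z‖ ≤ Real.exp ((‖z‖ ^ 2 - 1) / 2) := by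
    have h2 := Real.add_one_le_exp (‖z‖ ^ 2 - 1)
    have h3 : Real.exp (‖z‖ ^ 2 - 1) = Real.exp ((‖z‖ ^ 2 - 1) / 2) ^ 2 := by
      rw [← Real.exp_nat_mul]
      push_cast
      ring_nf
    have h4 : ‖z‖ ^ 2 ≤ Real.exp ((‖z‖ ^ 2 - 1) / 2) ^ 2 := by
      rw [← h3]
      linarith
    exact le_of_sq_le_sq h4 (Real.exp_pos _).le
  refine (pow_le_pow_left₀ (norm_nonneg _) h1 k).trans (le_of_eq ?_)
  unfold om
  rw [← Real.exp_nat_mul]
  ring_nf

theorem Ho.om {l : ℕ} {M : ℝ} {u : E m → ℂ} (hM : 0 ≤ M) (hu : Ho l M u) (z : E m) :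
    ‖u z‖ ≤ M * om l z :=
  (hu.le z).trans (mul_le_mul_of_nonneg_left (pow_le_om l z) hM)

/-- Schwarz lemma -/
theorem sch {φ : ℂ → ℂ} (hφ : Differentiable ℂ φ) {M R : ℝ} (hR : 1 < R)
    (hM : ∀ t : ℂ, ‖t‖ < R → ‖φ t‖ ≤ M) : ‖φ 1 - φ 0‖ ≤ 2 * M / R := by
  have h1 := Complex.dist_le_div_mul_dist_of_mapsTo_ball (f := φ) (c := 0) (z := 1) (R₁ := R)
    (R₂ := 2 * M) hφ.differentiableOn (fun t ht => by
      rw [mem_closedBall, dist_eq_norm]
      have h2 := hM t (by simpa using ht)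
      have h3 := hM 0 (by simp; linarith)
      refine (norm_sub_le _ _).trans (by linarith)) (by simpa using hR)
  rw [dist_eq_norm] at h1
  simpa using h1

theorem exp_one_le : Real.exp 1 ≤ 3 := by
  have := Real.exp_one_lt_d9
  linarith

/-- Lipschitz estimate -/
theorem Ho.lip {l : ℕ} {M : ℝ} {u : E m → ℂ} (hu : Ho l M u) (hM : 0 ≤ M) {z w : E m}
    (hz : ‖z‖ ≤ 1) (hw : ‖w‖ ≤ 1) : ‖u z - u w‖ ≤ 6 * M * l * ‖z - w‖ := by
  rcases Nat.eq_zero_or_pos l with h0 | h0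
  · have h1 : ∀ z, u z = u 0 := fun z => by
      have := hu.h 0 z
      rw [zero_smul, h0, pow_zero, one_mul] at this
      exact this.symm
    rw [h1 z, h1 w, sub_self, norm_zero, h0]
    simp
  · have hl : (0:ℝ) < l := by exact_mod_cast h0
    have hl1 : (1:ℝ) ≤ l := by exact_mod_cast h0
    rcases le_or_gt 1 (l * ‖z - w‖) with h1 | h1
    · have h2 : ‖u z - u w‖ ≤ 2 * M := by
        refine (norm_sub_le _ _).trans ?_
        have := hu.b z hz
        have := hu.b w hw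
        linarith
      have h3 : 0 ≤ M * (l * ‖z - w‖ - 1) := mul_nonneg hM (by linarith)
      nlinarith [norm_nonneg (z - w)]
    · by_cases hzw : z - w = 0
      · have : z = w := sub_eq_zero.1 hzw
        rw [this]; simp
      have hd : 0 < ‖z - w‖ := norm_pos_iff.2 hzw
      set R : ℝ := 1 / (l * ‖z - w‖) with hR
      have hR1 : 1 < R := by
        rw [hR, lt_div_iff₀ (by positivity)]
        linarith
      have h2 := sch (φ := fun t => u (w + t • (z - w))) (M := 3 * M) (R := R) (by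
        exact hu.d.comp ((differentiable_id.smul_const (z - w)).const_add w)) hR1
        (fun t ht => by
          refine (hu.le _).trans ?_
          rw [mul_comm 3 M]
          refine mul_le_mul_of_nonneg_left ?_ hM
          have h3 : ‖w + t • (z - w)‖ ≤ 1 + 1 / l := by
            refine (norm_add_le _ _).trans ?_
            rw [norm_smul]
            have h4 : ‖t‖ * ‖z - w‖ ≤ R * ‖z - w‖ := mul_le_mul_of_nonneg_right ht.le hd.le
            have h5 : R * ‖z - w‖ = 1 / l := by rw [hR]; field_simp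
            linarith
          have h6 : (1:ℝ) + 1 / l ≤ Real.exp (1 / l) := by
            have := Real.add_one_le_exp (1 / (l:ℝ))
            linarith
          refine (pow_le_pow_left₀ (norm_nonneg _) (h3.trans h6) l).trans ?_
          rw [← Real.exp_nat_mul]
          have : (l:ℝ) * (1 / l) = 1 := by field_simp
          rw [this]
          exact exp_one_le)
      simp only [one_smul, zero_smul, add_zero] at h2
      have h3 : w + (z - w) = z := by abel
      rw [h3] at h2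
      refine h2.trans (le_of_eq ?_)
      rw [hR]
      field_simp
      ring

/-- transversal estimate -/
theorem Ho.trans {L : ℕ} {M : ℝ} {u : E m → ℂ} (hu : Ho L M u) (hM : 0 ≤ M) (hL : 1 ≤ L)
    {z w : E m} (hz : ‖z‖ = 1) (hw : ‖w‖ = 1) :
    ‖u w - inner ℂ z w ^ L * u z‖ ≤ 4 * M * Real.sqrt L * ‖w - (inner ℂ z w : ℂ) • z‖ := by
  set c : ℂ := inner ℂ z w with hc
  set τ : E m := w - c • z with hτ
  have hL0 : (0:ℝ) < L := by exact_mod_cast hL
  have hsL : 0 < Real.sqrt L := Real.sqrt_pos.2 hL0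
  have hss : Real.sqrt L ^ 2 = L := Real.sq_sqrt hL0.le
  have horth : inner ℂ z τ = 0 := by
    rw [hτ, inner_sub_right, inner_smul_right, inner_self_eq_norm_sq_to_K, hz]
    simp [hc]
  have hpyth : ∀ t : ℂ, ‖c • z + t • τ‖ ^ 2 = ‖c‖ ^ 2 + ‖t‖ ^ 2 * ‖τ‖ ^ 2 := by
    intro t
    have h1 : inner ℂ (c • z) (t • τ) = 0 := by
      rw [inner_smul_left, inner_smul_right, horth, mul_zero, mul_zero]
    have h2 := norm_add_sq_eq_norm_sq_add_norm_sq_of_inner_eq_zero (𝕜 := ℂ) (c • z) (t • τ) h1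
    rw [sq, h2, norm_smul, norm_smul, hz]
    ring
  have hw2 : ‖c‖ ^ 2 + ‖τ‖ ^ 2 = 1 := by
    have h1 := hpyth 1
    rw [one_smul, hτ] at h1
    have h2 : c • z + (w - c • z) = w := by abel
    rw [h2, hw] at h1
    rw [hτ]
    simp at h1
    linarith
  have hc1 : ‖c‖ ≤ 1 := by
    have : ‖c‖ ^ 2 ≤ 1 ^ 2 := by nlinarith [sq_nonneg ‖τ‖]
    exact le_of_sq_le_sq this (by norm_num)
  rcases le_or_gt 1 (Real.sqrt L * ‖τ‖) with h1 | h1
  · have h2 : ‖u w - c ^ L * u z‖ ≤ 2 * M := by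
      refine (norm_sub_le _ _).trans ?_
      rw [norm_mul, norm_pow]
      have h3 := hu.b w hw.le
      have h4 := hu.b z hz.le
      have h5 : ‖c‖ ^ L ≤ 1 := pow_le_one₀ (norm_nonneg _) hc1
      have h6 : ‖c‖ ^ L * ‖u z‖ ≤ 1 * M := mul_le_mul h5 h4 (norm_nonneg _) zero_le_one
      linarith
    have h3 : 0 ≤ M * (Real.sqrt L * ‖τ‖ - 1) := mul_nonneg hM (by linarith)
    nlinarith
  · by_cases hτ0 : τ = 0
    · have h2 : w = c • z := by rw [hτ] at hτ0; exact sub_eq_zero.1 hτ0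
      have h3 : u w = c ^ L * u z := by
        conv_lhs => rw [h2]
        exact hu.h c z
      rw [h3, sub_self, norm_zero]
      positivity
    have hd : 0 < ‖τ‖ := norm_pos_iff.2 hτ0
    set R : ℝ := 1 / (Real.sqrt L * ‖τ‖) with hR
    have hR1 : 1 < R := by
      rw [hR, lt_div_iff₀ (by positivity)]
      linarith
    have h2 := sch (φ := fun t => u (c • z + t • τ)) (M := 2 * M) (R := R) (by
      exact hu.d.comp ((differentiable_id.smul_const τ).const_add (c • z))) hR1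
      (fun t ht => by
        refine (hu.le _).trans ?_
        rw [mul_comm 2 M]
        refine mul_le_mul_of_nonneg_left ?_ hM
        have h3 : ‖c • z + t • τ‖ ^ 2 ≤ 1 + 1 / L := by
          rw [hpyth]
          have h4 : ‖t‖ * ‖τ‖ ≤ R * ‖τ‖ := mul_le_mul_of_nonneg_right ht.le hd.le
          have h5 : R * ‖τ‖ = 1 / Real.sqrt L := by rw [hR]; field_simp
          rw [h5] at h4
          have h6 : (‖t‖ * ‖τ‖) ^ 2 ≤ (1 / Real.sqrt L) ^ 2 :=
            pow_le_pow_left₀ (by positivity) h4 2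
          have h7 : (1 / Real.sqrt L) ^ 2 = 1 / L := by rw [div_pow, one_pow, hss]
          rw [h7, mul_pow] at h6
          have h8 : ‖c‖ ^ 2 ≤ 1 := by nlinarith [sq_nonneg ‖τ‖]
          linarith
        have h4 : ‖c • z + t • τ‖ ≤ Real.exp (1 / (2 * L)) := by
          have h5 : ‖c • z + t • τ‖ ^ 2 ≤ Real.exp (1 / (2 * L)) ^ 2 := by
            rw [← Real.exp_nat_mul]
            have h6 := Real.add_one_le_exp (1 / (L:ℝ))
            have h7 : ((2:ℕ):ℝ) * (1 / (2 * L)) = 1 / L := by push_cast; field_simp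
            rw [h7]
            linarith
          exact le_of_sq_le_sq h5 (Real.exp_pos _).le
        refine (pow_le_pow_left₀ (norm_nonneg _) h4 L).trans ?_
        rw [← Real.exp_nat_mul]
        have h5 : (L:ℝ) * (1 / (2 * L)) = 1 / 2 := by field_simp
        rw [h5]
        have h6 : Real.exp (1 / 2) ^ 2 ≤ 2 ^ 2 := by
          rw [← Real.exp_nat_mul]
          have : ((2:ℕ):ℝ) * (1 / 2) = 1 := by norm_num
          rw [this]
          linarith [exp_one_le]
        exact le_of_sq_le_sq h6 (by norm_num))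
    simp only [one_smul, zero_smul, add_zero] at h2
    have h3 : c • z + τ = w := by rw [hτ]; abel
    rw [h3, hu.h] at h2
    refine h2.trans (le_of_eq ?_)
    rw [hR]
    field_simp
    ring

/-- comparison of two points of the sphere -/
theorem near {L : ℕ} {A : ℝ} {P : E m → Fin N → ℂ} (hP : ∀ j, Ho L A (fun z => P z j))
    (hA : 0 ≤ A) (hL : 1 ≤ L) {z w : E m} (hz : ‖z‖ = 1) (hw : ‖w‖ = 1) :
    ∃ lb : ℂ, ‖lb‖ = 1 ∧ ∀ j, ‖P w j - lb * P z j‖ ≤ 5 * A * Real.sqrt L * ‖w - z‖ := by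
  set c : ℂ := inner ℂ z w with hc
  set τ : E m := w - c • z with hτ
  have hL0 : (0:ℝ) < L := by exact_mod_cast hL
  have hsL : 0 < Real.sqrt L := Real.sqrt_pos.2 hL0
  have hss : Real.sqrt L ^ 2 = L := Real.sq_sqrt hL0.le
  have hs1 : 1 ≤ Real.sqrt L := by
    rw [Real.one_le_sqrt]
    exact_mod_cast hL
  have horth : inner ℂ z τ = 0 := by
    rw [hτ, inner_sub_right, inner_smul_right, inner_self_eq_norm_sq_to_K, hz]
    simp [hc]
  have hpyth : ∀ a : ℂ, ‖a • z + τ‖ ^ 2 = ‖a‖ ^ 2 + ‖τ‖ ^ 2 := by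
    intro a
    have h1 : inner ℂ (a • z) τ = 0 := by
      rw [inner_smul_left, horth, mul_zero]
    have h2 := norm_add_sq_eq_norm_sq_add_norm_sq_of_inner_eq_zero (𝕜 := ℂ) (a • z) τ h1
    rw [sq, h2, norm_smul, hz]
    ring
  have hw2 : ‖c‖ ^ 2 + ‖τ‖ ^ 2 = 1 := by
    have h1 := hpyth c
    have h2 : c • z + τ = w := by rw [hτ]; abel
    rw [h2, hw] at h1
    linarith
  have hτle : ‖τ‖ ≤ ‖w - z‖ := by
    have h1 := hpyth (c - 1)
    have h2 : (c - 1) • z + τ = w - z := by rw [hτ, sub_smul, one_smul]; abel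
    rw [h2] at h1
    have h3 : ‖τ‖ ^ 2 ≤ ‖w - z‖ ^ 2 := by rw [h1]; nlinarith [sq_nonneg ‖c - 1‖]
    exact le_of_sq_le_sq h3 (norm_nonneg _)
  by_cases hc0 : c = 0
  · refine ⟨1, by simp, fun j => ?_⟩
    have h1 : ‖τ‖ = 1 := by
      rw [hc0] at hw2
      simp at hw2
      rcases hw2 with h | h
      · exact h
      · linarith [norm_nonneg τ]
    have h2 : ‖P w j - 1 * P z j‖ ≤ 2 * A := by
      rw [one_mul]
      refine (norm_sub_le _ _).trans ?_
      have := (hP j).b w hw.le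
      have := (hP j).b z hz.le
      linarith
    have h3 : 1 ≤ Real.sqrt L * ‖w - z‖ := by nlinarith
    have h4 : 0 ≤ A * (Real.sqrt L * ‖w - z‖ - 1) := mul_nonneg hA (by linarith)
    nlinarith
  · have hcn : 0 < ‖c‖ := norm_pos_iff.2 hc0
    have hcn' : (‖c‖ : ℂ) ≠ 0 := by exact_mod_cast hcn.ne'
    refine ⟨(c / ‖c‖) ^ L, ?_, fun j => ?_⟩
    · rw [norm_pow, norm_div, Complex.norm_real, norm_norm, div_self hcn.ne', one_pow]
    · have h1 := (hP j).trans hA hL hz hw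
      rw [← hc, ← hτ] at h1
      have e1 : P w j - (c / ‖c‖) ^ L * P z j = (P w j - c ^ L * P z j) -
          (((1 - ‖c‖ ^ L : ℝ) : ℂ)) * ((c / ‖c‖) ^ L * P z j) := by
        have h2 : c ^ L = (‖c‖ : ℂ) ^ L * (c / ‖c‖) ^ L := by
          rw [← mul_pow]
          congr 1
          field_simp
        rw [h2]
        push_cast
        ring
      rw [e1]
      have h3 : ‖(((1 - ‖c‖ ^ L : ℝ) : ℂ)) * ((c / ‖c‖) ^ L * P z j)‖ ≤
          (Real.sqrt L * ‖τ‖) * A := by
        rw [norm_mul, norm_mul, norm_pow, norm_div, Complex.norm_real, Complex.norm_real, norm_norm,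
          div_self hcn.ne', one_pow, one_mul]
        have hc1 : ‖c‖ ≤ 1 := by
          have : ‖c‖ ^ 2 ≤ 1 ^ 2 := by nlinarith [sq_nonneg ‖τ‖]
          exact le_of_sq_le_sq this (by norm_num)
        have h4 : ‖c‖ ^ L ≤ 1 := pow_le_one₀ (norm_nonneg _) hc1
        rw [Real.norm_of_nonneg (by linarith)]
        refine mul_le_mul ?_ ((hP j).b z hz.le) (norm_nonneg _) (by positivity)
        rcases le_or_gt 1 (Real.sqrt L * ‖τ‖) with h5 | h5
        · have : 0 ≤ ‖c‖ ^ L := by positivity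
          linarith
        · have h6 : 1 - ‖τ‖ ^ 2 ≤ ‖c‖ := by nlinarith
          have hτ1 : ‖τ‖ ^ 2 ≤ 1 := by nlinarith [sq_nonneg ‖c‖]
          have h7 : (1 - ‖τ‖ ^ 2) ^ L ≤ ‖c‖ ^ L := pow_le_pow_left₀ (by linarith) h6 L
          have h8 := one_add_mul_le_pow (a := -‖τ‖ ^ 2) (by nlinarith) L
          have h9 : (1 + -‖τ‖ ^ 2) ^ L = (1 - ‖τ‖ ^ 2) ^ L := by ring
          rw [h9] at h8
          have h10 : (L:ℝ) * ‖τ‖ ^ 2 = (Real.sqrt L * ‖τ‖) ^ 2 := by rw [mul_pow, hss]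
          have h11 : (Real.sqrt L * ‖τ‖) ^ 2 ≤ Real.sqrt L * ‖τ‖ := by
            have : 0 ≤ Real.sqrt L * ‖τ‖ := by positivity
            nlinarith
          nlinarith
      refine (norm_sub_le _ _).trans ((add_le_add h1 h3).trans ?_)
      have h4 : Real.sqrt L * ‖τ‖ ≤ Real.sqrt L * ‖w - z‖ :=
        mul_le_mul_of_nonneg_left hτle hsL.le
      nlinarith

end Pool.Agent.K9h23.Hom
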