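import Mathlib
import Pool.Agent.K9h23.Hom.Geo

/-!
The stage for a slow function `F` and a homogeneous `P`.
-/

set_option autoImplicit false

open Complex Set Metric

namespace Pool.Agent.K9h23.Hom

open Pool.Agent.K9h23.Lac (nsq nsq_nonneg nsq_c nn nn_nonneg nn_sq nn_add_le le_nsq nsq_smul' bd
  bd_le_nn comp_le_nn nsq_conj)

variable {m N : ℕ}

/-- the hypotheses -/
structure Fz (δ A lam : ℝ) (L : ℕ) (F P : E m → Fin N → ℂ) : Prop where
  L1 : 1 ≤ L
  l0 : 0 ≤ lam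
  lL : lam ≤ Real.sqrt L
  Fc : ∀ j, Continuous (fun z => F z j)
  Fl : ∀ z w, ‖z‖ ≤ 1 → ‖w‖ ≤ 1 → ∀ j, ‖F z j - F w j‖ ≤ lam * ‖z - w‖
  FA : ∀ z, ‖z‖ ≤ 1 → nn (F z) ≤ A
  PA : ∀ z, ‖z‖ ≤ 1 → nn (P z) ≤ A
  Ph : ∀ j, Ho L A (fun z => P z j)
  good : ∀ z, ‖z‖ ≤ 1 → ∀ ξ : ℂ, ‖ξ‖ ≤ 1 → δ ≤ nn (fun j => F z j + ξ * P z j)

theorem pi_dist_le {u v : Fin N → ℂ} {c : ℝ} (hc : 0 ≤ c) (h : ∀ j, ‖u j - v j‖ ≤ c) :
    dist u v ≤ c := by
  rw [dist_eq_norm, pi_norm_le_iff_of_nonneg hc]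
  exact h

theorem Fz.stg {δ A : ℝ} (hδ : 0 < δ) (hδA : δ ≤ A) (hA : 1 ≤ A) (m N : ℕ) :
    ∃ B Λ : ℝ, 1 ≤ B ∧ 0 ≤ Λ ∧ ∀ (L : ℕ) (lam : ℝ) (F P : E m → Fin N → ℂ), Fz δ A lam L F P →
      Stg A B (1 - δ / (2 * A)) Λ L lam F (fun w => F (nrm w)) P
        (fun w => phi (δ ^ 3 / (8 * A)) (F (nrm w)) (P (nrm w)))
        (fun z => ee (F z)) (fun w => ee (F (nrm w))) := by
  have hA0 : 0 < A := by linarith
  set τ : ℝ := δ ^ 3 / (8 * A) with hτ
  have hτ0 : 0 < τ := by positivity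
  obtain ⟨M1, hM1, h1⟩ := BL.unif (fun j : Fin N => BL_phi (N := N) hδ hA hτ0 j)
  obtain ⟨M2, hM2, h2⟩ := BL.unif (fun j : Fin N => BL_ee (N := N) hδ hA j)
  refine ⟨1 + M1 + M2, 4 * A * (M1 * (1 + 5 * A)) + 4 * A * M1 + M2, by linarith, by positivity,
    fun L lam F P H => ?_⟩
  have hL0 : (0:ℝ) < L := by exact_mod_cast H.L1
  have hs1 : 1 ≤ Real.sqrt L := by
    rw [Real.one_le_sqrt]
    exact_mod_cast H.L1
  have hnF : ∀ z, ‖z‖ ≤ 1 → δ ≤ nn (F z) := fun z hz => by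
    have := H.good z hz 0 (by simp)
    simpa using this
  have hT : ∀ z w : E m, ‖z‖ ≤ 1 → ‖w‖ ≤ 1 → (F z, P w) ∈ TT N δ A := fun z w hz hw =>
    ⟨hnF z hz, H.FA z hz, H.PA w hw⟩
  have hT0 : ∀ z : E m, ‖z‖ ≤ 1 → (F z, fun _ : Fin N => (0:ℂ)) ∈ TT N δ A := fun z hz =>
    ⟨hnF z hz, H.FA z hz, by
      have : nn (fun _ : Fin N => (0:ℂ)) = 0 := by unfold nn nsq; simp
      change nn (fun _ : Fin N => (0:ℂ)) ≤ A
      rw [this]; exact hA0.le⟩
  have hns : ∀ z, ‖z‖ ≤ 1 → nsq (F z) ≠ 0 := fun z hz => by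
    rw [← nn_sq]
    have h0 : 0 < nn (F z) := hδ.trans_le (hnF z hz)
    positivity
  have hFm : ∀ j, Measurable (fun w => F (nrm w) j) := fun j =>
    (H.Fc j).measurable.comp nrm_meas
  have hPm : ∀ j, Measurable (fun w => P (nrm w) j) := fun j =>
    (H.Ph j).d.continuous.measurable.comp nrm_meas
  refine ⟨by exact_mod_cast H.L1, H.l0, fun j => (H.Ph j).d, fun z j => (H.Ph j).om hA0.le z,
    fun z j hz => (comp_le_nn (F z) j).trans (H.FA z hz), fun j => meas_phi τ hFm hPm j,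
    fun w j => ?_, fun j => meas_ee hFm j, fun w j => ?_, fun z j hz => ?_, hFm,
    fun w j => (comp_le_nn _ j).trans (H.FA _ (nrm_le w)), fun w => ?_, fun z hz => ?_,
    fun z => ?_, fun z w j => ?_, fun z w j hz => ?_, fun z w j hz => ?_⟩
  · have := (h1 j).1 _ (hT (nrm w) (nrm w) (nrm_le w) (nrm_le w))
    beta_reduce at this ⊢
    linarith
  · have := (h2 j).1 _ (hT (nrm w) (nrm w) (nrm_le w) (nrm_le w))
    beta_reduce at this ⊢
    linarith
  · have := (h2 j).1 _ (hT z z hz hz)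
    beta_reduce at this ⊢
    linarith
  · exact a_phi (hns _ (nrm_le w)) τ _
  · exact a_ee (hns z hz)
  · -- the contraction
    have e1 : ∀ j, P z j = (‖z‖ : ℂ) ^ L * P (nrm z) j := fun j => by
      have := (H.Ph j).h (‖z‖ : ℂ) (nrm z)
      rwa [smul_nrm] at this
    have e2 : ∑ j, P z j * phi τ (F (nrm z)) (P (nrm z)) j =
        (‖z‖ : ℂ) ^ L * ∑ j, P (nrm z) j * phi τ (F (nrm z)) (P (nrm z)) j := by
      rw [Finset.mul_sum]
      exact Finset.sum_congr rfl fun j _ => by rw [e1 j]; ring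
    beta_reduce
    rw [e2, norm_mul, norm_pow, Complex.norm_real, norm_norm]
    have h3 := phi_contr hδ hδA (H.FA _ (nrm_le z)) (H.PA _ (nrm_le z)) (H.good _ (nrm_le z))
    have h4 := pow_le_om L z
    calc ‖z‖ ^ L * ‖∑ j, P (nrm z) j * phi τ (F (nrm z)) (P (nrm z)) j‖ ≤
          om L z * (1 - δ / (2 * A)) := mul_le_mul h4 h3 (norm_nonneg _) (om_pos _ _).le
      _ = _ := by ring
  · -- the Lipschitz estimate
    beta_reduce
    by_cases hz : z = 0
    · have h3 := (H.Ph j).le z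
      rw [hz, norm_zero, zero_pow (by have := H.L1; omega), mul_zero] at h3
      have h4 : ‖P z j‖ = 0 := le_antisymm (by rw [hz]; exact h3) (norm_nonneg _)
      rw [h4, zero_mul]
      have := om_pos (L:ℝ) z
      positivity
    have hz0 : 0 < ‖z‖ := norm_pos_iff.2 hz
    have hpw : ‖z‖ ^ (L - 1) ≤ 2 * om L z := by
      have h3 := pow_le_om (L - 1) z
      have h4 : om ((L - 1 : ℕ) : ℝ) z ≤ 2 * om L z := by
        have h5 : ((L - 1 : ℕ) : ℝ) = L - 1 := by
          have := H.L1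
          push_cast [Nat.cast_sub this]
          ring
        have h6 : om ((L - 1 : ℕ) : ℝ) z = om L z * Real.exp ((1 - ‖z‖ ^ 2) / 2) := by
          rw [h5]
          unfold om
          rw [← Real.exp_add]
          ring_nf
        rw [h6, mul_comm 2]
        refine mul_le_mul_of_nonneg_left ?_ (om_pos _ _).le
        have h7 : Real.exp ((1 - ‖z‖ ^ 2) / 2) ≤ Real.exp (1 / 2) := by
          apply Real.exp_le_exp.2
          nlinarith [sq_nonneg ‖z‖]
        have h8 : Real.exp (1 / 2) ^ 2 ≤ 2 ^ 2 := by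
          rw [← Real.exp_nat_mul]
          have : ((2:ℕ):ℝ) * (1 / 2) = 1 := by norm_num
          rw [this]
          linarith [exp_one_le]
        exact h7.trans (le_of_sq_le_sq h8 (by norm_num))
      exact h3.trans h4
    have hPz : ‖P z j‖ ≤ A * (‖z‖ ^ (L - 1) * ‖z‖) := by
      have h3 := (H.Ph j).le z
      have h4 : ‖z‖ ^ L = ‖z‖ ^ (L - 1) * ‖z‖ := by
        rw [← pow_succ]
        congr 1
        have := H.L1
        omega
      rwa [h4] at h3
    have hom := om_pos (L:ℝ) z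
    by_cases hw : w = 0
    · have h3 : ‖phi τ (F (nrm w)) (P (nrm w)) j - phi τ (F (nrm z)) (P (nrm z)) j‖ ≤ 2 * M1 := by
        refine (norm_sub_le _ _).trans ?_
        have a1 := (h1 j).1 _ (hT (nrm w) (nrm w) (nrm_le w) (nrm_le w))
        have a2 := (h1 j).1 _ (hT (nrm z) (nrm z) (nrm_le z) (nrm_le z))
        beta_reduce at a1 a2
        linarith
      have h4 : ‖w - z‖ = ‖z‖ := by rw [hw, zero_sub, norm_neg]
      calc _ ≤ A * (‖z‖ ^ (L - 1) * ‖z‖) * (2 * M1) :=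
            mul_le_mul hPz h3 (norm_nonneg _) (by positivity)
        _ = ‖z‖ ^ (L - 1) * (2 * A * M1 * ‖z‖) := by ring
        _ ≤ 2 * om L z * (2 * A * M1 * ‖z‖) := mul_le_mul_of_nonneg_right hpw (by positivity)
        _ = (4 * A * M1) * 1 * ‖w - z‖ * om L z := by rw [h4]; ring
        _ ≤ (4 * A * (M1 * (1 + 5 * A)) + 4 * A * M1 + M2) * Real.sqrt L * ‖w - z‖ * om L z := by
            refine mul_le_mul_of_nonneg_right (mul_le_mul_of_nonneg_right
              (mul_le_mul ?_ hs1 zero_le_one (by positivity)) (norm_nonneg _)) hom.le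
            have : 0 ≤ 4 * A * (M1 * (1 + 5 * A)) := by positivity
            linarith
    · obtain ⟨lb, hlb, hnear⟩ := near H.Ph hA0.le H.L1 (nrm_norm hz) (nrm_norm hw)
      have h3 : phi τ (F (nrm z)) (P (nrm z)) =
          phi τ (F (nrm z)) (fun i => lb * P (nrm z) i) := (phi_smul τ _ _ hlb).symm
      have hlbT : (F (nrm z), fun i => lb * P (nrm z) i) ∈ TT N δ A :=
        ⟨hnF _ (nrm_le z), H.FA _ (nrm_le z), by
          change nn (fun i => lb * P (nrm z) i) ≤ A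
          rw [nn_smul, hlb, one_mul]
          exact H.PA _ (nrm_le z)⟩
      have h4 := (h1 j).2 _ (hT (nrm w) (nrm w) (nrm_le w) (nrm_le w)) _ hlbT
      beta_reduce at h4
      rw [← h3] at h4
      have h5 : dist (F (nrm w), P (nrm w)) (F (nrm z), fun i => lb * P (nrm z) i) ≤
          (1 + 5 * A) * Real.sqrt L * ‖nrm w - nrm z‖ := by
        have hn := norm_nonneg (nrm w - nrm z)
        refine max_le ?_ ?_
        · refine pi_dist_le (by positivity) fun i => ?_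
          refine (H.Fl _ _ (nrm_le w) (nrm_le z) i).trans ?_
          refine mul_le_mul_of_nonneg_right ?_ hn
          have := H.lL
          nlinarith
        · refine pi_dist_le (by positivity) fun i => ?_
          refine (hnear i).trans ?_
          refine mul_le_mul_of_nonneg_right ?_ hn
          nlinarith
      have h6 := nrm_sub hz hw
      have h7 : ‖phi τ (F (nrm w)) (P (nrm w)) j - phi τ (F (nrm z)) (P (nrm z)) j‖ ≤
          M1 * ((1 + 5 * A) * Real.sqrt L * (2 * ‖w - z‖ / ‖z‖)) := by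
        refine h4.trans (mul_le_mul_of_nonneg_left (h5.trans ?_) hM1)
        exact mul_le_mul_of_nonneg_left h6 (by positivity)
      calc _ ≤ A * (‖z‖ ^ (L - 1) * ‖z‖) * (M1 * ((1 + 5 * A) * Real.sqrt L *
              (2 * ‖w - z‖ / ‖z‖))) := mul_le_mul hPz h7 (norm_nonneg _) (by positivity)
        _ = ‖z‖ ^ (L - 1) * (2 * A * (M1 * (1 + 5 * A)) * Real.sqrt L * ‖w - z‖) := by
            field_simp
        _ ≤ 2 * om L z * (2 * A * (M1 * (1 + 5 * A)) * Real.sqrt L * ‖w - z‖) :=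
            mul_le_mul_of_nonneg_right hpw (by positivity)
        _ = (4 * A * (M1 * (1 + 5 * A))) * Real.sqrt L * ‖w - z‖ * om L z := by ring
        _ ≤ (4 * A * (M1 * (1 + 5 * A)) + 4 * A * M1 + M2) * Real.sqrt L * ‖w - z‖ * om L z := by
            refine mul_le_mul_of_nonneg_right (mul_le_mul_of_nonneg_right
              (mul_le_mul_of_nonneg_right ?_ (Real.sqrt_nonneg _)) (norm_nonneg _)) hom.le
            have : 0 ≤ 4 * A * M1 := by positivity
            linarith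
  · exact (H.Fl z (nrm w) hz (nrm_le w) j).trans
      (mul_le_mul_of_nonneg_left (dist_nrm z w hz) H.l0)
  · beta_reduce
    have h3 := (h2 j).2 _ (hT0 (nrm w) (nrm_le w)) _ (hT0 z hz)
    beta_reduce at h3
    refine h3.trans ?_
    have h4 : dist ((F (nrm w), fun _ : Fin N => (0:ℂ)) : (Fin N → ℂ) × (Fin N → ℂ))
        (F z, fun _ : Fin N => (0:ℂ)) ≤ lam * (2 * ‖w - z‖ + (1 - ‖z‖)) := by
      have hn : 0 ≤ 2 * ‖w - z‖ + (1 - ‖z‖) := (norm_nonneg _).trans (dist_nrm z w hz)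
      have hl0 := H.l0
      refine max_le ?_ ?_
      · refine pi_dist_le (by positivity) fun i => ?_
        refine (H.Fl _ _ (nrm_le w) hz i).trans (mul_le_mul_of_nonneg_left ?_ H.l0)
        rw [norm_sub_rev]
        exact dist_nrm z w hz
      · simp only [dist_self]
        positivity
    have hn : 0 ≤ lam * (2 * ‖w - z‖ + (1 - ‖z‖)) := dist_nonneg.trans h4
    calc M2 * _ ≤ M2 * (lam * (2 * ‖w - z‖ + (1 - ‖z‖))) := mul_le_mul_of_nonneg_left h4 hM2
      _ ≤ (4 * A * (M1 * (1 + 5 * A)) + 4 * A * M1 + M2) *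
          (lam * (2 * ‖w - z‖ + (1 - ‖z‖))) := by
          refine mul_le_mul_of_nonneg_right ?_ hn
          have h5 : 0 ≤ 4 * A * (M1 * (1 + 5 * A)) := by positivity
          have h6 : 0 ≤ 4 * A * M1 := by positivity
          linarith
      _ = _ := by ring

/-- **The stage for homogeneous functions.** -/
theorem hom_stage {δ A : ℝ} (hδ : 0 < δ) (hδA : δ ≤ A) (hA : 1 ≤ A) (m N : ℕ) :
    ∃ C : ℝ, 1 ≤ C ∧ ∀ (L : ℕ) (lam : ℝ) (F P : E m → Fin N → ℂ), Fz δ A lam L F P →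
    ∀ ε : ℝ, 0 < ε → ∃ M : Fin N → Fin N → E m → ℂ, (∀ i j, Differentiable ℂ (M i j)) ∧
      ∀ z, ‖z‖ ≤ 1 → ∀ i, (∀ j, ‖M i j z‖ ≤ C * (‖P z i‖ + lam / Real.sqrt L)) ∧
        ‖∑ j, M i j z * (F z j + P z j) - P z i‖ ≤ C * (lam / Real.sqrt L) + ε := by
  obtain ⟨B, Λ, hB, hΛ, h⟩ := Fz.stg hδ hδA hA m N
  have hA0 : 0 < A := by linarith
  have hd : δ / (2 * A) ≤ 1 := by
    rw [div_le_one (by positivity)]
    linarith
  obtain ⟨C, hC, h2⟩ := stage m N hA hB hΛ (show 0 ≤ 1 - δ / (2 * A) by linarith)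
    (show 1 - δ / (2 * A) < 1 by
      have : 0 < δ / (2 * A) := by positivity
      linarith)
  exact ⟨C, hC, fun L lam F P H ε hε => h2 _ _ _ _ _ _ _ _ (h L lam F P H) ε hε⟩

end Pool.Agent.K9h23.Hom
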