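import Mathlib

/-!
Power series with gaps: bounds of the coefficients, choice of phases.
-/

set_option autoImplicit false

open MeasureTheory Complex Set
open scoped Real

namespace Pool.Agent.K9h23.Hom

/-- the coefficients of a bounded function -/
theorem coef_le {c : ℕ → ℂ} (hs : Summable c) {M : ℝ}
    (hM : ∀ ω : ℂ, ‖ω‖ = 1 → ‖∑' k, c k * ω ^ k‖ ≤ M) (k : ℕ) : ‖c k‖ ≤ M := by
  have hsn : Summable (fun k => ‖c k‖) := hs.norm
  set μ : Measure ℝ := volume.restrict (Ioc 0 (2 * π)) with hμ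
  have hμv : μ.real univ = 2 * π := by
    rw [hμ]
    simp [Measure.real, Real.pi_pos.le]
  set F : ℕ → ℝ → ℂ := fun i θ => c i * cexp ((((i : ℂ) - k) * I) * θ) with hF
  have hFn : ∀ i θ, ‖F i θ‖ = ‖c i‖ := by
    intro i θ
    rw [hF]
    simp only
    rw [norm_mul, Complex.norm_exp]
    have : ((((i : ℂ) - k) * I) * θ).re = 0 := by
      have : ((((i : ℂ) - k) * I) * θ) = (((i : ℝ) - k) * θ : ℝ) * I := by push_cast; ring
      rw [this]
      simp
    rw [this, Real.exp_zero, mul_one]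
  have hFc : ∀ i, Continuous (F i) := by
    intro i
    rw [hF]
    fun_prop
  have hFi : ∀ i, Integrable (F i) μ := by
    intro i
    refine Integrable.mono' (integrable_const ‖c i‖) (hFc i).aestronglyMeasurable
      (Filter.Eventually.of_forall fun θ => (hFn i θ).le)
  have hsum : Summable fun i => ∫ θ, ‖F i θ‖ ∂μ := by
    have : (fun i => ∫ θ, ‖F i θ‖ ∂μ) = fun i => ‖c i‖ * (2 * π) := by
      funext i
      simp_rw [hFn]
      rw [integral_const, hμv, smul_eq_mul, mul_comm]
    rw [this]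
    exact hsn.mul_right _
  have h1 := hasSum_integral_of_summable_integral_norm hFi hsum
  have h2 : ∀ i, i ≠ k → ∫ θ, F i θ ∂μ = 0 := by
    intro i hi
    rw [hμ, hF]
    simp only
    rw [integral_const_mul, ← intervalIntegral.integral_of_le (by positivity)]
    have hc : (((i : ℂ) - k) * I) ≠ 0 := by
      apply mul_ne_zero _ I_ne_zero
      rw [sub_ne_zero]
      exact_mod_cast hi
    rw [integral_exp_mul_complex hc]
    have h3 : cexp ((((i : ℂ) - k) * I) * ((2 * π : ℝ) : ℂ)) = 1 := by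
      have : ((((i : ℂ) - k) * I) * ((2 * π : ℝ) : ℂ)) = (((i : ℤ) - (k : ℤ) : ℤ) : ℂ) * (2 * π * I) := by
        push_cast; ring
      rw [this, Complex.exp_int_mul_two_pi_mul_I]
    rw [h3]
    simp
  have h3 : ∫ θ, F k θ ∂μ = (2 * π : ℝ) * c k := by
    rw [hF]
    simp only [sub_self, zero_mul, Complex.exp_zero, mul_one]
    rw [integral_const, hμv, Complex.real_smul]
  have h4 := h1.unique (hasSum_single k h2)
  rw [h3] at h4
  have h5 : ‖∫ θ, ∑' i, F i θ ∂μ‖ ≤ M * (2 * π) := by
    rw [← hμv]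
    refine norm_integral_le_of_norm_le_const (Filter.Eventually.of_forall fun θ => ?_)
    have h6 : ∑' i, F i θ = cexp (-(k * I * θ)) * ∑' i, c i * cexp (θ * I) ^ i := by
      rw [← tsum_mul_left]
      refine tsum_congr fun i => ?_
      rw [hF]
      simp only
      have h8 : cexp ((((i : ℂ) - k) * I) * θ) = cexp (-(k * I * θ)) * cexp (i * (θ * I)) := by
        rw [← Complex.exp_add]
        ring_nf
      rw [← Complex.exp_nat_mul, h8]
      ring
    rw [h6, norm_mul]
    have h7 : ‖cexp (-(k * I * θ))‖ = 1 := by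
      have : -((k : ℂ) * I * θ) = ((-(k * θ) : ℝ) : ℂ) * I := by push_cast; ring
      rw [this, Complex.norm_exp_ofReal_mul_I]
    rw [h7, one_mul]
    exact hM _ (Complex.norm_exp_ofReal_mul_I θ)
  rw [h4, norm_mul, Complex.norm_real, Real.norm_of_nonneg (by positivity)] at h5
  have hpi := Real.pi_pos
  nlinarith

/-- powers of unimodular numbers -/
theorem pow_sub_one_le {ω : ℂ} (h : ‖ω‖ ≤ 1) (k : ℕ) : ‖ω ^ k - 1‖ ≤ k * ‖ω - 1‖ := by
  have h1 : ω ^ k - 1 = (∑ i ∈ Finset.range k, ω ^ i) * (ω - 1) := (geom_sum_mul ω k).symm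
  rw [h1, norm_mul]
  refine mul_le_mul_of_nonneg_right ?_ (norm_nonneg _)
  refine (norm_sum_le _ _).trans ?_
  refine (Finset.sum_le_card_nsmul _ _ 1 fun i _ => ?_).trans (le_of_eq ?_)
  · rw [norm_pow]
    exact pow_le_one₀ (norm_nonneg _) h
  · rw [nsmul_eq_mul, mul_one, Finset.card_range]

/-- roots: every `ξ ≠ 0` of norm at most one has a root of order `L` near `1` -/
theorem exists_root {ξ : ℂ} (h0 : ξ ≠ 0) {L : ℕ} (hL : 1 ≤ L) :
    ∃ ω : ℂ, ω ^ L = ξ ∧ ‖ω‖ = ‖ξ‖ ^ (1 / (L : ℝ)) ∧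
      (‖Complex.log ξ‖ ≤ L → ‖ω - 1‖ ≤ 2 * (‖Complex.log ξ‖ / L)) := by
  have hL0 : (0:ℝ) < L := by exact_mod_cast hL
  have hLc : (L : ℂ) ≠ 0 := by exact_mod_cast hL0.ne'
  refine ⟨cexp (Complex.log ξ / L), ?_, ?_, fun h => ?_⟩
  · rw [← Complex.exp_nat_mul, mul_div_cancel₀ _ hLc, Complex.exp_log h0]
  · rw [Complex.norm_exp]
    have h1 : (Complex.log ξ / L).re = Real.log ‖ξ‖ / L := by
      have : (Complex.log ξ / L) = ((1 / (L:ℝ) : ℝ) : ℂ) * Complex.log ξ := by
        push_cast; ring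
      rw [this, Complex.re_ofReal_mul, Complex.log_re]
      ring
    rw [h1, Real.rpow_def_of_pos (norm_pos_iff.2 h0)]
    ring_nf
  · have h1 : ‖Complex.log ξ / L‖ = ‖Complex.log ξ‖ / L := by
      rw [norm_div, Complex.norm_natCast]
    have h2 : ‖Complex.log ξ / L‖ ≤ 1 := by
      rw [h1, div_le_one hL0]
      exact h
    have h3 := Complex.norm_exp_sub_one_le h2
    rw [h1] at h3
    exact h3

/-- **Choice of the phases.** -/
theorem phases {l : ℕ → ℕ} (h1 : 1 ≤ l 0) (hl : ∀ i, 20 * l i ≤ l (i + 1)) (p : ℕ → ℂ) (M : ℕ) :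
    ∃ ω : ℂ, ‖ω‖ = 1 ∧ ∀ i, i < M → (1 / 2) * ‖p i‖ ≤ (ω ^ (l i) * p i).re := by
  have hpos : ∀ i, 1 ≤ l i := by
    intro i
    induction i with
    | zero => exact h1
    | succ i ih => have := hl i; omega
  have hgrow : ∀ i k, (20:ℝ) ^ k * l i ≤ l (i + k) := by
    intro i k
    induction k with
    | zero => simp
    | succ k ih =>
      have h2 := hl (i + k)
      have h3 : (20:ℝ) * l (i + k) ≤ l (i + (k + 1)) := by
        rw [← add_assoc]
        exact_mod_cast h2
      rw [pow_succ]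
      linarith
  -- the inductive statement
  have key : ∀ M : ℕ, ∃ ω : ℂ, ‖ω‖ = 1 ∧ ∀ i, i < M → ‖ω ^ (l i) * p i - ‖p i‖‖ ≤
      (∑ k ∈ Finset.range (M - 1 - i), 7 * (1 / 20) ^ (k + 1)) * ‖p i‖ := by
    intro M
    induction M with
    | zero => exact ⟨1, by simp, fun i hi => absurd hi (Nat.not_lt_zero i)⟩
    | succ M ih =>
      obtain ⟨ω, hω, hωi⟩ := ih
      have hω0 : ω ≠ 0 := by
        intro h; rw [h, norm_zero] at hω; exact zero_ne_one hω
      -- the target
      obtain ⟨t, ht1, ht2⟩ : ∃ t : ℂ, ‖t‖ = 1 ∧ t * (ω ^ (l M) * p M) = ‖p M‖ := by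
        by_cases hp : p M = 0
        · exact ⟨1, by simp, by rw [hp]; simp⟩
        · have hpn : (‖p M‖ : ℂ) ≠ 0 := by exact_mod_cast norm_ne_zero_iff.2 hp
          refine ⟨‖p M‖ / (ω ^ (l M) * p M), ?_, ?_⟩
          · rw [norm_div, norm_mul, norm_pow, hω, one_pow, one_mul, Complex.norm_real, norm_norm]
            exact div_self (norm_ne_zero_iff.2 hp)
          · rw [div_mul_cancel₀]
            exact mul_ne_zero (pow_ne_zero _ hω0) hp
      have ht0 : t ≠ 0 := by
        intro h; rw [h, norm_zero] at ht1; exact zero_ne_one ht1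
      have hLM : (0:ℝ) < l M := by exact_mod_cast hpos M
      set ν : ℂ := cexp (((Complex.arg t / l M : ℝ) : ℂ) * I) with hν
      have hν1 : ‖ν‖ = 1 := Complex.norm_exp_ofReal_mul_I _
      have hνL : ν ^ (l M) = t := by
        rw [hν, ← Complex.exp_nat_mul]
        have : ((l M : ℕ) : ℂ) * (((Complex.arg t / l M : ℝ) : ℂ) * I) = (Complex.arg t : ℂ) * I := by
          push_cast
          have : ((l M : ℕ) : ℂ) ≠ 0 := by exact_mod_cast hLM.ne'
          field_simp
        rw [this]
        have h2 := Complex.norm_mul_exp_arg_mul_I t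
        rw [ht1, Complex.ofReal_one, one_mul] at h2
        exact h2
      have hνd : ‖ν - 1‖ ≤ 3.5 / l M := by
        have h2 : ‖ν - 1‖ ≤ |Complex.arg t / l M| := by
          rw [hν]
          have h3 := Real.norm_exp_I_mul_ofReal_sub_one_le (x := Complex.arg t / l M)
          rw [mul_comm] at h3
          exact h3
        refine h2.trans ?_
        rw [abs_div, abs_of_pos hLM]
        apply div_le_div_of_nonneg_right _ hLM.le
        have h4 := Complex.abs_arg_le_pi t
        have h5 := Real.pi_lt_d2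
        norm_num at h5 ⊢
        linarith
      refine ⟨ω * ν, by rw [norm_mul, hω, hν1, one_mul], fun i hi => ?_⟩
      rcases Nat.lt_succ_iff_lt_or_eq.1 hi with hi' | hi'
      · have h2 := hωi i hi'
        have e1 : (ω * ν) ^ (l i) * p i - ‖p i‖ = (ω ^ (l i) * p i - ‖p i‖) +
            (ν ^ (l i) - 1) * (ω ^ (l i) * p i) := by
          rw [mul_pow]; ring
        rw [e1]
        refine (norm_add_le _ _).trans ?_
        have h3 : ‖(ν ^ (l i) - 1) * (ω ^ (l i) * p i)‖ ≤ 7 * (1 / 20) ^ (M - 1 - i + 1) * ‖p i‖ := by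
          rw [norm_mul, norm_mul, norm_pow, hω, one_pow, one_mul]
          refine mul_le_mul_of_nonneg_right ?_ (norm_nonneg _)
          refine (pow_sub_one_le hν1.le (l i)).trans ?_
          have h4 := hgrow i (M - i)
          have h5 : i + (M - i) = M := by omega
          rw [h5] at h4
          have h6 : M - 1 - i + 1 = M - i := by omega
          rw [h6]
          calc (l i : ℝ) * ‖ν - 1‖ ≤ l i * (3.5 / l M) :=
                mul_le_mul_of_nonneg_left hνd (Nat.cast_nonneg _)
            _ ≤ 7 * (1 / 20) ^ (M - i) := by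
                rw [mul_div_assoc', div_le_iff₀ hLM]
                have h7 : (1 / 20 : ℝ) ^ (M - i) * 20 ^ (M - i) = 1 := by
                  rw [← mul_pow]; norm_num
                have h8 : 0 < (1 / 20 : ℝ) ^ (M - i) := by positivity
                have h9 : (l i : ℝ) = (1 / 20 : ℝ) ^ (M - i) * (20 ^ (M - i) * l i) := by
                  rw [← mul_assoc, h7, one_mul]
                have h10 : (l i : ℝ) ≤ (1 / 20 : ℝ) ^ (M - i) * l M := by
                  rw [h9]
                  exact mul_le_mul_of_nonneg_left h4 h8.le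
                have h11 : 0 ≤ (1 / 20 : ℝ) ^ (M - i) * l M := by positivity
                nlinarith
        have h4 : M + 1 - 1 - i = (M - 1 - i) + 1 := by omega
        rw [h4, Finset.sum_range_succ, add_mul]
        exact add_le_add h2 h3
      · have h2 : (ω * ν) ^ (l i) * p i - ‖p i‖ = 0 := by
          rw [hi', mul_pow, hνL, ← ht2]
          ring
        rw [h2, norm_zero]
        exact mul_nonneg (Finset.sum_nonneg fun _ _ => by positivity) (norm_nonneg _)
  obtain ⟨ω, hω, hωi⟩ := key M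
  refine ⟨ω, hω, fun i hi => ?_⟩
  have h2 := hωi i hi
  have h3 : ∑ k ∈ Finset.range (M - 1 - i), (7:ℝ) * (1 / 20) ^ (k + 1) ≤ 1 / 2 := by
    have h4 : ∑ k ∈ Finset.range (M - 1 - i), (7:ℝ) * (1 / 20) ^ (k + 1) =
        7 / 20 * ∑ k ∈ Finset.range (M - 1 - i), (1 / 20 : ℝ) ^ k := by
      rw [Finset.mul_sum]
      exact Finset.sum_congr rfl fun k _ => by rw [pow_succ]; ring
    rw [h4]
    have h5 : ∑ k ∈ Finset.range (M - 1 - i), (1 / 20 : ℝ) ^ k ≤ 20 / 19 := by
      have h6 := (summable_geometric_of_lt_one (r := (1 / 20 : ℝ)) (by norm_num)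
        (by norm_num)).sum_le_tsum (Finset.range (M - 1 - i)) (fun _ _ => by positivity)
      rw [tsum_geometric_of_lt_one (by norm_num) (by norm_num)] at h6
      norm_num at h6 ⊢
      linarith
    linarith
  have h4 : ‖ω ^ (l i) * p i - ‖p i‖‖ ≤ 1 / 2 * ‖p i‖ :=
    h2.trans (mul_le_mul_of_nonneg_right h3 (norm_nonneg _))
  have h5 := Complex.abs_re_le_norm (ω ^ (l i) * p i - ‖p i‖)
  rw [Complex.sub_re, Complex.ofReal_re] at h5
  have h6 := (abs_le.1 (h5.trans h4)).1
  linarith

end Pool.Agent.K9h23.Hom
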