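import Mathlib
import Pool.Agent.K9h23.Hom.HSt
import Pool.Agent.K9h23.Hom.Ser

/-!
Homogeneous expansions with gaps: bounds, values of the frozen functions, absolute convergence.
-/

set_option autoImplicit false

open Complex Set Metric Filter Topology
open scoped Real

namespace Pool.Agent.K9h23.Hom

open Pool.Agent.K9h23.Lac (nsq nsq_nonneg nsq_c nn nn_nonneg nn_sq nn_add_le le_nsq nsq_smul' bd
  bd_le_nn comp_le_nn nsq_conj nn_le_comp)

variable {m N d : ℕ}

/-- homogeneous expansions with gaps -/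
structure Dat (d : ℕ) (l : ℕ → ℕ) (H : ℕ → E m → Fin N → ℂ) (f : E m → Fin N → ℂ) : Prop where
  Hd : ∀ k j, Differentiable ℂ (fun z => H k z j)
  Hh : ∀ k (c : ℂ) z j, H k (c • z) j = c ^ k * H k z j
  Hs : ∀ z, ‖z‖ < 1 → ∀ j, HasSum (fun k => H k z j) (f z j)
  sp : ∀ k, d < k → (∀ i, l i ≠ k) → ∀ z j, H k z j = 0
  fb : ∀ z, ‖z‖ < 1 → nn (f z) ≤ 1
  lm : StrictMono l
  ld : d < l 0

/-- the degree of the partial sums -/
def Dg (d : ℕ) (l : ℕ → ℕ) : ℕ → ℕ
  | 0 => d
  | i + 1 => l i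

/-- the partial sums -/
noncomputable def FF (d : ℕ) (l : ℕ → ℕ) (H : ℕ → E m → Fin N → ℂ) (i : ℕ) (z : E m)
    (j : Fin N) : ℂ := ∑ k ∈ Finset.range (Dg d l i + 1), H k z j

variable {l : ℕ → ℕ} {H : ℕ → E m → Fin N → ℂ} {f : E m → Fin N → ℂ}

theorem Dat.ball (D : Dat d l H f) {z : E m} (hz : ‖z‖ < 1) (k : ℕ) (j : Fin N) :
    ‖H k z j‖ ≤ 1 := by
  refine coef_le (c := fun k => H k z j) (D.Hs z hz j).summable (fun ω hω => ?_) k
  have h1 : ‖ω • z‖ < 1 := by rw [norm_smul, hω, one_mul]; exact hz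
  have h2 := D.Hs _ h1 j
  have h3 : (fun k => H k (ω • z) j) = fun k => H k z j * ω ^ k := by
    funext k
    rw [D.Hh, mul_comm]
  rw [h3] at h2
  rw [h2.tsum_eq]
  exact (comp_le_nn _ j).trans (D.fb _ h1)

theorem Dat.ho (D : Dat d l H f) (k : ℕ) (j : Fin N) : Ho k 1 (fun z => H k z j) := by
  refine ⟨D.Hd k j, fun c z => D.Hh k c z j, fun z hz => ?_⟩
  have h1 : ∀ r : ℝ, r ∈ Ioo (0:ℝ) 1 → r ^ k * ‖H k z j‖ ≤ 1 := by
    intro r hr
    have h2 : ‖(r : ℂ) • z‖ < 1 := by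
      rw [norm_smul, Complex.norm_real, Real.norm_of_nonneg hr.1.le]
      nlinarith [hr.1, hr.2, norm_nonneg z]
    have h3 := D.ball h2 k j
    rw [D.Hh, norm_mul, norm_pow, Complex.norm_real, Real.norm_of_nonneg hr.1.le] at h3
    exact h3
  have h2 : Tendsto (fun r : ℝ => r ^ k * ‖H k z j‖) (𝓝[<] 1) (𝓝 (1 ^ k * ‖H k z j‖)) :=
    (Continuous.tendsto (by fun_prop) 1).mono_left nhdsWithin_le_nhds
  rw [one_pow, one_mul] at h2
  refine le_of_tendsto h2 ?_
  filter_upwards [Ioo_mem_nhdsLT (show (0:ℝ) < 1 by norm_num)] with r hr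
  exact h1 r hr

theorem Dat.Dg_lt (D : Dat d l H f) (i : ℕ) : Dg d l i < l i := by
  cases i with
  | zero => exact D.ld
  | succ i => exact D.lm (Nat.lt_succ_self i)

theorem Dat.succ (D : Dat d l H f) (i : ℕ) (z : E m) (j : Fin N) :
    FF d l H (i + 1) z j = FF d l H i z j + H (l i) z j := by
  unfold FF
  change ∑ k ∈ Finset.range (l i + 1), H k z j = _
  rw [Finset.sum_range_succ]
  congr 1
  symm
  refine Finset.sum_subset (Finset.range_mono (D.Dg_lt i)) fun k hk hk' => ?_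
  rw [Finset.mem_range] at hk hk'
  have hdk : Dg d l i < k := by omega
  refine D.sp k ?_ (fun i' hi' => ?_) z j
  · cases i with
    | zero => exact hdk
    | succ i =>
      have h1 : d < l i := D.ld.trans_le (D.lm.monotone (Nat.zero_le i))
      have h2 : l i < k := hdk
      omega
  · have h1 : i' < i := by
      by_contra hcon
      have := D.lm.monotone (not_lt.1 hcon)
      omega
    cases i with
    | zero => exact absurd h1 (Nat.not_lt_zero _)
    | succ i =>
      have h2 : l i' ≤ l i := D.lm.monotone (by omega)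
      have h3 : l i < k := hdk
      omega

theorem Dat.FF_eq (D : Dat d l H f) (i : ℕ) (z : E m) (j : Fin N) :
    FF d l H i z j = ∑ k ∈ Finset.range (d + 1), H k z j + ∑ i ∈ Finset.range i, H (l i) z j := by
  induction i with
  | zero => simp [FF, Dg]
  | succ i ih => rw [D.succ, ih, Finset.sum_range_succ (fun i => H (l i) z j) i, add_assoc]

theorem Dat.block (D : Dat d l H f) {z : E m} (hz : ‖z‖ < 1) (j : Fin N) :
    HasSum (fun i => H (l i) z j) (f z j - ∑ k ∈ Finset.range (d + 1), H k z j) := by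
  classical
  set g0 : ℕ → ℂ := fun k => if k ∈ Finset.range (d + 1) then H k z j else 0 with hg0
  have h1 : HasSum g0 (∑ k ∈ Finset.range (d + 1), g0 k) :=
    hasSum_sum_of_ne_finset_zero fun k hk => if_neg hk
  have h2 : ∑ k ∈ Finset.range (d + 1), g0 k = ∑ k ∈ Finset.range (d + 1), H k z j :=
    Finset.sum_congr rfl fun k hk => if_pos hk
  rw [h2] at h1
  have h3 := (D.Hs z hz j).sub h1
  rw [← D.lm.injective.hasSum_iff] at h3
  · have e : (fun k => H k z j - g0 k) ∘ l = fun i => H (l i) z j := by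
      funext i
      have : l i ∉ Finset.range (d + 1) := by
        rw [Finset.mem_range]
        have := D.ld
        have := D.lm.monotone (Nat.zero_le i)
        omega
      simp only [Function.comp_apply, hg0, if_neg this, sub_zero]
    rwa [e] at h3
  · intro k hk
    by_cases hkd : k ∈ Finset.range (d + 1)
    · simp only [hg0, if_pos hkd, sub_self]
    · simp only [hg0, if_neg hkd, sub_zero]
      refine D.sp k ?_ (fun i hi => hk ⟨i, hi⟩) z j
      rw [Finset.mem_range] at hkd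
      omega

/-- the tail at a point `ω z` -/
theorem Dat.tail (D : Dat d l H f) {z : E m} (hz : ‖z‖ < 1) {ω : ℂ} (hω : ‖ω‖ ≤ 1) (j : Fin N)
    (M : ℕ) {x : ℝ} (hx0 : 0 ≤ x) (hx1 : x < 1) (hx : ∀ t, ‖ω‖ ^ (l (t + M)) ≤ x ^ (t + 1)) :
    ‖f (ω • z) j - (∑ k ∈ Finset.range (d + 1), ω ^ k * H k z j +
      ∑ i ∈ Finset.range M, ω ^ (l i) * H (l i) z j)‖ ≤ x / (1 - x) := by
  have h0 : ‖ω • z‖ < 1 := by
    rw [norm_smul]
    nlinarith [norm_nonneg z, norm_nonneg ω]
  have h1 := D.block h0 j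
  have h2 : HasSum (fun t => H (l (t + M)) (ω • z) j)
      (f (ω • z) j - (∑ k ∈ Finset.range (d + 1), ω ^ k * H k z j +
      ∑ i ∈ Finset.range M, ω ^ (l i) * H (l i) z j)) := by
    rw [hasSum_nat_add_iff (f := fun i => H (l i) (ω • z) j) M]
    have e : f (ω • z) j - (∑ k ∈ Finset.range (d + 1), ω ^ k * H k z j +
        ∑ i ∈ Finset.range M, ω ^ (l i) * H (l i) z j) +
        ∑ i ∈ Finset.range M, H (l i) (ω • z) j =
        f (ω • z) j - ∑ k ∈ Finset.range (d + 1), H k (ω • z) j := by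
      simp_rw [D.Hh]
      ring
    rw [e]
    exact h1
  have h3 : HasSum (fun t : ℕ => x ^ (t + 1)) (x / (1 - x)) := by
    have h4 := (hasSum_geometric_of_lt_one hx0 hx1).mul_left x
    have e : (fun t : ℕ => x ^ (t + 1)) = fun t => x * x ^ t := by
      funext t; rw [pow_succ, mul_comm]
    rw [e, div_eq_mul_inv]
    exact h4
  rw [← h2.tsum_eq]
  refine tsum_of_norm_bounded h3 fun t => ?_
  rw [D.Hh, norm_mul, norm_pow]
  have h5 := D.ball hz (l (t + M)) j
  calc ‖ω‖ ^ l (t + M) * ‖H (l (t + M)) z j‖ ≤ x ^ (t + 1) * 1 :=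
        mul_le_mul (hx t) h5 (norm_nonneg _) (by positivity)
    _ = _ := mul_one _

/-- the gap condition -/
structure Gp (d : ℕ) (l : ℕ → ℕ) (R : ℕ) (c : ℝ) : Prop where
  r : ∀ i, R * l i ≤ l (i + 1)
  q : ∀ i, (Dg d l i : ℝ) ^ 2 ≤ c * l i

theorem Gp.pow {R : ℕ} {c : ℝ} (G : Gp d l R c) (i t : ℕ) : R ^ t * l i ≤ l (i + t) := by
  induction t with
  | zero => simp
  | succ t ih =>
    have h1 := G.r (i + t)
    calc R ^ (t + 1) * l i = R * (R ^ t * l i) := by ring
      _ ≤ R * l (i + t) := Nat.mul_le_mul_left _ ih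
      _ ≤ l (i + (t + 1)) := by rw [← add_assoc]; exact h1

theorem sum_range_le (D : ℕ) : ∑ k ∈ Finset.range (D + 1), (k : ℝ) ≤ (D : ℝ) ^ 2 := by
  induction D with
  | zero => simp
  | succ D ih =>
    rw [Finset.sum_range_succ]
    push_cast
    have : (0:ℝ) ≤ D := Nat.cast_nonneg _
    nlinarith

/-- **The values of the frozen functions** are almost values of `f`. -/
theorem close {κ : ℝ} (hκ : 0 < κ) (hκ1 : κ ≤ 1) : ∃ R : ℕ, ∃ c : ℝ, 0 < c ∧
    ∀ (m N d : ℕ) (l : ℕ → ℕ) (H : ℕ → E m → Fin N → ℂ) (f : E m → Fin N → ℂ),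
    Dat d l H f → Gp d l R c → ∀ z, ‖z‖ < 1 → ∀ (i : ℕ) (ξ : ℂ), ‖ξ‖ ≤ 1 →
    ∃ z', ‖z'‖ < 1 ∧ ∀ j, ‖f z' j - (FF d l H i z j + ξ * H (l i) z j)‖ ≤ κ := by
  set ε : ℝ := κ / 16 with hε
  have hε0 : 0 < ε := by positivity
  have hε1 : ε ≤ 1 / 16 := by rw [hε]; linarith
  obtain ⟨R0, hR0⟩ := exists_pow_lt_of_lt_one (show 0 < κ / 8 by positivity)
    (show 1 - ε < 1 by linarith)
  set T : ℝ := |Real.log ε| + π with hT
  have hT0 : 0 < T := by have := Real.pi_pos; positivity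
  have hT1 : 1 ≤ T := by
    have := Real.pi_gt_three
    have := abs_nonneg (Real.log ε)
    linarith
  refine ⟨R0 + 2, κ / (8 * T), by positivity, fun m N d l H f D G z hz i ξ hξ => ?_⟩
  -- the point `ξ'`
  obtain ⟨ξ', hx1, hx2, hx3⟩ : ∃ ξ' : ℂ, ε ≤ ‖ξ'‖ ∧ ‖ξ'‖ ≤ 1 - ε ∧ ‖ξ' - ξ‖ ≤ 4 * ε := by
    rcases le_or_gt (2 * ε) ‖ξ‖ with h | h
    · refine ⟨((1 - ε : ℝ) : ℂ) * ξ, ?_, ?_, ?_⟩
      · rw [norm_mul, Complex.norm_real, Real.norm_of_nonneg (by linarith)]
        nlinarith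
      · rw [norm_mul, Complex.norm_real, Real.norm_of_nonneg (by linarith)]
        nlinarith
      · have : ((1 - ε : ℝ) : ℂ) * ξ - ξ = -((ε : ℝ) : ℂ) * ξ := by push_cast; ring
        rw [this, norm_mul, norm_neg, Complex.norm_real, Real.norm_of_nonneg hε0.le]
        nlinarith
    · refine ⟨((2 * ε : ℝ) : ℂ), ?_, ?_, ?_⟩
      · rw [Complex.norm_real, Real.norm_of_nonneg (by positivity)]; linarith
      · rw [Complex.norm_real, Real.norm_of_nonneg (by positivity)]; linarith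
      · refine (norm_sub_le _ _).trans ?_
        rw [Complex.norm_real, Real.norm_of_nonneg (by positivity)]; linarith
  have hξ0 : ξ' ≠ 0 := norm_pos_iff.1 (by linarith)
  have hli : 1 ≤ l i := by have := D.Dg_lt i; omega
  have hli0 : (0:ℝ) < l i := by exact_mod_cast hli
  obtain ⟨ω, hω1, hω2, hω3⟩ := exists_root hξ0 hli
  have hlog : ‖Complex.log ξ'‖ ≤ T := by
    refine (Complex.norm_le_abs_re_add_abs_im _).trans ?_
    rw [Complex.log_re, Complex.log_im, hT]
    refine add_le_add ?_ (Complex.abs_arg_le_pi _)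
    have h1 : Real.log ε ≤ Real.log ‖ξ'‖ := Real.log_le_log hε0 hx1
    have h2 : Real.log ‖ξ'‖ ≤ 0 := Real.log_nonpos (norm_nonneg _) (by linarith)
    rw [abs_of_nonpos h2, abs_of_nonpos (h1.trans h2)]
    linarith
  have hωn : ‖ω‖ ≤ 1 := by
    rw [hω2]
    exact Real.rpow_le_one (norm_nonneg _) (by linarith) (by positivity)
  have hωL : ‖ω‖ ^ (l i) = ‖ξ'‖ := by rw [← norm_pow, hω1]
  -- the sum over small degrees
  have hlow : ∀ g : ℕ → ℂ, (∀ k, ‖g k‖ ≤ 1) →
      ‖∑ k ∈ Finset.range (Dg d l i + 1), (ω ^ k - 1) * g k‖ ≤ κ / 4 := by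
    intro g hg
    rcases Nat.eq_zero_or_pos (Dg d l i) with h0 | h0
    · rw [h0]
      simp
      positivity
    · have hD1 : (1:ℝ) ≤ (Dg d l i : ℝ) ^ 2 := by
        have : (1:ℝ) ≤ Dg d l i := by exact_mod_cast h0
        nlinarith
      have hq := G.q i
      have hTl : T ≤ l i := by
        have h1 : 1 ≤ κ / (8 * T) * l i := hD1.trans hq
        rw [div_mul_eq_mul_div, le_div_iff₀ (by positivity)] at h1
        nlinarith
      have h2 := hω3 (hlog.trans hTl)
      refine (norm_sum_le _ _).trans ?_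
      have h3 : ∀ k ∈ Finset.range (Dg d l i + 1), ‖(ω ^ k - 1) * g k‖ ≤
          (k:ℝ) * (2 * (T / l i)) := by
        intro k _
        rw [norm_mul]
        calc ‖ω ^ k - 1‖ * ‖g k‖ ≤ ‖ω ^ k - 1‖ * 1 :=
              mul_le_mul_of_nonneg_left (hg k) (norm_nonneg _)
          _ ≤ k * ‖ω - 1‖ := by rw [mul_one]; exact pow_sub_one_le hωn k
          _ ≤ k * (2 * (T / l i)) := by
              refine mul_le_mul_of_nonneg_left (h2.trans ?_) (Nat.cast_nonneg _)
              exact mul_le_mul_of_nonneg_left (div_le_div_of_nonneg_right hlog hli0.le)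
                (by norm_num)
      refine (Finset.sum_le_sum h3).trans ?_
      rw [← Finset.sum_mul]
      calc (∑ k ∈ Finset.range (Dg d l i + 1), (k:ℝ)) * (2 * (T / l i)) ≤
            (Dg d l i : ℝ) ^ 2 * (2 * (T / l i)) :=
            mul_le_mul_of_nonneg_right (sum_range_le _) (by positivity)
        _ ≤ (κ / (8 * T) * l i) * (2 * (T / l i)) :=
            mul_le_mul_of_nonneg_right hq (by positivity)
        _ = κ / 4 := by field_simp; norm_num
  -- the tail
  have htail : ∀ t, ‖ω‖ ^ (l (t + (i + 1))) ≤ (κ / 8) ^ (t + 1) := by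
    intro t
    have h1 := G.pow i (t + 1)
    have h2 : R0 * (t + 1) ≤ (R0 + 2) ^ (t + 1) := by
      have h3 : t + 1 ≤ (R0 + 2) ^ t := by
        have h4 : t + 1 ≤ 2 ^ t := Nat.lt_two_pow_self
        exact h4.trans (Nat.pow_le_pow_left (by omega) t)
      rw [pow_succ]
      calc R0 * (t + 1) ≤ (R0 + 2) * (R0 + 2) ^ t := Nat.mul_le_mul (by omega) h3
        _ = _ := by ring
    have h3 : R0 * (t + 1) * l i ≤ l (t + (i + 1)) := by
      have : i + (t + 1) = t + (i + 1) := by omega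
      rw [this] at h1
      exact (Nat.mul_le_mul_right _ h2).trans h1
    calc ‖ω‖ ^ (l (t + (i + 1))) ≤ ‖ω‖ ^ (R0 * (t + 1) * l i) :=
          pow_le_pow_of_le_one (norm_nonneg _) hωn h3
      _ = (‖ξ'‖ ^ R0) ^ (t + 1) := by
          rw [← hωL]
          ring_nf
      _ ≤ (κ / 8) ^ (t + 1) := by
          refine pow_le_pow_left₀ (by positivity) ?_ _
          exact (pow_le_pow_left₀ (norm_nonneg _) hx2 R0).trans hR0.le
  have hz' : ‖ω • z‖ < 1 := by
    rw [norm_smul]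
    nlinarith [norm_nonneg z, norm_nonneg ω]
  refine ⟨ω • z, hz', fun j => ?_⟩
  have h1 := D.tail hz hωn j (i + 1) (x := κ / 8) (by positivity) (by linarith) htail
  have h2 := hlow (fun k => H k z j) (fun k => D.ball hz k j)
  -- the sum over degrees at most `Dg i`, twisted
  have h3 : ∑ k ∈ Finset.range (d + 1), ω ^ k * H k z j +
      ∑ i ∈ Finset.range i, ω ^ (l i) * H (l i) z j =
      ∑ k ∈ Finset.range (Dg d l i + 1), ω ^ k * H k z j := by
    have h4 := D.FF_eq i (ω • z) j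
    unfold FF at h4
    simp_rw [D.Hh] at h4
    exact h4.symm
  have e1 : f (ω • z) j - (FF d l H i z j + ξ * H (l i) z j) =
      (f (ω • z) j - (∑ k ∈ Finset.range (d + 1), ω ^ k * H k z j +
        ∑ i ∈ Finset.range (i + 1), ω ^ (l i) * H (l i) z j)) +
      ∑ k ∈ Finset.range (Dg d l i + 1), (ω ^ k - 1) * H k z j +
      (ξ' - ξ) * H (l i) z j := by
    rw [Finset.sum_range_succ (fun i => ω ^ (l i) * H (l i) z j) i, ← add_assoc, h3, hω1]
    have h5 : ∑ k ∈ Finset.range (Dg d l i + 1), (ω ^ k - 1) * H k z j =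
        ∑ k ∈ Finset.range (Dg d l i + 1), ω ^ k * H k z j - FF d l H i z j := by
      unfold FF
      rw [← Finset.sum_sub_distrib]
      exact Finset.sum_congr rfl fun k _ => by ring
    rw [h5]
    ring
  rw [e1]
  have h4 : ‖(ξ' - ξ) * H (l i) z j‖ ≤ κ / 4 := by
    rw [norm_mul]
    have h5 := D.ball hz (l i) j
    have h6 : ‖ξ' - ξ‖ * ‖H (l i) z j‖ ≤ (4 * ε) * 1 :=
      mul_le_mul hx3 h5 (norm_nonneg _) (by positivity)
    rw [hε] at h6
    linarith
  have h7 : κ / 8 / (1 - κ / 8) ≤ κ / 4 := by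
    rw [div_le_iff₀ (by linarith)]
    nlinarith
  refine (norm_add_le _ _).trans ?_
  have h8 := norm_add_le (f (ω • z) j - (∑ k ∈ Finset.range (d + 1), ω ^ k * H k z j +
        ∑ i ∈ Finset.range (i + 1), ω ^ (l i) * H (l i) z j))
      (∑ k ∈ Finset.range (Dg d l i + 1), (ω ^ k - 1) * H k z j)
  linarith

/-- **Absolute convergence.** -/
theorem Dat.sidon (D : Dat d l H f) (hl : ∀ i, 20 * l i ≤ l (i + 1)) {z : E m} (hz : ‖z‖ < 1)
    (j : Fin N) (M : ℕ) : ∑ i ∈ Finset.range M, ‖H (l i) z j‖ ≤ 2 * (d + 3) := by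
  have h1 := D.block hz j
  have hsn : Summable (fun i => ‖H (l i) z j‖) := h1.summable.norm
  -- the tail
  have htail := tendsto_sum_nat_add (fun i => ‖H (l i) z j‖)
  have hev : ∀ᶠ K in atTop, ∑' t, ‖H (l (t + K)) z j‖ < 1 :=
    htail.eventually_lt_const (by norm_num)
  obtain ⟨K, hK1, hKM⟩ := (hev.and (eventually_ge_atTop M)).exists
  have hl0 : 1 ≤ l 0 := by have := D.ld; omega
  obtain ⟨ω, hω, hωi⟩ := phases hl0 hl (fun i => H (l i) z j) K
  have hz' : ‖ω • z‖ < 1 := by rw [norm_smul, hω, one_mul]; exact hz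
  have h2 := D.block hz' j
  have h3 : HasSum (fun t => H (l (t + K)) (ω • z) j)
      (f (ω • z) j - ∑ k ∈ Finset.range (d + 1), H k (ω • z) j -
        ∑ i ∈ Finset.range K, H (l i) (ω • z) j) := by
    rw [hasSum_nat_add_iff (f := fun i => H (l i) (ω • z) j) K]
    rw [sub_add_cancel]
    exact h2
  have h4 : ‖f (ω • z) j - ∑ k ∈ Finset.range (d + 1), H k (ω • z) j -
        ∑ i ∈ Finset.range K, H (l i) (ω • z) j‖ ≤ 1 := by
    rw [← h3.tsum_eq]
    have h5 : (fun t => ‖H (l (t + K)) (ω • z) j‖) = fun t => ‖H (l (t + K)) z j‖ := by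
      funext t
      rw [D.Hh, norm_mul, norm_pow, hω, one_pow, one_mul]
    have h6 : Summable (fun t => ‖H (l (t + K)) (ω • z) j‖) := by
      rw [h5]
      exact (summable_nat_add_iff (f := fun i => ‖H (l i) z j‖) K).2 hsn
    refine (norm_tsum_le_tsum_norm h6).trans ?_
    rw [h5]
    exact hK1.le
  have h5 : ‖f (ω • z) j‖ ≤ 1 := (comp_le_nn _ j).trans (D.fb _ hz')
  have h6 : ‖∑ k ∈ Finset.range (d + 1), H k (ω • z) j‖ ≤ d + 1 := by
    refine (norm_sum_le _ _).trans ?_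
    refine (Finset.sum_le_card_nsmul _ _ 1 fun k _ => D.ball hz' k j).trans (le_of_eq ?_)
    rw [nsmul_eq_mul, mul_one, Finset.card_range]
    push_cast
    rfl
  have h7 : ‖∑ i ∈ Finset.range K, H (l i) (ω • z) j‖ ≤ d + 3 := by
    have e : ∑ i ∈ Finset.range K, H (l i) (ω • z) j =
        (f (ω • z) j - ∑ k ∈ Finset.range (d + 1), H k (ω • z) j) -
        (f (ω • z) j - ∑ k ∈ Finset.range (d + 1), H k (ω • z) j -
        ∑ i ∈ Finset.range K, H (l i) (ω • z) j) := by ring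
    rw [e]
    refine (norm_sub_le _ _).trans ?_
    have := norm_sub_le (f (ω • z) j) (∑ k ∈ Finset.range (d + 1), H k (ω • z) j)
    linarith
  have h8 : (∑ i ∈ Finset.range K, H (l i) (ω • z) j).re ≤ d + 3 :=
    (Complex.re_le_norm _).trans h7
  have h9 : (1 / 2) * ∑ i ∈ Finset.range K, ‖H (l i) z j‖ ≤
      (∑ i ∈ Finset.range K, H (l i) (ω • z) j).re := by
    rw [Complex.re_sum, Finset.mul_sum]
    refine Finset.sum_le_sum fun i hi => ?_
    rw [D.Hh]
    exact hωi i (Finset.mem_range.1 hi)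
  have h10 : ∑ i ∈ Finset.range M, ‖H (l i) z j‖ ≤ ∑ i ∈ Finset.range K, ‖H (l i) z j‖ :=
    Finset.sum_le_sum_of_subset_of_nonneg (Finset.range_mono hKM) fun _ _ _ => norm_nonneg _
  linarith

end Pool.Agent.K9h23.Hom
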