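import Mathlib
import Pool.Agent.K9h23.Lac.Iter
import Pool.Agent.K9h23.Hom.Gap

/-!
Lipschitz estimates for sums of homogeneous functions; limits of entire functions on the ball.
-/

set_option autoImplicit false

open Complex Set Metric Filter Topology
open scoped Real

namespace Pool.Agent.K9h23.Hom

open Pool.Agent.K9h23.Lac (nsq nsq_nonneg nsq_cont nsq_c nn nn_nonneg nn_sq nn_add_le le_nsq
  nsq_smul' bd bd_le_nn comp_le_nn nsq_conj nn_le_comp Bal isOpen_Bal)

variable {m N d : ℕ}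

/-- Lipschitz estimate from growth -/
theorem gr_lip {D : ℕ} (hD : 1 ≤ D) {M : ℝ} (hM : 0 ≤ M) {u : E m → ℂ} (hu : Differentiable ℂ u)
    (hg : ∀ x, ‖u x‖ ≤ M * max 1 ‖x‖ ^ D) {z w : E m}
    (hz : ‖z‖ ≤ 1) (hw : ‖w‖ ≤ 1) : ‖u z - u w‖ ≤ 6 * M * D * ‖z - w‖ := by
  have hl : (0:ℝ) < D := by exact_mod_cast hD
  have hl1 : (1:ℝ) ≤ D := by exact_mod_cast hD
  have hb : ∀ z : E m, ‖z‖ ≤ 1 → ‖u z‖ ≤ M := fun z hz => by
    have := hg z
    rwa [max_eq_left hz, one_pow, mul_one] at this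
  rcases le_or_gt 1 (D * ‖z - w‖) with h1 | h1
  · have h2 : ‖u z - u w‖ ≤ 2 * M := by
      refine (norm_sub_le _ _).trans ?_
      have := hb z hz
      have := hb w hw
      linarith
    have h3 : 0 ≤ M * (D * ‖z - w‖ - 1) := mul_nonneg hM (by linarith)
    nlinarith [norm_nonneg (z - w)]
  · by_cases hzw : z - w = 0
    · have : z = w := sub_eq_zero.1 hzw
      rw [this]; simp
    have hd : 0 < ‖z - w‖ := norm_pos_iff.2 hzw
    set R : ℝ := 1 / (D * ‖z - w‖) with hR
    have hR1 : 1 < R := by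
      rw [hR, lt_div_iff₀ (by positivity)]
      linarith
    have h2 := sch (φ := fun t => u (w + t • (z - w))) (M := 3 * M) (R := R) (by
      exact hu.comp ((differentiable_id.smul_const (z - w)).const_add w)) hR1
      (fun t ht => by
        refine (hg _).trans ?_
        rw [mul_comm 3 M]
        refine mul_le_mul_of_nonneg_left ?_ hM
        have h3 : ‖w + t • (z - w)‖ ≤ 1 + 1 / D := by
          refine (norm_add_le _ _).trans ?_
          rw [norm_smul]
          have h4 : ‖t‖ * ‖z - w‖ ≤ R * ‖z - w‖ := mul_le_mul_of_nonneg_right ht.le hd.le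
          have h5 : R * ‖z - w‖ = 1 / D := by rw [hR]; field_simp
          linarith
        have h3' : max 1 ‖w + t • (z - w)‖ ≤ 1 + 1 / D := max_le (by
          have : 0 ≤ 1 / (D:ℝ) := by positivity
          linarith) h3
        have h6 : (1:ℝ) + 1 / D ≤ Real.exp (1 / D) := by
          have := Real.add_one_le_exp (1 / (D:ℝ))
          linarith
        refine (pow_le_pow_left₀ (by positivity) (h3'.trans h6) D).trans ?_
        rw [← Real.exp_nat_mul]
        have : (D:ℝ) * (1 / D) = 1 := by field_simp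
        rw [this]
        exact exp_one_le)
    simp only [one_smul, zero_smul, add_zero] at h2
    have h3 : w + (z - w) = z := by abel
    rw [h3] at h2
    refine h2.trans (le_of_eq ?_)
    rw [hR]
    field_simp
    ring

/-- growth of polynomials of one variable -/
theorem poly_growth {D : ℕ} {c : ℕ → ℂ} {M : ℝ}
    (h : ∀ ζ : ℂ, ‖ζ‖ = 1 → ‖∑ k ∈ Finset.range (D + 1), ζ ^ k * c k‖ ≤ M) {ζ : ℂ}
    (hζ : 1 ≤ ‖ζ‖) : ‖∑ k ∈ Finset.range (D + 1), ζ ^ k * c k‖ ≤ M * ‖ζ‖ ^ D := by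
  set ψ : ℂ → ℂ := fun η => ∑ k ∈ Finset.range (D + 1), η ^ (D - k) * c k with hψ
  have hψd : Differentiable ℂ ψ := by
    refine Differentiable.fun_sum fun k _ => ?_
    exact (differentiable_id.pow _).mul_const _
  have hrel : ∀ η : ℂ, η ≠ 0 → ψ η = η ^ D * ∑ k ∈ Finset.range (D + 1), (η⁻¹) ^ k * c k := by
    intro η hη
    rw [hψ, Finset.mul_sum]
    refine Finset.sum_congr rfl fun k hk => ?_
    have hk' : k ≤ D := by rw [Finset.mem_range] at hk; omega
    have : η ^ D = η ^ (D - k) * η ^ k := by rw [← pow_add]; congr 1; omega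
    rw [this, inv_pow]
    field_simp
  have hmax : ∀ η : ℂ, ‖η‖ ≤ 1 → ‖ψ η‖ ≤ M := by
    intro η hη
    refine Complex.norm_le_of_forall_mem_frontier_norm_le (f := ψ) (U := ball (0:ℂ) 1) (C := M)
      isBounded_ball hψd.diffContOnCl (fun z hz => ?_) ?_
    · rw [frontier_ball (0:ℂ) one_ne_zero, mem_sphere_zero_iff_norm] at hz
      have hz0 : z ≠ 0 := by
        intro h0; rw [h0, norm_zero] at hz; exact zero_ne_one hz
      rw [hrel z hz0, norm_mul, norm_pow, hz, one_pow, one_mul]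
      exact h _ (by rw [norm_inv, hz, inv_one])
    · rw [closure_ball (0:ℂ) one_ne_zero, mem_closedBall_zero_iff]
      exact hη
  have hζ0 : ζ ≠ 0 := by
    intro h0; rw [h0, norm_zero] at hζ; linarith
  have h2 := hmax ζ⁻¹ (by rw [norm_inv]; exact inv_le_one_of_one_le₀ hζ)
  rw [hrel _ (inv_ne_zero hζ0), inv_inv, norm_mul, norm_pow, norm_inv] at h2
  have h3 : 0 < ‖ζ‖ ^ D := by positivity
  rw [inv_pow, inv_mul_le_iff₀ h3] at h2
  linarith

/-- Lipschitz estimate for the partial sums -/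
theorem FF_lip {l : ℕ → ℕ} {H : ℕ → E m → Fin N → ℂ} (hHd : ∀ k j, Differentiable ℂ (fun z => H k z j))
    (hHh : ∀ k (c : ℂ) z j, H k (c • z) j = c ^ k * H k z j) {i : ℕ} {M : ℝ} (hM : 0 ≤ M)
    (hb : ∀ z, ‖z‖ ≤ 1 → ∀ j, ‖FF d l H i z j‖ ≤ M) {z w : E m} (hz : ‖z‖ ≤ 1) (hw : ‖w‖ ≤ 1)
    (j : Fin N) : ‖FF d l H i z j - FF d l H i w j‖ ≤ 6 * M * (Dg d l i) * ‖z - w‖ := by
  have hd : Differentiable ℂ (fun z => FF d l H i z j) := by
    unfold FF
    exact Differentiable.fun_sum fun k _ => hHd k j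
  rcases Nat.eq_zero_or_pos (Dg d l i) with h0 | h0
  · have h1 : ∀ z, FF d l H i z j = H 0 0 j := by
      intro z
      unfold FF
      rw [h0]
      simp only [zero_add, Finset.range_one, Finset.sum_singleton]
      have := hHh 0 0 z j
      rw [zero_smul, pow_zero, one_mul] at this
      exact this.symm
    rw [h1 z, h1 w, sub_self, norm_zero, h0]
    simp
  · refine gr_lip h0 hM hd (fun x => ?_) hz hw
    rcases le_or_gt ‖x‖ 1 with hx | hx
    · rw [max_eq_left hx, one_pow, mul_one]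
      exact hb x hx j
    · rw [max_eq_right hx.le]
      have h1 : ∀ ζ : ℂ, FF d l H i (ζ • nrm x) j =
          ∑ k ∈ Finset.range (Dg d l i + 1), ζ ^ k * H k (nrm x) j := by
        intro ζ
        unfold FF
        exact Finset.sum_congr rfl fun k _ => hHh k ζ _ j
      have h2 := poly_growth (D := Dg d l i) (c := fun k => H k (nrm x) j) (M := M)
        (fun ζ hζ => by
          rw [← h1]
          refine hb _ ?_ j
          rw [norm_smul, hζ, one_mul]
          exact nrm_le x) (ζ := (‖x‖ : ℂ)) (by rw [Complex.norm_real, norm_norm]; exact hx.le)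
      rw [← h1, smul_nrm, Complex.norm_real, norm_norm] at h2
      exact h2

/-- limits of entire functions -/
theorem limit_ent {u : ℕ → (Fin m → ℂ) → ℂ} (hd : ∀ k, Differentiable ℂ (u k)) {a : ℕ → ℝ}
    (ha : Summable a) {C1 M : ℝ}
    (hcl : ∀ k : ℕ, ∀ r : ℝ, 0 < r → r < 1 → ∀ z : Fin m → ℂ, nsq z ≤ r ^ 2 →
      ‖u (k + 1) z - u k z‖ ≤ C1 * (a k + r ^ k))
    (hM : ∀ k, ∀ z ∈ Bal m, ‖u k z‖ ≤ M) :
    ∃ g : (Fin m → ℂ) → ℂ, DifferentiableOn ℂ g (Bal m) ∧
      ∀ z ∈ Bal m, Tendsto (fun k => u k z) atTop (𝓝 (g z)) := by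
  set g : (Fin m → ℂ) → ℂ := fun z => u 0 z + ∑' k, (u (k + 1) z - u k z) with hg
  have hu : ∀ r : ℝ, 0 < r → r < 1 → Summable (fun k : ℕ => C1 * (a k + r ^ k)) := by
    intro r hr0 hr1
    exact (ha.add (summable_geometric_of_lt_one hr0.le hr1)).mul_left _
  have hrad : ∀ z ∈ Bal m, ∃ r : ℝ, 0 < r ∧ r < 1 ∧ nsq z < r ^ 2 := by
    intro z hz
    have h1 : nsq z < 1 := hz
    have h0 := nsq_nonneg z
    refine ⟨Real.sqrt ((nsq z + 1) / 2), Real.sqrt_pos.2 (by linarith), ?_, ?_⟩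
    · rw [Real.sqrt_lt' one_pos]; linarith
    · rw [Real.sq_sqrt (by linarith)]; linarith
  have htend : ∀ z ∈ Bal m, Tendsto (fun k => u k z) atTop (𝓝 (g z)) := by
    intro z hz
    obtain ⟨r, hr0, hr1, hr⟩ := hrad z hz
    have h1 : Summable (fun k => u (k + 1) z - u k z) :=
      Summable.of_norm_bounded (hu r hr0 hr1) fun k => hcl k r hr0 hr1 z hr.le
    have h2 := h1.hasSum.tendsto_sum_nat
    have h3 := h2.const_add (u 0 z)
    refine h3.congr fun k => ?_
    rw [Finset.sum_range_sub (fun k => u k z)]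
    ring
  refine ⟨g, ?_, htend⟩
  refine Pool.Agent.Y263.GF.osg_fin m (Bal m) g M (isOpen_Bal m) (fun z hz => ?_) ?_
  · exact le_of_tendsto (htend z hz).norm (Eventually.of_forall fun k => hM k z hz)
  · intro x hx v
    obtain ⟨r, hr0, hr1, hr⟩ := hrad x hx
    have hcont : Continuous (fun t : ℂ => nsq (x + t • v)) := nsq_cont.comp (by fun_prop)
    have hev : ∀ᶠ t in 𝓝 (0:ℂ), nsq (x + t • v) < r ^ 2 := by
      refine hcont.continuousAt.eventually_lt continuousAt_const ?_
      simpa using hr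
    obtain ⟨ρ, hρ, hρ2⟩ := Metric.eventually_nhds_iff_ball.1 hev
    have hl : ∀ k, Differentiable ℂ (fun t : ℂ => u k (x + t • v)) := fun k =>
      (hd k).comp ((differentiable_id.smul_const v).const_add x)
    have hd' : DifferentiableOn ℂ (fun t : ℂ =>
        ∑' k, (u (k + 1) (x + t • v) - u k (x + t • v))) (Metric.ball 0 ρ) := by
      refine differentiableOn_tsum_of_summable_norm (hu r hr0 hr1)
        (fun k => ((hl _).sub (hl _)).differentiableOn) Metric.isOpen_ball fun k t ht => ?_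
      exact hcl k r hr0 hr1 _ (hρ2 t ht).le
    have hd2 := ((hl 0).differentiableOn (s := Metric.ball 0 ρ)).add hd'
    exact (hd2.differentiableAt (Metric.ball_mem_nhds 0 hρ))

end Pool.Agent.K9h23.Hom
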