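import Mathlib
import Pool.Agent.K9h23.Hom.Lim

/-!
The iteration over all scales, in an abstract form.
-/

set_option autoImplicit false

open Complex Set Metric Filter Topology
open scoped Real

namespace Pool.Agent.K9h23.Hom

open Pool.Agent.K9h23.Lac (nsq nsq_nonneg nsq_cont nsq_c nn nn_nonneg nn_sq nn_add_le le_nsq
  nsq_smul' bd bd_le_nn comp_le_nn nsq_conj nn_le_comp Bal isOpen_Bal)

variable {m N : ℕ}

/-- the sequence of approximate solutions -/
noncomputable def hseq (h0 : E m → Fin N → ℂ) (M : ℕ → Fin N → Fin N → E m → ℂ) :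
    ℕ → E m → Fin N → ℂ
  | 0 => h0
  | i + 1 => fun z j => hseq h0 M i z j - ∑ a, hseq h0 M i z a * M i a j z

/-- the hypotheses of the iteration -/
structure It (A B0 C S W c1 : ℝ) (F Q : ℕ → E m → Fin N → ℂ) (f : E m → Fin N → ℂ)
    (h0 : E m → Fin N → ℂ) (M : ℕ → Fin N → Fin N → E m → ℂ) (w : ℕ → E m → ℝ) (η : ℕ → ℝ) :
    Prop where
  A0 : 0 ≤ A
  B1 : 0 ≤ B0
  C0 : 0 ≤ C
  W0 : 0 ≤ W
  Fd : ∀ i j, Differentiable ℂ (fun z => F i z j)
  Fs : ∀ i z j, F (i + 1) z j = F i z j + Q i z j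
  FA : ∀ i z, ‖z‖ < 1 → ∀ j, ‖F i z j‖ ≤ A
  Ft : ∀ z, ‖z‖ < 1 → ∀ j, Tendsto (fun i => F i z j) atTop (𝓝 (f z j))
  hd : ∀ j, Differentiable ℂ (fun z => h0 z j)
  hb : ∀ z, ‖z‖ < 1 → ∀ j, ‖h0 z j‖ ≤ B0
  h1 : ∀ z, ‖z‖ < 1 → ‖∑ j, F 0 z j * h0 z j - 1‖ ≤ 1 / 4
  Md : ∀ i a j, Differentiable ℂ (M i a j)
  Mb : ∀ i z, ‖z‖ < 1 → ∀ a j, ‖M i a j z‖ ≤ C * (w i z + η i)
  Me : ∀ i z, ‖z‖ < 1 → ∀ a, ‖∑ j, M i a j z * (F i z j + Q i z j) - Q i z a‖ ≤ C * η i
  w0 : ∀ i z, 0 ≤ w i z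
  wS : ∀ z, ‖z‖ < 1 → ∀ K, ∑ i ∈ Finset.range K, w i z ≤ S
  wr : ∀ i z r, ‖z‖ ≤ r → r < 1 → w i z ≤ W * r ^ i
  η0 : ∀ i, 0 ≤ η i
  ηs : ∀ K, ∑ i ∈ Finset.range K, η i ≤ c1
  small : N * (B0 * Real.exp (N * C * (S + c1))) * C * c1 ≤ 1 / 4

variable {A B0 C S W c1 : ℝ} {F Q : ℕ → E m → Fin N → ℂ} {f : E m → Fin N → ℂ}
  {h0 : E m → Fin N → ℂ} {M : ℕ → Fin N → Fin N → E m → ℂ} {w : ℕ → E m → ℝ} {η : ℕ → ℝ}

theorem It.hd' (I : It A B0 C S W c1 F Q f h0 M w η) (i : ℕ) (j : Fin N) :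
    Differentiable ℂ (fun z => hseq h0 M i z j) := by
  induction i generalizing j with
  | zero => exact I.hd j
  | succ i ih =>
    exact (ih j).sub (Differentiable.fun_sum fun a _ => (ih a).mul (I.Md i a j))

theorem It.size0 (I : It A B0 C S W c1 F Q f h0 M w η) (i : ℕ) {z : E m} (hz : ‖z‖ < 1)
    (j : Fin N) : ‖hseq h0 M i z j‖ ≤
      B0 * Real.exp (N * C * ∑ t ∈ Finset.range i, (w t z + η t)) := by
  induction i generalizing j with
  | zero => simpa [hseq] using I.hb z hz j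
  | succ i ih =>
    set X := B0 * Real.exp (N * C * ∑ t ∈ Finset.range i, (w t z + η t)) with hX
    have hX0 : 0 ≤ X := mul_nonneg I.B1 (Real.exp_pos _).le
    set y := w i z + η i with hy
    have hy0 : 0 ≤ y := add_nonneg (I.w0 i z) (I.η0 i)
    have hC0 := I.C0
    have h1 : ‖hseq h0 M (i + 1) z j‖ ≤ X + N * (X * (C * y)) := by
      change ‖hseq h0 M i z j - ∑ a, hseq h0 M i z a * M i a j z‖ ≤ _
      refine (norm_sub_le _ _).trans (add_le_add (ih j) ?_)
      refine (norm_sum_le _ _).trans ?_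
      refine (Finset.sum_le_card_nsmul _ _ (X * (C * y)) fun a _ => ?_).trans (le_of_eq ?_)
      · rw [norm_mul]
        exact mul_le_mul (ih a) (I.Mb i z hz a j) (norm_nonneg _) hX0
      · rw [nsmul_eq_mul, Finset.card_univ, Fintype.card_fin]
    refine h1.trans ?_
    have e : (N:ℝ) * C * (∑ t ∈ Finset.range i, (w t z + η t) + y) =
        N * C * ∑ t ∈ Finset.range i, (w t z + η t) + N * C * y := by ring
    have e2 : B0 * Real.exp (N * C * ∑ t ∈ Finset.range (i + 1), (w t z + η t)) =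
        X * Real.exp (N * C * y) := by
      rw [Finset.sum_range_succ, ← hy, e, Real.exp_add, hX]
      ring
    rw [e2]
    have h2 := Real.add_one_le_exp (N * C * y)
    calc X + N * (X * (C * y)) = X * (N * C * y + 1) := by ring
      _ ≤ X * Real.exp (N * C * y) := mul_le_mul_of_nonneg_left h2 hX0

theorem It.c10 (I : It A B0 C S W c1 F Q f h0 M w η) : 0 ≤ c1 := by
  have := I.ηs 0
  simpa using this

theorem It.size (I : It A B0 C S W c1 F Q f h0 M w η) (i : ℕ) {z : E m} (hz : ‖z‖ < 1)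
    (j : Fin N) : ‖hseq h0 M i z j‖ ≤ B0 * Real.exp (N * C * (S + c1)) := by
  refine (I.size0 i hz j).trans (mul_le_mul_of_nonneg_left (Real.exp_le_exp.2 ?_) I.B1)
  have hC0 := I.C0
  refine mul_le_mul_of_nonneg_left ?_ (by positivity)
  rw [Finset.sum_add_distrib]
  exact add_le_add (I.wS z hz i) (I.ηs i)

theorem It.step (I : It A B0 C S W c1 F Q f h0 M w η) (i : ℕ) {z : E m} (hz : ‖z‖ < 1) :
    ‖∑ j, F (i + 1) z j * hseq h0 M (i + 1) z j - ∑ j, F i z j * hseq h0 M i z j‖ ≤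
      N * (B0 * Real.exp (N * C * (S + c1))) * C * η i := by
  set B := B0 * Real.exp (N * C * (S + c1)) with hB
  have hB0 : 0 ≤ B := mul_nonneg I.B1 (Real.exp_pos _).le
  have e1 : ∑ j, F (i + 1) z j * hseq h0 M (i + 1) z j - ∑ j, F i z j * hseq h0 M i z j =
      -∑ a, hseq h0 M i z a * (∑ j, M i a j z * (F i z j + Q i z j) - Q i z a) := by
    have h2 : ∀ j, F (i + 1) z j * hseq h0 M (i + 1) z j = F i z j * hseq h0 M i z j +
        Q i z j * hseq h0 M i z j -
        ∑ a, hseq h0 M i z a * (M i a j z * (F i z j + Q i z j)) := by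
      intro j
      rw [I.Fs]
      change (F i z j + Q i z j) * (hseq h0 M i z j - ∑ a, hseq h0 M i z a * M i a j z) = _
      rw [mul_sub, Finset.mul_sum]
      have : ∀ a, (F i z j + Q i z j) * (hseq h0 M i z a * M i a j z) =
          hseq h0 M i z a * (M i a j z * (F i z j + Q i z j)) := fun a => by ring
      simp_rw [this]
      ring
    simp_rw [h2]
    rw [Finset.sum_sub_distrib, Finset.sum_add_distrib, Finset.sum_comm]
    have h3 : ∑ a, hseq h0 M i z a * (∑ j, M i a j z * (F i z j + Q i z j) - Q i z a) =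
        ∑ a, ∑ j, hseq h0 M i z a * (M i a j z * (F i z j + Q i z j)) -
        ∑ a, Q i z a * hseq h0 M i z a := by
      rw [← Finset.sum_sub_distrib]
      refine Finset.sum_congr rfl fun a _ => ?_
      rw [mul_sub, Finset.mul_sum]
      ring
    rw [h3]
    ring
  rw [e1, norm_neg]
  refine (norm_sum_le _ _).trans ?_
  refine (Finset.sum_le_card_nsmul _ _ (B * (C * η i)) fun a _ => ?_).trans (le_of_eq ?_)
  · rw [norm_mul]
    exact mul_le_mul (I.size i hz a) (I.Me i z hz a) (norm_nonneg _) hB0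
  · rw [nsmul_eq_mul, Finset.card_univ, Fintype.card_fin]
    ring

theorem It.bez (I : It A B0 C S W c1 F Q f h0 M w η) (i : ℕ) {z : E m} (hz : ‖z‖ < 1) :
    ‖∑ j, F i z j * hseq h0 M i z j - 1‖ ≤ 1 / 2 := by
  set B := B0 * Real.exp (N * C * (S + c1)) with hB
  have hB0 : 0 ≤ B := mul_nonneg I.B1 (Real.exp_pos _).le
  have h1 : ∀ i, ‖∑ j, F i z j * hseq h0 M i z j - 1‖ ≤
      1 / 4 + N * B * C * ∑ t ∈ Finset.range i, η t := by
    intro i
    induction i with
    | zero => simpa [hseq] using I.h1 z hz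
    | succ i ih =>
      have e : ∑ j, F (i + 1) z j * hseq h0 M (i + 1) z j - 1 =
          (∑ j, F (i + 1) z j * hseq h0 M (i + 1) z j - ∑ j, F i z j * hseq h0 M i z j) +
          (∑ j, F i z j * hseq h0 M i z j - 1) := by ring
      rw [e]
      refine (norm_add_le _ _).trans ?_
      have := I.step i hz
      rw [← hB] at this
      rw [Finset.sum_range_succ, mul_add]
      linarith
  refine (h1 i).trans ?_
  have h2 : N * B * C * ∑ t ∈ Finset.range i, η t ≤ N * B * C * c1 := by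
    have hC0 := I.C0
    exact mul_le_mul_of_nonneg_left (I.ηs i) (by positivity)
  have h3 := I.small
  rw [← hB] at h3
  linarith

theorem nsq_toLp (z : Fin m → ℂ) : ‖(WithLp.toLp 2 z : E m)‖ ^ 2 = nsq z :=
  EuclideanSpace.norm_sq_eq _

theorem toLp_lt {z : Fin m → ℂ} (hz : z ∈ Bal m) : ‖(WithLp.toLp 2 z : E m)‖ < 1 := by
  have h1 : nsq z < 1 := hz
  rw [← nsq_toLp] at h1
  nlinarith [norm_nonneg (WithLp.toLp 2 z : E m)]

theorem toLp_le {z : Fin m → ℂ} {r : ℝ} (hr : 0 ≤ r) (hz : nsq z ≤ r ^ 2) :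
    ‖(WithLp.toLp 2 z : E m)‖ ≤ r := by
  rw [← nsq_toLp] at hz
  exact le_of_sq_le_sq hz hr

theorem toLp_diff {u : E m → ℂ} (hu : Differentiable ℂ u) :
    Differentiable ℂ (fun z : Fin m → ℂ => u (WithLp.toLp 2 z)) :=
  hu.comp ((PiLp.continuousLinearEquiv 2 ℂ (fun _ : Fin m => ℂ)).symm).differentiable

/-- **The iteration.** -/
theorem It.main (I : It A B0 C S W c1 F Q f h0 M w η) :
    ∃ g : Fin N → (Fin m → ℂ) → ℂ, (∀ j, DifferentiableOn ℂ (g j) (Bal m)) ∧
      (∀ z ∈ Bal m, ∀ j, ‖g j z‖ ≤ 2 * (B0 * Real.exp (N * C * (S + c1)))) ∧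
      ∀ z ∈ Bal m, ∑ j, f (WithLp.toLp 2 z) j * g j z = 1 := by
  set B := B0 * Real.exp (N * C * (S + c1)) with hB
  have hB0 : 0 ≤ B := mul_nonneg I.B1 (Real.exp_pos _).le
  have hC0 := I.C0
  have hW0 := I.W0
  have hηs : Summable η := summable_of_sum_range_le I.η0 I.ηs
  set C1 : ℝ := N * B * C * (W + 1) with hC1
  have hC10 : 0 ≤ C1 := by positivity
  have hNB : N * B * C ≤ C1 := by
    rw [hC1]
    have : 0 ≤ N * B * C := by positivity
    nlinarith
  -- the limits of the components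
  have hlim : ∀ j, ∃ g : (Fin m → ℂ) → ℂ, DifferentiableOn ℂ g (Bal m) ∧
      ∀ z ∈ Bal m, Tendsto (fun k => hseq h0 M k (WithLp.toLp 2 z) j) atTop (𝓝 (g z)) := by
    intro j
    refine limit_ent (u := fun k z => hseq h0 M k (WithLp.toLp 2 z) j)
      (fun k => toLp_diff (I.hd' k j)) hηs (C1 := C1) (M := B) (fun k r hr0 hr1 z hz => ?_)
      (fun k z hz => I.size k (toLp_lt hz) j)
    set y : E m := WithLp.toLp 2 z with hy
    have hy1 : ‖y‖ ≤ r := toLp_le hr0.le hz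
    have hy2 : ‖y‖ < 1 := by linarith
    have e : hseq h0 M (k + 1) y j - hseq h0 M k y j = -∑ a, hseq h0 M k y a * M k a j y := by
      change hseq h0 M k y j - ∑ a, hseq h0 M k y a * M k a j y - hseq h0 M k y j = _
      ring
    rw [e, norm_neg]
    refine (norm_sum_le _ _).trans ?_
    have hwk := I.wr k y r hy1 hr1
    have hηk := I.η0 k
    have hrk : 0 ≤ r ^ k := by positivity
    refine (Finset.sum_le_card_nsmul _ _ (B * (C * (W * r ^ k + η k))) fun a _ => ?_).trans ?_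
    · rw [norm_mul]
      refine mul_le_mul (I.size k hy2 a) ((I.Mb k y hy2 a j).trans ?_) (norm_nonneg _) hB0
      exact mul_le_mul_of_nonneg_left (by linarith) hC0
    · rw [nsmul_eq_mul, Finset.card_univ, Fintype.card_fin, hC1]
      have h1 : W * r ^ k + η k ≤ (W + 1) * (η k + r ^ k) := by nlinarith
      calc (N:ℝ) * (B * (C * (W * r ^ k + η k))) = N * B * C * (W * r ^ k + η k) := by ring
        _ ≤ N * B * C * ((W + 1) * (η k + r ^ k)) :=
            mul_le_mul_of_nonneg_left h1 (by positivity)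
        _ = _ := by ring
  choose g hg1 hg2 using hlim
  -- the limit of the products
  obtain ⟨G, hG1, hG2⟩ : ∃ G : (Fin m → ℂ) → ℂ, DifferentiableOn ℂ G (Bal m) ∧
      ∀ z ∈ Bal m, Tendsto (fun k => ∑ j, F k (WithLp.toLp 2 z) j *
        hseq h0 M k (WithLp.toLp 2 z) j) atTop (𝓝 (G z)) := by
    refine limit_ent (u := fun k z => ∑ j, F k (WithLp.toLp 2 z) j *
        hseq h0 M k (WithLp.toLp 2 z) j)
      (fun k => Differentiable.fun_sum fun j _ => (toLp_diff (I.Fd k j)).mul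
        (toLp_diff (I.hd' k j))) hηs (C1 := C1) (M := 2) (fun k r hr0 hr1 z hz => ?_)
      (fun k z hz => ?_)
    · have hy1 : ‖(WithLp.toLp 2 z : E m)‖ ≤ r := toLp_le hr0.le hz
      refine (I.step k (by linarith)).trans ?_
      rw [← hB]
      have hηk := I.η0 k
      have hrk : 0 ≤ r ^ k := by positivity
      calc N * B * C * η k ≤ C1 * η k := mul_le_mul_of_nonneg_right hNB hηk
        _ ≤ C1 * (η k + r ^ k) := mul_le_mul_of_nonneg_left (by linarith) hC10
    · have h1 := I.bez k (toLp_lt hz)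
      have h2 := norm_add_le (∑ j, F k (WithLp.toLp 2 z) j *
        hseq h0 M k (WithLp.toLp 2 z) j - 1) 1
      rw [sub_add_cancel, norm_one] at h2
      linarith
  have hGe : ∀ z ∈ Bal m, ∑ j, f (WithLp.toLp 2 z) j * g j z = G z := by
    intro z hz
    refine tendsto_nhds_unique ?_ (hG2 z hz)
    exact tendsto_finsetSum _ fun j _ => (I.Ft _ (toLp_lt hz) j).mul (hg2 j z hz)
  have hG3 : ∀ z ∈ Bal m, 1 / 2 ≤ ‖G z‖ := by
    intro z hz
    have h1 : ‖G z - 1‖ ≤ 1 / 2 :=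
      le_of_tendsto ((hG2 z hz).sub_const 1).norm
        (Eventually.of_forall fun k => I.bez k (toLp_lt hz))
    have h2 := norm_sub_norm_le (1:ℂ) (1 - G z)
    rw [sub_sub_cancel, norm_one, norm_sub_rev] at h2
    linarith
  have hG0 : ∀ z ∈ Bal m, G z ≠ 0 := fun z hz h0 => by
    have := hG3 z hz
    rw [h0, norm_zero] at this
    norm_num at this
  refine ⟨fun j z => g j z * (G z)⁻¹, fun j => (hg1 j).mul (hG1.inv hG0), fun z hz j => ?_,
    fun z hz => ?_⟩
  · beta_reduce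
    rw [← div_eq_mul_inv, norm_div, div_le_iff₀ (by linarith [hG3 z hz])]
    have h1 : ‖g j z‖ ≤ B := le_of_tendsto (hg2 j z hz).norm
      (Eventually.of_forall fun k => I.size k (toLp_lt hz) j)
    have h2 := hG3 z hz
    nlinarith
  · have h1 : ∑ j, f (WithLp.toLp 2 z) j * (g j z * (G z)⁻¹) =
        (∑ j, f (WithLp.toLp 2 z) j * g j z) / G z := by
      rw [Finset.sum_div]
      exact Finset.sum_congr rfl fun j _ => by ring
    rw [h1, hGe z hz, div_self (hG0 z hz)]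

end Pool.Agent.K9h23.Hom
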