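import Mathlib
import Pool.Agent.K9h23.Hom.Asm

/-!
The corona theorem for homogeneous expansions with large gaps.
-/

set_option autoImplicit false

open Complex Set Metric Filter Topology
open scoped Real

namespace Pool.Agent.K9h23.Hom

open Pool.Agent.K9h23.Lac (nsq nsq_nonneg nsq_cont nsq_c nn nn_nonneg nn_sq nn_add_le le_nsq
  nsq_smul' bd bd_le_nn comp_le_nn nsq_conj nn_le_comp Bal isOpen_Bal)

theorem closed_of_ball {m : ℕ} {g : E m → ℝ} (hg : Continuous g) {a : ℝ}
    (h : ∀ z, ‖z‖ < 1 → a ≤ g z) {z : E m} (hz : ‖z‖ ≤ 1) : a ≤ g z := by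
  have h1 : closure (ball (0 : E m) 1) ⊆ {z | a ≤ g z} :=
    closure_minimal (fun z hz => h z (by simpa using hz)) (isClosed_le continuous_const hg)
  rw [closure_ball (0 : E m) one_ne_zero] at h1
  exact h1 (by simpa using hz)

theorem Ho.mono {m : ℕ} {l : ℕ} {M M' : ℝ} {u : E m → ℂ} (h : Ho l M u) (hM : M ≤ M') :
    Ho l M' u := ⟨h.d, h.h, fun z hz => (h.b z hz).trans hM⟩

theorem nn_cont {N : ℕ} : Continuous (fun u : Fin N → ℂ => nn u) := by
  unfold nn
  exact nsq_cont.sqrt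

/-- **Main theorem**, abstract form. -/
theorem hom_main (m N d : ℕ) {δ : ℝ} (hδ : 0 < δ) (hδ1 : δ ≤ 1) {B0 : ℝ} (hB0 : 0 ≤ B0) :
    ∃ c0 : ℝ, 0 < c0 ∧ ∃ C : ℝ, ∀ (l : ℕ → ℕ) (H : ℕ → E m → Fin N → ℂ) (f : E m → Fin N → ℂ),
    Dat d l H f → (∀ z, ‖z‖ < 1 → δ ≤ nn (f z)) →
    (∀ K, ∑ i ∈ Finset.range K, (Dg d l i : ℝ) / Real.sqrt (l i) ≤ c0) →
    ∀ h0 : E m → Fin N → ℂ, (∀ j, Differentiable ℂ (fun z => h0 z j)) →
    (∀ z, ‖z‖ < 1 → ∀ j, ‖h0 z j‖ ≤ B0) →
    (∀ z, ‖z‖ < 1 → ‖∑ j, FF d l H 0 z j * h0 z j - 1‖ ≤ 1 / 4) →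
    ∃ g : Fin N → (Fin m → ℂ) → ℂ, (∀ j, DifferentiableOn ℂ (g j) (Bal m)) ∧
      (∀ z ∈ Bal m, ∀ j, ‖g j z‖ ≤ C) ∧
      ∀ z ∈ Bal m, ∑ j, f (WithLp.toLp 2 z) j * g j z = 1 := by
  have hN0 : (0:ℝ) ≤ N := Nat.cast_nonneg _
  set κ : ℝ := δ / (2 * (N + 1)) with hκ
  have hκ0 : 0 < κ := by positivity
  have hκN : (N + 1) * κ = δ / 2 := by rw [hκ]; field_simp
  have hκ1 : κ ≤ 1 := by nlinarith
  obtain ⟨R, c, hc, hclose⟩ := close hκ0 hκ1
  set A : ℝ := N + 2 with hA
  obtain ⟨C1, hC1, hstage⟩ := hom_stage (δ := δ / 2) (A := A) (by positivity) (by linarith)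
    (by linarith) m N
  set S : ℝ := N * (2 * (d + 3)) with hS
  set X : ℝ := N * (B0 * Real.exp (N * C1 * (S + 1))) * C1 with hX
  have hX0 : 0 ≤ X := by positivity
  set c1 : ℝ := 1 / (4 * (X + 1)) with hc1
  have hc10 : 0 < c1 := by positivity
  have hc11 : c1 ≤ 1 := by
    rw [hc1, div_le_one (by positivity)]
    linarith
  have hXc : X * c1 ≤ 1 / 4 := by
    rw [hc1, mul_one_div, div_le_div_iff₀ (by positivity) (by norm_num)]
    linarith
  set c0 : ℝ := min (c1 / 24) (min c (1 / (R + 20))) with hc0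
  have hc00 : 0 < c0 := by
    refine lt_min (by positivity) (lt_min hc (by positivity))
  have hc0a : c0 ≤ c1 / 24 := min_le_left _ _
  have hc0b : c0 ≤ c := (min_le_right _ _).trans (min_le_left _ _)
  have hc0c : c0 ≤ 1 / (R + 20) := (min_le_right _ _).trans (min_le_right _ _)
  have hR0 : (0:ℝ) ≤ R := Nat.cast_nonneg _
  have hc0d : (R + 20) * c0 ≤ 1 := by
    rw [le_div_iff₀ (by positivity)] at hc0c
    linarith
  have hc0e : c0 ≤ 1 := by nlinarith
  refine ⟨c0, hc00, 2 * (B0 * Real.exp (N * C1 * (S + c1))), fun l H f D hfl hgap h0 hh0d hh0b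
    hh01 => ?_⟩
  have hl0 : ∀ i, (0:ℝ) < l i := fun i => by
    have := D.Dg_lt i
    exact_mod_cast (by omega : 0 < l i)
  -- each term
  have hterm : ∀ i, (Dg d l i : ℝ) / Real.sqrt (l i) ≤ c0 := by
    intro i
    have h1 := hgap (i + 1)
    rw [Finset.sum_range_succ] at h1
    have h2 : 0 ≤ ∑ t ∈ Finset.range i, (Dg d l t : ℝ) / Real.sqrt (l t) :=
      Finset.sum_nonneg fun _ _ => by positivity
    linarith
  have hterm2 : ∀ i, (Dg d l i : ℝ) ≤ c0 * Real.sqrt (l i) := by
    intro i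
    have h1 := hterm i
    rwa [div_le_iff₀ (Real.sqrt_pos.2 (hl0 i))] at h1
  have hterm3 : ∀ i, (Dg d l i : ℝ) ^ 2 ≤ c0 ^ 2 * l i := by
    intro i
    have h1 := pow_le_pow_left₀ (Nat.cast_nonneg _) (hterm2 i) 2
    rwa [mul_pow, Real.sq_sqrt (hl0 i).le] at h1
  have hratio : ∀ (R' : ℕ), R' ≤ R + 20 → ∀ i, R' * l i ≤ l (i + 1) := by
    intro R' hR' i
    have h1 := hterm3 (i + 1)
    change ((l i : ℕ) : ℝ) ^ 2 ≤ _ at h1
    have h2 : (1:ℝ) ≤ l i := by
      have := D.Dg_lt i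
      exact_mod_cast (by omega : 1 ≤ l i)
    have h3 : ((R' : ℕ) : ℝ) * l i ≤ l (i + 1) := by
      have h4 : ((R' : ℕ) : ℝ) ≤ R + 20 := by exact_mod_cast hR'
      have h5 : (l i : ℝ) ≤ (l i : ℝ) ^ 2 := by nlinarith
      have h6 : c0 ^ 2 ≤ c0 := by nlinarith
      have h7 : (l i : ℝ) ≤ c0 * l (i + 1) := by
        have := hl0 (i + 1)
        nlinarith
      have h8 : 0 ≤ (l (i + 1) : ℝ) := (hl0 _).le
      calc ((R' : ℕ) : ℝ) * l i ≤ (R + 20) * l i :=
            mul_le_mul_of_nonneg_right h4 (hl0 i).le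
        _ ≤ (R + 20) * (c0 * l (i + 1)) := mul_le_mul_of_nonneg_left h7 (by positivity)
        _ = ((R + 20) * c0) * l (i + 1) := by ring
        _ ≤ 1 * l (i + 1) := mul_le_mul_of_nonneg_right hc0d h8
        _ = _ := one_mul _
    exact_mod_cast h3
  have G : Gp d l R c := ⟨hratio R (by omega), fun i => (hterm3 i).trans (by
    refine mul_le_mul_of_nonneg_right ?_ (hl0 i).le
    nlinarith)⟩
  have h20 : ∀ i, 20 * l i ≤ l (i + 1) := hratio 20 (by omega)
  -- the frozen functions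
  have hfro : ∀ i z, ‖z‖ < 1 → ∀ ξ : ℂ, ‖ξ‖ ≤ 1 →
      δ / 2 ≤ nn (fun j => FF d l H i z j + ξ * H (l i) z j) ∧
      nn (fun j => FF d l H i z j + ξ * H (l i) z j) ≤ 2 := by
    intro i z hz ξ hξ
    obtain ⟨z', hz', h1⟩ := hclose m N d l H f D G z hz i ξ hξ
    have h2 : nn (fun j => f z' j - (FF d l H i z j + ξ * H (l i) z j)) ≤ δ / 2 :=
      (nn_le_comp hκ0.le h1).trans hκN.le
    have h3 : nn (fun j => (FF d l H i z j + ξ * H (l i) z j) - f z' j) ≤ δ / 2 := by
      refine (nn_le_comp hκ0.le fun j => ?_).trans hκN.le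
      rw [norm_sub_rev]; exact h1 j
    constructor
    · have h4 := nn_add_le (fun j => FF d l H i z j + ξ * H (l i) z j)
        (fun j => f z' j - (FF d l H i z j + ξ * H (l i) z j))
      have e : (fun j => FF d l H i z j + ξ * H (l i) z j +
          (f z' j - (FF d l H i z j + ξ * H (l i) z j))) = f z' := by
        funext j; ring
      rw [e] at h4
      have := hfl z' hz'
      linarith
    · have h4 := nn_add_le (f z') (fun j => (FF d l H i z j + ξ * H (l i) z j) - f z' j)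
      have e : (fun j => f z' j + ((FF d l H i z j + ξ * H (l i) z j) - f z' j)) =
          fun j => FF d l H i z j + ξ * H (l i) z j := by
        funext j; ring
      rw [e] at h4
      have := D.fb z' hz'
      linarith
  have hFFd : ∀ i j, Differentiable ℂ (fun z => FF d l H i z j) := by
    intro i j
    unfold FF
    exact Differentiable.fun_sum fun k _ => D.Hd k j
  have hcont : ∀ i (ξ : ℂ), Continuous (fun z => nn (fun j => FF d l H i z j + ξ * H (l i) z j)) := by
    intro i ξ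
    refine nn_cont.comp (continuous_pi fun j => ?_)
    exact (hFFd i j).continuous.add (continuous_const.mul (D.Hd (l i) j).continuous)
  have hfrol : ∀ i z, ‖z‖ ≤ 1 → ∀ ξ : ℂ, ‖ξ‖ ≤ 1 →
      δ / 2 ≤ nn (fun j => FF d l H i z j + ξ * H (l i) z j) := fun i z hz ξ hξ =>
    closed_of_ball (hcont i ξ) (fun z hz => (hfro i z hz ξ hξ).1) hz
  have hFn : ∀ i z, ‖z‖ ≤ 1 → nn (FF d l H i z) ≤ 2 := by
    intro i z hz
    have h1 := closed_of_ball (g := fun z => -nn (fun j => FF d l H i z j + 0 * H (l i) z j))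
      (hcont i 0).neg (a := -2) (fun z hz => by
        have := (hfro i z hz 0 (by simp)).2
        linarith) hz
    have e : (fun j => FF d l H i z j + 0 * H (l i) z j) = FF d l H i z := by
      funext j; ring
    rw [e] at h1
    linarith
  -- the stage
  have hFz : ∀ i, Fz (δ / 2) A (12 * Dg d l i) (l i) (FF d l H i) (H (l i)) := by
    intro i
    refine ⟨?_, by positivity, ?_, fun j => (hFFd i j).continuous, fun z w hz hw j => ?_,
      fun z hz => (hFn i z hz).trans (by rw [hA]; linarith), fun z hz => ?_,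
      fun j => (D.ho (l i) j).mono (by rw [hA]; linarith), fun z hz ξ hξ => hfrol i z hz ξ hξ⟩
    · have := D.Dg_lt i; omega
    · have h1 := hterm2 i
      have h2 : (12:ℝ) * c0 ≤ 1 := by nlinarith
      have h3 := Real.sqrt_nonneg (l i)
      nlinarith
    · have h1 := FF_lip D.Hd D.Hh (M := 2) (by norm_num) (fun z hz j =>
        (comp_le_nn _ j).trans (hFn i z hz)) hz hw j
      calc _ ≤ _ := h1
        _ = 12 * (Dg d l i) * ‖z - w‖ := by ring
    · refine (nn_le_comp zero_le_one fun j => (D.ho (l i) j).b z hz).trans ?_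
      rw [hA]; linarith
  have hε : ∀ i : ℕ, 0 < c1 * (1 / 2) ^ (i + 2) := fun i => by positivity
  choose M hMd hMb using fun i => hstage (l i) (12 * Dg d l i) _ _ (hFz i) _ (hε i)
  set w : ℕ → E m → ℝ := fun i z => ∑ a, ‖H (l i) z a‖ with hw
  set η : ℕ → ℝ := fun i => 12 * Dg d l i / Real.sqrt (l i) + c1 * (1 / 2) ^ (i + 2) with hη
  have hwa : ∀ i z a, ‖H (l i) z a‖ ≤ w i z := fun i z a =>
    Finset.single_le_sum (f := fun a => ‖H (l i) z a‖) (fun _ _ => norm_nonneg _)
      (Finset.mem_univ a)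
  have hsum2 : ∀ K, ∑ i ∈ Finset.range K, ((1:ℝ) / 2) ^ (i + 2) ≤ 1 / 2 := by
    intro K
    have h1 : ∑ i ∈ Finset.range K, ((1:ℝ) / 2) ^ (i + 2) =
        1 / 4 * ∑ i ∈ Finset.range K, ((1:ℝ) / 2) ^ i := by
      rw [Finset.mul_sum]
      exact Finset.sum_congr rfl fun i _ => by rw [pow_add]; ring
    rw [h1]
    have h2 := geom_le (q := (1 / 2 : ℝ)) (by norm_num) (by norm_num) K
    norm_num at h2 ⊢
    linarith
  have I : It 2 B0 C1 S N c1 (FF d l H) (fun i => H (l i)) f h0 M w η := by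
    refine ⟨by norm_num, hB0, by linarith, hN0, hFFd, fun i z j => D.succ i z j,
      fun i z hz j => (comp_le_nn _ j).trans (hFn i z hz.le), fun z hz j => ?_, hh0d, hh0b, hh01,
      hMd, fun i z hz a j => ?_, fun i z hz a => ?_, fun i z => ?_, fun z hz K => ?_,
      fun i z r hz hr => ?_, fun i => ?_, fun K => ?_, ?_⟩
    · have h1 := (D.block hz j).tendsto_sum_nat
      have h2 := h1.const_add (∑ k ∈ Finset.range (d + 1), H k z j)
      rw [add_sub_cancel] at h2
      refine h2.congr fun i => ?_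
      rw [D.FF_eq]
    · have h1 := (hMb i z hz.le a).1 j
      refine h1.trans (mul_le_mul_of_nonneg_left (add_le_add (hwa i z a) ?_) (by linarith))
      have := hε i
      rw [hη]
      simp only
      linarith
    · have h1 := (hMb i z hz.le a).2
      refine h1.trans ?_
      have h2 := (hε i).le
      rw [hη]
      simp only
      rw [mul_add]
      have : c1 * (1 / 2) ^ (i + 2) ≤ C1 * (c1 * (1 / 2) ^ (i + 2)) := by nlinarith
      linarith
    · exact Finset.sum_nonneg fun _ _ => norm_nonneg _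
    · rw [hw]
      simp only
      rw [Finset.sum_comm]
      refine (Finset.sum_le_card_nsmul _ _ _ fun a _ => D.sidon h20 hz a K).trans (le_of_eq ?_)
      rw [nsmul_eq_mul, Finset.card_univ, Fintype.card_fin]
    · rw [hw]
      simp only
      have hr0 : 0 ≤ r := (norm_nonneg z).trans hz
      refine (Finset.sum_le_card_nsmul _ _ (r ^ i) fun a _ => ?_).trans (le_of_eq ?_)
      · have h1 := (D.ho (l i) a).le z
        rw [one_mul] at h1
        refine h1.trans ((pow_le_pow_left₀ (norm_nonneg _) hz _).trans ?_)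
        exact pow_le_pow_of_le_one hr0 hr.le (D.lm.le_apply)
      · rw [nsmul_eq_mul, Finset.card_univ, Fintype.card_fin]
    · have := (hε i).le
      rw [hη]
      simp only
      positivity
    · rw [hη]
      simp only
      rw [Finset.sum_add_distrib, ← Finset.mul_sum]
      have h1 : ∑ i ∈ Finset.range K, 12 * (Dg d l i : ℝ) / Real.sqrt (l i) =
          12 * ∑ i ∈ Finset.range K, (Dg d l i : ℝ) / Real.sqrt (l i) := by
        rw [Finset.mul_sum]
        exact Finset.sum_congr rfl fun i _ => by ring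
      rw [h1]
      have h2 := hgap K
      have h3 := hsum2 K
      nlinarith
    · refine le_trans ?_ hXc
      refine mul_le_mul_of_nonneg_right ?_ hc10.le
      rw [hX]
      refine mul_le_mul_of_nonneg_right (mul_le_mul_of_nonneg_left
        (mul_le_mul_of_nonneg_left ?_ hB0) hN0) (by linarith)
      apply Real.exp_le_exp.2
      refine mul_le_mul_of_nonneg_left (by linarith) (by positivity)
  exact I.main

end Pool.Agent.K9h23.Hom
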