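import Mathlib
import Pool.Agent.K9h23.Hom.Main

/-!
The corona theorem for homogeneous expansions with large gaps: polynomial form.
-/

set_option autoImplicit false

open Complex Set Metric Filter Topology MvPolynomial
open scoped Real

namespace Pool.Agent.K9h23.Hom

open Pool.Agent.K9h23.Lac (nsq nsq_nonneg nsq_cont nsq_c nn nn_nonneg nn_sq nn_add_le le_nsq
  nsq_smul' bd bd_le_nn comp_le_nn nsq_conj nn_le_comp Bal isOpen_Bal MP Rg Sz ev bez_unif FD)

theorem eval_diff {n : ℕ} (p : MP n) : Differentiable ℂ (fun z : Fin n → ℂ => eval z p) := by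
  induction p using MvPolynomial.induction_on with
  | C a => simp
  | add p q hp hq =>
    simp only [map_add]
    exact hp.add hq
  | mul_X p i hp =>
    simp only [map_mul, eval_X]
    exact hp.mul (by fun_prop)

theorem eval_smul {n k : ℕ} {p : MP n} (hp : p.IsHomogeneous k) (c : ℂ) (z : Fin n → ℂ) :
    eval (c • z) p = c ^ k * eval z p := by
  rw [MvPolynomial.eval_eq', MvPolynomial.eval_eq', Finset.mul_sum]
  refine Finset.sum_congr rfl fun s hs => ?_
  have h1 : ∏ i, (c • z) i ^ s i = c ^ k * ∏ i, z i ^ s i := by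
    have h2 : ∀ i, (c • z) i ^ s i = c ^ s i * z i ^ s i := fun i => by
      rw [Pi.smul_apply, smul_eq_mul, mul_pow]
    simp_rw [h2]
    rw [Finset.prod_mul_distrib, Finset.prod_pow_eq_pow_sum]
    congr 2
    have h3 := hp (mem_support_iff.1 hs)
    rw [← h3, Finsupp.weight_apply, Finsupp.sum_fintype]
    · simp
    · simp
  rw [h1]
  ring

/-- **Theorem.** -/
theorem final (n N d : ℕ) {δ : ℝ} (hδ : 0 < δ) (hδ1 : δ ≤ 1) : ∃ c : ℝ, 0 < c ∧ ∃ C : ℝ,
    ∀ (l : ℕ → ℕ) (P : ℕ → Fin N → MvPolynomial (Fin n) ℂ) (f : Fin N → (Fin n → ℂ) → ℂ),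
    StrictMono l → d < l 0 → (∀ k j, (P k j).IsHomogeneous k) →
    (∀ k, d < k → k ∉ Set.range l → ∀ j, P k j = 0) →
    (∀ z ∈ Bal n, ∀ j, HasSum (fun k => eval z (P k j)) (f j z)) →
    (∀ z ∈ Bal n, δ ^ 2 ≤ nsq (fun j => f j z) ∧ nsq (fun j => f j z) ≤ 1) →
    (∀ K, ∑ i ∈ Finset.range K, (Dg d l i : ℝ) / Real.sqrt (l i) ≤ c) →
    ∃ g : Fin N → (Fin n → ℂ) → ℂ, (∀ j, DifferentiableOn ℂ (g j) (Bal n)) ∧
      (∀ z ∈ Bal n, ∀ j, ‖g j z‖ ≤ C) ∧ ∀ z ∈ Bal n, ∑ j, f j z * g j z = 1 := by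
  set κ : ℝ := δ / (2 * (N + 1)) with hκ
  have hκ0 : 0 < κ := by positivity
  have hκN : (N + 1) * κ = δ / 2 := by rw [hκ]; field_simp
  have hN0 : (0:ℝ) ≤ N := Nat.cast_nonneg _
  have hκ1 : κ ≤ 1 := by nlinarith
  obtain ⟨R, c, hc, hclose⟩ := close hκ0 hκ1
  obtain ⟨Λ, hΛ⟩ := bez_unif n N d (c := (δ / 2) ^ 2) (ε := 1 / 4) (by positivity) (by norm_num)
  set B0 : ℝ := (FD n d).card * Λ + (FD n Λ).card * Λ with hB0
  obtain ⟨c0, hc0, C, hmain⟩ := hom_main n N d hδ hδ1 (B0 := B0) (by positivity)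
  have hR0 : (0:ℝ) ≤ R := Nat.cast_nonneg _
  refine ⟨min c0 (min c (1 / (R + 1))), lt_min hc0 (lt_min hc (by positivity)), C,
    fun l P f hl hd hP hsp hs hfb hgap => ?_⟩
  set c2 := min c0 (min c (1 / (R + 1))) with hc2
  have hc2a : c2 ≤ c0 := min_le_left _ _
  have hc2b : c2 ≤ c := (min_le_right _ _).trans (min_le_left _ _)
  have hc2c : c2 ≤ 1 / (R + 1) := (min_le_right _ _).trans (min_le_right _ _)
  have hc20 : 0 < c2 := lt_min hc0 (lt_min hc (by positivity))
  have hc2d : (R + 1) * c2 ≤ 1 := by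
    rw [le_div_iff₀ (by positivity)] at hc2c
    linarith
  have hc2e : c2 ≤ 1 := by nlinarith
  -- the abstract data
  set H : ℕ → E n → Fin N → ℂ := fun k z j => eval z.ofLp (P k j) with hH
  set F : E n → Fin N → ℂ := fun z j => f j z.ofLp with hF
  have hball : ∀ z : E n, ‖z‖ < 1 → z.ofLp ∈ Bal n := by
    intro z hz
    change nsq z.ofLp < 1
    have h1 := nsq_toLp z.ofLp
    rw [← h1]
    have h2 : (WithLp.toLp 2 z.ofLp : E n) = z := rfl
    rw [h2]
    nlinarith [norm_nonneg z]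
  have D : Dat d l H F := by
    refine ⟨fun k j => ?_, fun k c z j => ?_, fun z hz j => hs _ (hball z hz) j,
      fun k hk hkl z j => ?_, fun z hz => ?_, hl, hd⟩
    · exact (eval_diff (P k j)).comp
        ((PiLp.continuousLinearEquiv 2 ℂ (fun _ : Fin n => ℂ))).differentiable
    · exact eval_smul (hP k j) c z.ofLp
    · rw [hH]
      simp only
      rw [hsp k hk (fun ⟨i, hi⟩ => hkl i hi) j, map_zero]
    · have h1 := (hfb _ (hball z hz)).2
      exact Pool.Agent.K9h23.Lac.nn_le_of zero_le_one (by rw [one_pow]; exact h1)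
  have hfl : ∀ z, ‖z‖ < 1 → δ ≤ nn (F z) := by
    intro z hz
    have h1 := (hfb _ (hball z hz)).1
    unfold nn
    exact Real.le_sqrt_of_sq_le h1
  have hl0 : ∀ i, (0:ℝ) < l i := fun i => by
    have := D.Dg_lt i
    exact_mod_cast (by omega : 0 < l i)
  have hterm3 : ∀ i, (Dg d l i : ℝ) ^ 2 ≤ c2 ^ 2 * l i := by
    intro i
    have h1 := hgap (i + 1)
    rw [Finset.sum_range_succ] at h1
    have h2 : 0 ≤ ∑ t ∈ Finset.range i, (Dg d l t : ℝ) / Real.sqrt (l t) :=
      Finset.sum_nonneg fun _ _ => by positivity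
    have h3 : (Dg d l i : ℝ) / Real.sqrt (l i) ≤ c2 := by linarith
    rw [div_le_iff₀ (Real.sqrt_pos.2 (hl0 i))] at h3
    have h4 := pow_le_pow_left₀ (Nat.cast_nonneg _) h3 2
    rwa [mul_pow, Real.sq_sqrt (hl0 i).le] at h4
  have G : Gp d l R c := by
    refine ⟨fun i => ?_, fun i => (hterm3 i).trans (by
      refine mul_le_mul_of_nonneg_right ?_ (hl0 i).le
      nlinarith)⟩
    have h1 := hterm3 (i + 1)
    change ((l i : ℕ) : ℝ) ^ 2 ≤ _ at h1
    have h2 : (1:ℝ) ≤ l i := by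
      have := D.Dg_lt i
      exact_mod_cast (by omega : 1 ≤ l i)
    have h3 : (R : ℝ) * l i ≤ l (i + 1) := by
      have h5 : (l i : ℝ) ≤ (l i : ℝ) ^ 2 := by nlinarith
      have h6 : c2 ^ 2 ≤ c2 := by nlinarith
      have h8 : 0 ≤ (l (i + 1) : ℝ) := (hl0 _).le
      have h7 : (l i : ℝ) ≤ c2 * l (i + 1) := by nlinarith
      calc (R : ℝ) * l i ≤ (R + 1) * l i := mul_le_mul_of_nonneg_right (by linarith) (hl0 i).le
        _ ≤ (R + 1) * (c2 * l (i + 1)) := mul_le_mul_of_nonneg_left h7 (by positivity)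
        _ = ((R + 1) * c2) * l (i + 1) := by ring
        _ ≤ 1 * l (i + 1) := mul_le_mul_of_nonneg_right hc2d h8
        _ = _ := one_mul _
    exact_mod_cast h3
  -- the first polynomial
  set p0 : Fin N → MP n := fun j => ∑ k ∈ Finset.range (d + 1), P k j with hp0
  have hp0e : ∀ z : Fin n → ℂ, ∀ j, eval z (p0 j) = FF d l H 0 (WithLp.toLp 2 z) j := by
    intro z j
    rw [hp0]
    simp only [map_sum]
    rfl
  have hp0R : ∀ j, Rg 0 d (p0 j) := by
    intro j
    refine Rg.sum _ _ fun k hk => ?_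
    intro s hs'
    refine ⟨Nat.zero_le _, ?_⟩
    have h1 := hP k j hs'
    have h2 : s.degree = k := by
      rw [← h1, Finsupp.weight_apply, Finsupp.sum_fintype, Finsupp.degree_eq_sum]
      · simp
      · simp
    rw [h2]
    rw [Finset.mem_range] at hk
    omega
  have hp0b : ∀ z ∈ Bal n, (δ / 2) ^ 2 ≤ nsq (ev p0 z) ∧ nsq (ev p0 z) ≤ 4 := by
    intro z hz
    obtain ⟨z', hz', h1⟩ := hclose n N d l H F D G (WithLp.toLp 2 z) (toLp_lt hz) 0 0 (by simp)
    have e0 : ∀ j, FF d l H 0 (WithLp.toLp 2 z) j + 0 * H (l 0) (WithLp.toLp 2 z) j =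
        ev p0 z j := by
      intro j
      rw [zero_mul, add_zero, ← hp0e]
      rfl
    simp_rw [e0] at h1
    have h2 : nn (fun j => F z' j - ev p0 z j) ≤ δ / 2 := (nn_le_comp hκ0.le h1).trans hκN.le
    have h3 : nn (fun j => ev p0 z j - F z' j) ≤ δ / 2 := by
      refine (nn_le_comp hκ0.le fun j => ?_).trans hκN.le
      rw [norm_sub_rev]; exact h1 j
    have h4 := nn_add_le (ev p0 z) (fun j => F z' j - ev p0 z j)
    have h5 := nn_add_le (F z') (fun j => ev p0 z j - F z' j)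
    have e1 : (fun j => ev p0 z j + (F z' j - ev p0 z j)) = F z' := by funext j; ring
    have e2 : (fun j => F z' j + (ev p0 z j - F z' j)) = ev p0 z := by funext j; ring
    rw [e1] at h4
    rw [e2] at h5
    have h6 := hfl z' hz'
    have h7 := D.fb z' hz'
    have h8 := nn_nonneg (ev p0 z)
    rw [← nn_sq]
    constructor
    · nlinarith
    · nlinarith
  obtain ⟨h0, hs0, hb0⟩ := hΛ p0 hp0R hp0b
  obtain ⟨g, g1, g2, g3⟩ := hmain l H F D hfl (fun K => (hgap K).trans hc2a)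
    (fun z j => eval z.ofLp (h0 j)) (fun j => (eval_diff (h0 j)).comp
      ((PiLp.continuousLinearEquiv 2 ℂ (fun _ : Fin n => ℂ))).differentiable)
    (fun z hz j => by
      refine (hs0.bd (hball z hz) j).trans ?_
      rw [hB0]
      have : 0 ≤ ((FD n d).card : ℝ) * Λ := by positivity
      linarith)
    (fun z hz => by
      have h1 := hb0 _ (hball z hz)
      refine le_trans (le_of_eq ?_) h1
      have e : ∑ j, FF d l H 0 z j * eval z.ofLp (h0 j) = bd (ev p0 z.ofLp) (ev h0 z.ofLp) := by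
        unfold bd
        refine Finset.sum_congr rfl fun j _ => ?_
        have e1 := hp0e z.ofLp j
        have e2 : (WithLp.toLp 2 z.ofLp : E n) = z := rfl
        rw [e2] at e1
        rw [← e1]
        rfl
      rw [e])
  exact ⟨g, g1, g2, fun z hz => g3 z hz⟩

end Pool.Agent.K9h23.Hom
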